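import Pool.Agent.H58.Tri.RigLin
import Pool.Agent.H24.Tri.RigL1
import Pool.Agent.H7.Tri.RigL2

set_option autoImplicit false

open MeasureTheory Set Complex Metric Filter Topology
open scoped Real ENNReal NNReal ComplexConjugate

namespace Pool.Agent.H24.Tri

namespace Aux58

theorem cis_add' (a b : ℝ) : cis (a + b) = cis a * cis b := by
  simp only [cis]
  rw [← Complex.exp_add]
  push_cast
  ring_nf

theorem cis_ne_zero' (a : ℝ) : cis a ≠ 0 := Complex.exp_ne_zero _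

theorem cis_im' (a : ℝ) : (cis a).im = Real.sin a := by
  simp only [cis]
  rw [Complex.exp_ofReal_mul_I_im]

theorem cis_sub_cis' (m n : ℝ) :
    cis (m + n) - cis (m - n) = 2 * Complex.I * (Real.sin n : ℂ) * cis m := by
  rw [sub_eq_add_neg m n, cis_add', cis_add']
  have : cis n - cis (-n) = 2 * Complex.I * (Real.sin n : ℂ) := by
    simp only [cis]
    have h1 : (2 * Complex.I * (Real.sin n : ℂ)) = ((2 * Real.sin n : ℝ) : ℂ) * Complex.I := by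
      push_cast; ring
    rw [h1]
    apply Complex.ext
    · rw [Complex.sub_re, Complex.exp_ofReal_mul_I_re, Complex.exp_ofReal_mul_I_re,
        Real.cos_neg, Complex.re_ofReal_mul, Complex.I_re]
      ring
    · rw [Complex.sub_im, Complex.exp_ofReal_mul_I_im, Complex.exp_ofReal_mul_I_im,
        Real.sin_neg, Complex.im_ofReal_mul, Complex.I_im]
      ring
  linear_combination cis m * this

/-- two points with a common neighbour: the difference of the values of `K` is almost a real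
multiple of `l * a * cis φ` -/
theorem common_nbr (K K' : ℂ → ℂ) (a l : ℂ) (ha : a ≠ 0) (hl : l ≠ 0) (t : ℂ × ℝ → ℝ)
    (G : Set (ℂ × ℝ)) (T : ℝ) (hT : ∀ p ∈ G, |t p| ≤ T)
    (h : ∀ p ∈ G, K' (p.1 + a * cis p.2) - K p.1 = t p * (l * a * cis p.2))
    (x y : ℂ) (φ ν : ℝ) (hx : (x, φ + ν) ∈ G) (hy : (y, φ - ν) ∈ G)
    (hxy : y - x = a * (2 * Complex.I * (Real.sin ν : ℂ) * cis φ)) :
    |((K y - K x) / (l * a * cis φ)).im| ≤ 2 * T * |Real.sin ν| := by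
  have e : x + a * cis (φ + ν) = y + a * cis (φ - ν) := by
    have := cis_sub_cis' φ ν
    linear_combination a * this - hxy
  have hx' := h _ hx
  have hy' := h _ hy
  simp only at hx' hy'
  rw [e] at hx'
  have hd : K y - K x = (t (x, φ + ν) : ℂ) * (l * a * cis (φ + ν)) -
      (t (y, φ - ν) : ℂ) * (l * a * cis (φ - ν)) := by
    rw [← hx', ← hy']; ring
  have hd2 : (K y - K x) / (l * a * cis φ) = (t (x, φ + ν) : ℂ) * cis ν -
      (t (y, φ - ν) : ℂ) * cis (-ν) := by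
    rw [hd, cis_add', sub_eq_add_neg φ ν, cis_add']
    have := cis_ne_zero' φ
    field_simp
  rw [hd2, Complex.sub_im, Complex.im_ofReal_mul, Complex.im_ofReal_mul, cis_im', cis_im',
    Real.sin_neg]
  have e3 : t (x, φ + ν) * Real.sin ν - t (y, φ - ν) * -Real.sin ν =
      (t (x, φ + ν) + t (y, φ - ν)) * Real.sin ν := by ring
  rw [e3, abs_mul]
  apply mul_le_mul_of_nonneg_right _ (abs_nonneg _)
  have := abs_add_le (t (x, φ + ν)) (t (y, φ - ν))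
  have h1 := hT _ hx
  have h2 := hT _ hy
  linarith

/-- measure of the set of failures of one incidence -/
theorem incid_meas (G : Set (ℂ × ℝ)) (hG : MeasurableSet G) (z : ℂ) (φ η s₁ : ℝ) (hη : 0 ≤ η)
    (hd : ∀ r : ℝ, 0 < r → r ≤ s₁ →
      volume ((closedBall z r ×ˢ Icc (φ - r) (φ + r)) \ G) ≤ ENNReal.ofReal (η * r ^ 3))
    (M S₀ q₀ c₀ : ℝ) (hM : 0 ≤ M) (hS₀ : 0 ≤ S₀) (hc₀ : 0 < c₀) (S : ℂ) (hS : ‖S‖ ≤ S₀)
    (q : ℝ) (hq : c₀ ≤ q) (hq' : q ≤ q₀) (σ : ℝ) (hσ : σ = 1 ∨ σ = -1) (s : ℝ) (hs : 0 < s)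
    (hs₁ : s * (M + 2 * S₀ + 4 * q₀) ≤ s₁) (hs₂ : s * (4 * q₀) ≤ 1) :
    volume {p : ℂ × ℝ | p.1 ∈ closedBall z (M * s) ∧ p.2 ∈ Icc s (2 * s) ∧
        (p.1 + (p.2 : ℂ) * S, φ + σ * Real.arcsin (q * p.2)) ∉ G} ≤
      ENNReal.ofReal (1 / c₀ * (η * (M + 2 * S₀ + 4 * q₀) ^ 3) * s ^ 3) := by
  have hqpos : 0 < q := hc₀.trans_le hq
  have hq₀ : 0 < q₀ := hqpos.trans_le hq'
  have hsmall : ∀ c ∈ Icc s (2 * s), 0 < q * c ∧ q * c ≤ 1 / 2 := by
    intro c hc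
    refine ⟨mul_pos hqpos (hs.trans_le hc.1), ?_⟩
    have : q * c ≤ q₀ * (2 * s) := mul_le_mul hq' hc.2 (hs.le.trans hc.1) hq₀.le
    nlinarith
  have harc : ∀ c ∈ Icc s (2 * s), |Real.arcsin (q * c)| ≤ s * (4 * q₀) := by
    intro c hc
    obtain ⟨h1, h2⟩ := hsmall c hc
    have h3 : 0 ≤ Real.arcsin (q * c) := Real.arcsin_nonneg.mpr h1.le
    rw [abs_of_nonneg h3]
    have h4 : Real.arcsin (q * c) ≤ π / 2 * (q * c) := by
      have hle : Real.arcsin (q * c) ≤ π / 2 := Real.arcsin_le_pi_div_two _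
      have := Real.mul_le_sin h3 hle
      rw [Real.sin_arcsin (by linarith) (by linarith)] at this
      have hpi := Real.pi_pos
      have : π / 2 * (2 / π * Real.arcsin (q * c)) ≤ π / 2 * (q * c) :=
        mul_le_mul_of_nonneg_left this (by positivity)
      calc Real.arcsin (q * c) = π / 2 * (2 / π * Real.arcsin (q * c)) := by field_simp
        _ ≤ _ := this
    have h5 : q * c ≤ q₀ * (2 * s) := mul_le_mul hq' hc.2 (hs.le.trans hc.1) hq₀.le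
    have h6 : π / 2 ≤ 2 := by have := Real.pi_le_four; linarith
    calc Real.arcsin (q * c) ≤ π / 2 * (q * c) := h4
      _ ≤ 2 * (q₀ * (2 * s)) := mul_le_mul h6 h5 h1.le (by norm_num)
      _ = s * (4 * q₀) := by ring
  have hMs : 0 ≤ M * s := by positivity
  have key := rigL2c G hG z φ s c₀ (M * s) (s * (2 * S₀)) (s * (4 * q₀)) hs hc₀ hMs
    (fun c => φ + σ * Real.arcsin (q * c)) (fun c => σ * (1 / √(1 - (q * c) ^ 2) * q))
    (fun c => (c : ℂ) * S)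
    (by
      intro c hc
      obtain ⟨h1, h2⟩ := hsmall c hc
      have hder : HasDerivAt (fun c : ℝ => q * c) q c := by
        simpa using (hasDerivAt_id c).const_mul q
      have := (Real.hasDerivAt_arcsin (x := q * c) (by linarith) (by linarith)).comp c hder
      exact (this.const_mul σ).const_add φ)
    (by
      have hge : ∀ c ∈ Icc s (2 * s), c₀ ≤ 1 / √(1 - (q * c) ^ 2) * q := by
        intro c hc
        obtain ⟨h1, h2⟩ := hsmall c hc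
        have h3 : 0 < 1 - (q * c) ^ 2 := by nlinarith
        have h4 : √(1 - (q * c) ^ 2) ≤ 1 := by
          apply Real.sqrt_le_one.mpr
          nlinarith
        have h5 : 0 < √(1 - (q * c) ^ 2) := Real.sqrt_pos.mpr h3
        have h6 : 1 ≤ 1 / √(1 - (q * c) ^ 2) := by rw [le_div_iff₀ h5]; linarith
        nlinarith
      rcases hσ with h | h
      · left
        intro c hc
        rw [h, one_mul]
        exact hge c hc
      · right
        intro c hc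
        rw [h]
        have := hge c hc
        linarith)
    (by fun_prop)
    (by
      intro c hc
      rw [norm_mul, Complex.norm_real, Real.norm_of_nonneg (hs.le.trans hc.1)]
      calc c * ‖S‖ ≤ (2 * s) * S₀ := mul_le_mul hc.2 hS (norm_nonneg _) (by positivity)
        _ = s * (2 * S₀) := by ring)
    (by
      intro c hc
      have := harc c hc
      rcases hσ with h | h <;> rw [h] <;> simpa using this)
  refine key.trans ?_
  set R := s * (M + 2 * S₀ + 4 * q₀) with hR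
  have hRpos : 0 < R := by positivity
  have hsub : (closedBall z (M * s + s * (2 * S₀)) ×ˢ
      Icc (φ - s * (4 * q₀)) (φ + s * (4 * q₀))) \ G ⊆
      (closedBall z R ×ˢ Icc (φ - R) (φ + R)) \ G := by
    apply sdiff_subset_sdiff_left
    apply Set.prod_mono
    · apply closedBall_subset_closedBall
      rw [hR]; nlinarith [mul_pos hs hq₀]
    · have h1 : 0 ≤ M * s := hMs
      have h2 : 0 ≤ s * (2 * S₀) := by positivity
      apply Icc_subset_Icc <;> rw [hR] <;> nlinarith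
  calc ENNReal.ofReal (1 / c₀) * volume ((closedBall z (M * s + s * (2 * S₀)) ×ˢ
      Icc (φ - s * (4 * q₀)) (φ + s * (4 * q₀))) \ G)
      ≤ ENNReal.ofReal (1 / c₀) * ENNReal.ofReal (η * R ^ 3) := by
        gcongr
        exact (measure_mono hsub).trans (hd R hRpos hs₁)
    _ = ENNReal.ofReal (1 / c₀ * (η * (M + 2 * S₀ + 4 * q₀) ^ 3) * s ^ 3) := by
        rw [← ENNReal.ofReal_mul (by positivity), hR]
        congr 1
        ring

/-- choice of the small parameter `h` -/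
theorem exists_small_h (r : ℂ) (δ : ℝ) (hδ : 0 < δ) : ∃ h : ℝ, 0 < h ∧ h < 1 ∧
    1 + (h : ℂ) * r ≠ 0 ∧ 1 - (h : ℂ) * r ≠ 0 ∧
    |Complex.arg (1 + (h : ℂ) * r)| ≤ δ ∧ |Complex.arg (1 - (h : ℂ) * r)| ≤ δ := by
  have hp : Tendsto (fun h : ℝ => 1 + (h : ℂ) * r) (𝓝[>] 0) (𝓝 1) := by
    have : Continuous (fun h : ℝ => 1 + (h : ℂ) * r) := by fun_prop
    have h2 := (this.tendsto 0).mono_left (nhdsWithin_le_nhds (s := Ioi 0))
    simpa using h2
  have hm : Tendsto (fun h : ℝ => 1 - (h : ℂ) * r) (𝓝[>] 0) (𝓝 1) := by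
    have : Continuous (fun h : ℝ => 1 - (h : ℂ) * r) := by fun_prop
    have h2 := (this.tendsto 0).mono_left (nhdsWithin_le_nhds (s := Ioi 0))
    simpa using h2
  have harg : Tendsto Complex.arg (𝓝 1) (𝓝 0) := by
    have := (Complex.continuousAt_arg (x := 1) Complex.one_mem_slitPlane).tendsto
    simpa using this
  have hball : ∀ᶠ x : ℂ in 𝓝 1, |Complex.arg x| ≤ δ := by
    have h1 := harg.eventually (Metric.closedBall_mem_nhds (0 : ℝ) hδ)
    filter_upwards [h1] with x hx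
    simpa [Real.dist_eq] using hx
  have hne : ∀ᶠ x : ℂ in 𝓝 1, x ≠ 0 := isOpen_ne.mem_nhds (by simp)
  have hlt : ∀ᶠ h : ℝ in 𝓝[>] 0, h < 1 :=
    (eventually_lt_nhds (by norm_num : (0 : ℝ) < 1)).filter_mono nhdsWithin_le_nhds
  have hpos : ∀ᶠ h : ℝ in 𝓝[>] 0, 0 < h := eventually_mem_nhdsWithin
  obtain ⟨h, h1, h2, h3, h4, h5, h6⟩ := (hpos.and (hlt.and ((hp.eventually hne).and
    ((hm.eventually hne).and ((hp.eventually hball).and (hm.eventually hball)))))).exists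
  exact ⟨h, h1, h2, h3, h4, h5, h6⟩

/-- from small distances to a Lipschitz bound on a set of positive measure -/
theorem lip_of_local {E : Type} [NormedAddCommGroup E] (f : ℂ → E) (Z Z' : Set ℂ)
    (hsub : Z' ⊆ Z) (hm : MeasurableSet Z') (h0 : volume (Z \ Z') = 0) (hpos : 0 < volume Z)
    (C' r : ℝ) (hr : 0 < r)
    (hlip : ∀ z ∈ Z', ∀ z' ∈ Z', dist z z' ≤ r → ‖f z - f z'‖ ≤ C' * dist z z') :
    ∃ W : Set ℂ, W ⊆ Z' ∧ MeasurableSet W ∧ 0 < volume W ∧ ∃ C : ℝ≥0, LipschitzOnWith C f W := by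
  have hpos' : volume Z' ≠ 0 := by
    intro hz
    have : volume Z ≤ volume (Z \ Z') + volume Z' := by
      calc volume Z ≤ volume ((Z \ Z') ∪ Z') := measure_mono (by intro x hx; by_cases h : x ∈ Z' <;> simp [h, hx])
        _ ≤ _ := measure_union_le _ _
    rw [h0, hz] at this
    simp at this
    exact hpos.ne' this
  obtain ⟨x, hx, hx2⟩ := exists_mem_forall_mem_nhdsWithin_pos_measure hpos'
  refine ⟨Z' ∩ ball x (r / 2), inter_subset_left, hm.inter measurableSet_ball, ?_, ?_⟩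
  · apply hx2
    exact inter_mem self_mem_nhdsWithin (mem_nhdsWithin_of_mem_nhds (ball_mem_nhds _ (by positivity)))
  · refine ⟨(max C' 0).toNNReal, ?_⟩
    apply LipschitzOnWith.of_dist_le_mul
    intro a ha b hb
    rw [dist_eq_norm]
    have hab : dist a b ≤ r := by
      have h1 : dist a x < r / 2 := ha.2
      have h2 : dist b x < r / 2 := hb.2
      have := dist_triangle_right a b x
      linarith
    calc ‖f a - f b‖ ≤ C' * dist a b := hlip a ha.1 b hb.1 hab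
      _ ≤ max C' 0 * dist a b := mul_le_mul_of_nonneg_right (le_max_left _ _) dist_nonneg
      _ = _ := by rw [Real.coe_toNNReal _ (le_max_right _ _)]

theorem normSq_ne_zero' {z : ℂ} (hz : z ≠ 0) : Complex.normSq z ≠ 0 := by
  rwa [ne_eq, Complex.normSq_eq_zero]

/-- the geometry of the quadrilateral with two diagonals -/
theorem quad_geo (α β lam lam' : ℂ) (hα : α ≠ 0) (hβ : β ≠ 0) (hαβ : (conj α * β).im ≠ 0)
    (hlam : lam ≠ 0) (hlam' : lam' ≠ 0) (hll : (conj lam * lam').im ≠ 0) (δ : ℝ) (hδ : 0 < δ) :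
    ∃ (h w₁ w₂ p q : ℝ), 0 < h ∧ 0 < p ∧ 0 < q ∧ |w₁| ≤ δ ∧ |w₂| ≤ δ ∧ ∀ θ : ℝ,
      ∃ E₁ E₂ : ℂ, E₁ = α * (Complex.I * p * cis (θ + w₁)) ∧
        E₂ = α * (Complex.I * q * cis (θ + w₂)) ∧
        E₁ + E₂ = α * (2 * Complex.I * cis θ) ∧ E₁ - E₂ = β * (2 * Complex.I * h * cis θ) ∧
        (conj E₁ * E₂).im ≠ 0 ∧
        ∃ C : ℝ, 0 < C ∧ ∀ (b d g : ℂ) (ε : ℝ), |(b / (lam * α * cis (θ + w₁))).im| ≤ ε →
          |((g - d) / (lam * α * cis (θ + w₁))).im| ≤ ε →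
          |(d / (lam * α * cis (θ + w₂))).im| ≤ ε →
          |((g - b) / (lam * α * cis (θ + w₂))).im| ≤ ε →
          |(g / (lam * α * cis θ)).im| ≤ ε →
          |((b - d) / (lam' * β * cis θ)).im| ≤ ε → ‖b‖ ≤ C * ε ∧ ‖d‖ ≤ C * ε := by
  obtain ⟨r, hβr⟩ : ∃ r : ℂ, β = α * r := ⟨β / α, by field_simp⟩
  obtain ⟨h, hh, hh1, hp0, hm0, hpδ, hmδ⟩ := exists_small_h r δ hδ
  obtain ⟨P, hP⟩ : ∃ P : ℂ, P = 1 + (h : ℂ) * r := ⟨_, rfl⟩
  obtain ⟨Q, hQ⟩ : ∃ Q : ℂ, Q = 1 - (h : ℂ) * r := ⟨_, rfl⟩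
  rw [← hP] at hp0 hpδ
  rw [← hQ] at hm0 hmδ
  have hrim : r.im ≠ 0 := by
    intro hr0
    apply hαβ
    rw [hβr, ← mul_assoc, mul_comm (conj α), Complex.mul_conj, Complex.im_ofReal_mul, hr0]
    simp
  have hPQ : (conj P * Q).im ≠ 0 := by
    have e : (conj P * Q).im = -2 * h * r.im := by
      rw [hP, hQ]
      simp [Complex.mul_im]
      ring
    rw [e]
    simp [hh.ne', hrim]
  obtain ⟨w₁, hw₁⟩ : ∃ w : ℝ, w = Complex.arg P := ⟨_, rfl⟩
  obtain ⟨w₂, hw₂⟩ : ∃ w : ℝ, w = Complex.arg Q := ⟨_, rfl⟩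
  rw [← hw₁] at hpδ
  rw [← hw₂] at hmδ
  obtain ⟨p, hp, hpP⟩ : ∃ p : ℝ, 0 < p ∧ (p : ℂ) * cis w₁ = P :=
    ⟨‖P‖, norm_pos_iff.mpr hp0, by rw [hw₁]; exact Complex.norm_mul_exp_arg_mul_I P⟩
  obtain ⟨q, hq, hqQ⟩ : ∃ q : ℝ, 0 < q ∧ (q : ℂ) * cis w₂ = Q :=
    ⟨‖Q‖, norm_pos_iff.mpr hm0, by rw [hw₂]; exact Complex.norm_mul_exp_arg_mul_I Q⟩
  refine ⟨h, w₁, w₂, p, q, hh, hp, hq, hpδ, hmδ, fun θ => ?_⟩
  have hcθ := cis_ne_zero' θ
  have hsum : (p : ℂ) * cis w₁ + q * cis w₂ = 2 := by rw [hpP, hqQ, hP, hQ]; ring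
  have hdiff : (p : ℂ) * cis w₁ - q * cis w₂ = 2 * h * r := by rw [hpP, hqQ, hP, hQ]; ring
  have hconj : ∀ u : ℂ, u ≠ 0 → (conj (u * cis (θ + w₁)) * (u * cis (θ + w₂))).im ≠ 0 := by
    intro u hu
    have e : ((p * q : ℝ) : ℂ) * (conj (u * cis (θ + w₁)) * (u * cis (θ + w₂))) =
        ((Complex.normSq (u * cis θ) : ℝ) : ℂ) * (conj P * Q) := by
      rw [← Complex.mul_conj, ← hpP, ← hqQ, cis_add', cis_add']
      simp only [map_mul, Complex.conj_ofReal]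
      push_cast
      ring
    intro h0
    have e2 := congrArg Complex.im e
    rw [Complex.im_ofReal_mul, Complex.im_ofReal_mul, h0, mul_zero] at e2
    rcases mul_eq_zero.mp e2.symm with h3 | h3
    · exact normSq_ne_zero' (mul_ne_zero hu hcθ) h3
    · exact hPQ h3
  refine ⟨α * (Complex.I * p * cis (θ + w₁)), α * (Complex.I * q * cis (θ + w₂)), rfl, rfl,
    ?_, ?_, ?_, ?_⟩
  · rw [cis_add', cis_add']
    linear_combination α * Complex.I * cis θ * hsum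
  · rw [cis_add', cis_add', hβr]
    linear_combination α * Complex.I * cis θ * hdiff
  · have e : conj (α * (Complex.I * p * cis (θ + w₁))) * (α * (Complex.I * q * cis (θ + w₂))) =
        ((p * q : ℝ) : ℂ) * (conj (α * Complex.I * cis (θ + w₁)) *
          (α * Complex.I * cis (θ + w₂))) := by
      simp only [map_mul, Complex.conj_ofReal]
      push_cast
      ring
    rw [e, Complex.im_ofReal_mul]
    exact mul_ne_zero (mul_pos hp hq).ne' (hconj _ (mul_ne_zero hα Complex.I_ne_zero))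
  · refine rigLin (lam * α * cis (θ + w₁)) (lam * α * cis (θ + w₂))
      (lam * α * cis θ) (lam' * β * cis θ)
      (mul_ne_zero (mul_ne_zero hlam hα) (cis_ne_zero' _))
      (mul_ne_zero (mul_ne_zero hlam hα) (cis_ne_zero' _))
      (mul_ne_zero (mul_ne_zero hlam hα) (cis_ne_zero' _))
      (mul_ne_zero (mul_ne_zero hlam' hβ) (cis_ne_zero' _))
      (hconj _ (mul_ne_zero hlam hα)) p q hp.ne' hq.ne' ⟨2, by norm_num, ?_⟩ ?_
    · rw [cis_add', cis_add']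
      push_cast
      linear_combination lam * α * cis θ * hsum
    · have e : ((p : ℂ) * (lam * α * cis (θ + w₁)) - q * (lam * α * cis (θ + w₂))) =
          ((2 * h : ℝ) : ℂ) * (lam * β * cis θ) := by
        rw [cis_add', cis_add', hβr]
        push_cast
        linear_combination lam * α * cis θ * hdiff
      rw [e]
      have e2 : conj (((2 * h : ℝ) : ℂ) * (lam * β * cis θ)) * (lam' * β * cis θ) =
          ((2 * h * Complex.normSq (β * cis θ) : ℝ) : ℂ) * (conj lam * lam') := by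
        rw [Complex.ofReal_mul (2 * h) (Complex.normSq (β * cis θ)), ← Complex.mul_conj]
        simp only [map_mul, Complex.conj_ofReal]
        ring
      rw [e2, Complex.im_ofReal_mul]
      apply mul_ne_zero _ hll
      exact mul_ne_zero (by positivity) (normSq_ne_zero' (mul_ne_zero hβ hcθ))

/-- the twelve incidences give the bounds -/
theorem quad_bound (α β lam lam' : ℂ) (hα : α ≠ 0) (hβ : β ≠ 0)
    (hlam : lam ≠ 0) (hlam' : lam' ≠ 0) (K K' K'' : ℂ → ℂ) (G : Set (ℂ × ℝ))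
    (t : ℂ × ℝ → ℝ) (T : ℝ) (hT : 0 ≤ T) (ht : ∀ p ∈ G, |t p| ≤ T)
    (h1 : ∀ p ∈ G, K' (p.1 + α * cis p.2) - K p.1 = t p * (lam * α * cis p.2))
    (h2 : ∀ p ∈ G, K'' (p.1 + β * cis p.2) - K p.1 = t p * (lam' * β * cis p.2))
    (h w₁ w₂ p q θ : ℝ) (hh : 0 < h) (hp : 0 < p) (hq : 0 < q) (E₁ E₂ : ℂ)
    (hE₁ : E₁ = α * (Complex.I * p * cis (θ + w₁)))
    (hE₂ : E₂ = α * (Complex.I * q * cis (θ + w₂)))
    (hsum : E₁ + E₂ = α * (2 * Complex.I * cis θ))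
    (hdiff : E₁ - E₂ = β * (2 * Complex.I * h * cis θ)) (C : ℝ)
    (hlin : ∀ (b d g : ℂ) (ε : ℝ), |(b / (lam * α * cis (θ + w₁))).im| ≤ ε →
          |((g - d) / (lam * α * cis (θ + w₁))).im| ≤ ε →
          |(d / (lam * α * cis (θ + w₂))).im| ≤ ε →
          |((g - b) / (lam * α * cis (θ + w₂))).im| ≤ ε →
          |(g / (lam * α * cis θ)).im| ≤ ε →
          |((b - d) / (lam' * β * cis θ)).im| ≤ ε → ‖b‖ ≤ C * ε ∧ ‖d‖ ≤ C * ε)
    (s q₀ : ℝ) (hs : 0 < s) (hq₀ : q₀ = p + q + h + 1) (hsq : s * (4 * q₀) ≤ 1)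
    (x : ℂ) (c : ℝ) (hc : c ∈ Icc s (2 * s))
    (m : ∀ i : Fin 12, (x + (c : ℂ) * ((![0, E₁, E₂, E₁ + E₂, 0, E₂, E₁, E₁ + E₂, 0, E₁ + E₂,
      E₂, E₁] : Fin 12 → ℂ) i), (![θ + w₁, θ + w₁, θ + w₁, θ + w₁, θ + w₂, θ + w₂, θ + w₂,
      θ + w₂, θ, θ, θ, θ] : Fin 12 → ℝ) i + (![1, -1, 1, -1, 1, -1, 1, -1, 1, -1, 1, -1] :
      Fin 12 → ℝ) i * Real.arcsin ((![p / 2, p / 2, p / 2, p / 2, q / 2, q / 2, q / 2, q / 2,
      1, 1, h, h] : Fin 12 → ℝ) i * c)) ∈ G) :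
    ‖K (x + c * E₁) - K x‖ ≤ C * (4 * T * q₀) * s ∧
      ‖K (x + c * E₂) - K x‖ ≤ C * (4 * T * q₀) * s := by
  have m0 : (x + (c : ℂ) * 0, θ + w₁ + 1 * Real.arcsin (p / 2 * c)) ∈ G := m 0
  have m1 : (x + (c : ℂ) * E₁, θ + w₁ + -1 * Real.arcsin (p / 2 * c)) ∈ G := m 1
  have m2 : (x + (c : ℂ) * E₂, θ + w₁ + 1 * Real.arcsin (p / 2 * c)) ∈ G := m 2
  have m3 : (x + (c : ℂ) * (E₁ + E₂), θ + w₁ + -1 * Real.arcsin (p / 2 * c)) ∈ G := m 3
  have m4 : (x + (c : ℂ) * 0, θ + w₂ + 1 * Real.arcsin (q / 2 * c)) ∈ G := m 4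
  have m5 : (x + (c : ℂ) * E₂, θ + w₂ + -1 * Real.arcsin (q / 2 * c)) ∈ G := m 5
  have m6 : (x + (c : ℂ) * E₁, θ + w₂ + 1 * Real.arcsin (q / 2 * c)) ∈ G := m 6
  have m7 : (x + (c : ℂ) * (E₁ + E₂), θ + w₂ + -1 * Real.arcsin (q / 2 * c)) ∈ G := m 7
  have m8 : (x + (c : ℂ) * 0, θ + 1 * Real.arcsin (1 * c)) ∈ G := m 8
  have m9 : (x + (c : ℂ) * (E₁ + E₂), θ + -1 * Real.arcsin (1 * c)) ∈ G := m 9
  have m10 : (x + (c : ℂ) * E₂, θ + 1 * Real.arcsin (h * c)) ∈ G := m 10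
  have m11 : (x + (c : ℂ) * E₁, θ + -1 * Real.arcsin (h * c)) ∈ G := m 11
  rw [one_mul] at m0 m2 m4 m6 m8 m10
  rw [neg_one_mul, ← sub_eq_add_neg] at m1 m3 m5 m7 m9 m11
  rw [mul_zero, add_zero] at m0 m4 m8
  have hc0 : 0 < c := hs.trans_le hc.1
  have hq₀pos : 0 < q₀ := by rw [hq₀]; positivity
  -- sines
  have hsin : ∀ u : ℝ, 0 < u → u ≤ q₀ → Real.sin (Real.arcsin (u * c)) = u * c ∧
      2 * T * |Real.sin (Real.arcsin (u * c))| ≤ 4 * T * q₀ * s := by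
    intro u hu hu'
    have h3 : u * c ≤ q₀ * (2 * s) := mul_le_mul hu' hc.2 hc0.le hq₀pos.le
    have h4 : 0 < u * c := mul_pos hu hc0
    have h5 : Real.sin (Real.arcsin (u * c)) = u * c :=
      Real.sin_arcsin (by linarith) (by nlinarith)
    refine ⟨h5, ?_⟩
    rw [h5, abs_of_pos h4]
    calc 2 * T * (u * c) ≤ 2 * T * (q₀ * (2 * s)) := by gcongr
      _ = 4 * T * q₀ * s := by ring
  obtain ⟨sp, bp⟩ := hsin (p / 2) (by positivity) (by rw [hq₀]; linarith)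
  obtain ⟨sq, bq⟩ := hsin (q / 2) (by positivity) (by rw [hq₀]; linarith)
  obtain ⟨s1, b1⟩ := hsin 1 (by norm_num) (by rw [hq₀]; linarith)
  obtain ⟨sh, bh⟩ := hsin h hh (by rw [hq₀]; linarith)
  have key := hlin (K (x + c * E₁) - K x) (K (x + c * E₂) - K x) (K (x + c * (E₁ + E₂)) - K x)
    (4 * T * q₀ * s) ?_ ?_ ?_ ?_ ?_ ?_
  · constructor
    · calc _ ≤ _ := key.1
        _ = _ := by ring
    · calc _ ≤ _ := key.2
        _ = _ := by ring
  · refine (common_nbr K K' α lam hα hlam t G T ht h1 _ _ _ _ m0 m1 ?_).trans bp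
    rw [sp, hE₁]; push_cast; ring
  · rw [sub_sub_sub_cancel_right]
    refine (common_nbr K K' α lam hα hlam t G T ht h1 _ _ _ _ m2 m3 ?_).trans bp
    rw [sp, hE₁]; push_cast; ring
  · refine (common_nbr K K' α lam hα hlam t G T ht h1 _ _ _ _ m4 m5 ?_).trans bq
    rw [sq, hE₂]; push_cast; ring
  · rw [sub_sub_sub_cancel_right]
    refine (common_nbr K K' α lam hα hlam t G T ht h1 _ _ _ _ m6 m7 ?_).trans bq
    rw [sq, hE₂]; push_cast; ring
  · refine (common_nbr K K' α lam hα hlam t G T ht h1 _ _ _ _ m8 m9 ?_).trans b1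
    rw [s1, hsum]; push_cast; ring
  · rw [sub_sub_sub_cancel_right]
    refine (common_nbr K K'' β lam' hβ hlam' t G T ht h2 _ _ _ _ m10 m11 ?_).trans bh
    · have e : x + (c : ℂ) * E₁ - (x + (c : ℂ) * E₂) = c * (E₁ - E₂) := by ring
      rw [sh, e, hdiff]; push_cast; ring

end Aux58

open Aux58

/-- L3 (Level 1). -/
theorem rigL3 (α β lam lam' : ℂ) (hα : α ≠ 0) (hβ : β ≠ 0) (hαβ : (conj α * β).im ≠ 0)
    (hlam : lam ≠ 0) (hlam' : lam' ≠ 0) (hll : (conj lam * lam').im ≠ 0)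
    (K K' K'' : ℂ → ℂ) (mK : Measurable K) (mK' : Measurable K') (mK'' : Measurable K'')
    (b : ℝ) (bK : ∀ z, ‖K z‖ ≤ b) (G : Set (ℂ × ℝ)) (hG : MeasurableSet G)
    (hpos : 0 < volume G) (t : ℂ × ℝ → ℝ) (T : ℝ) (ht : ∀ p ∈ G, |t p| ≤ T)
    (h1 : ∀ p ∈ G, K' (p.1 + α * cis p.2) - K p.1 = t p * (lam * α * cis p.2))
    (h2 : ∀ p ∈ G, K'' (p.1 + β * cis p.2) - K p.1 = t p * (lam' * β * cis p.2)) :
    ∃ Z : Set ℂ, MeasurableSet Z ∧ 0 < volume Z ∧ (∃ C : ℝ≥0, LipschitzOnWith C K Z) ∧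
      ∀ z ∈ Z, 0 < volume {θ : ℝ | (z, θ) ∈ G} := by
  have hT : 0 ≤ T := by
    obtain ⟨p, hp⟩ := nonempty_of_measure_ne_zero hpos.ne'
    exact (abs_nonneg _).trans (ht p hp)
  obtain ⟨δ, hδ, hL2⟩ := rigL2 G hG hpos
  obtain ⟨δ, hδ, hL2⟩ := rigL2 G hG hpos
  obtain ⟨h, w₁, w₂, p, q, hh, hp, hq, hpδ, hmδ, hgeo⟩ :=
    quad_geo α β lam lam' hα hβ hαβ hlam hlam' hll δ hδ
  obtain ⟨θ, hL2⟩ := hL2 ![0, w₁, w₂] (by
    intro k
    fin_cases k
    · simpa using hδ.le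
    · exact hpδ
    · exact hmδ)
  obtain ⟨E₁, E₂, hE₁, hE₂, hsum, hdiff, hE, CL, hCL, hlin⟩ := hgeo θ
  obtain ⟨κ, M, hκ, hM, hL1⟩ := rigL1 ℂ E₁ E₂ hE
  obtain ⟨q₀, hq₀⟩ : ∃ q₀ : ℝ, q₀ = p + q + h + 1 := ⟨_, rfl⟩
  have hq₀pos : 0 < q₀ := by rw [hq₀]; positivity
  obtain ⟨S₀, hS₀⟩ : ∃ S₀ : ℝ, S₀ = ‖E₁‖ + ‖E₂‖ := ⟨_, rfl⟩
  have hS₀n : 0 ≤ S₀ := by rw [hS₀]; positivity
  obtain ⟨c₀, hc₀, hcp, hcq, hc1, hch⟩ : ∃ c₀ : ℝ, 0 < c₀ ∧ c₀ ≤ p / 2 ∧ c₀ ≤ q / 2 ∧ c₀ ≤ 1 ∧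
      c₀ ≤ h := by
    refine ⟨min (min (p / 2) (q / 2)) (min 1 h), by positivity, ?_, ?_, ?_, ?_⟩
    · exact (min_le_left _ _).trans (min_le_left _ _)
    · exact (min_le_left _ _).trans (min_le_right _ _)
    · exact (min_le_right _ _).trans (min_le_left _ _)
    · exact (min_le_right _ _).trans (min_le_right _ _)
  have hM0 : 0 ≤ M := by linarith
  obtain ⟨B, hB⟩ : ∃ B : ℝ, B = M + 2 * S₀ + 4 * q₀ := ⟨_, rfl⟩
  have hBpos : 0 < B := by rw [hB]; positivity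
  obtain ⟨η, hη⟩ : ∃ η : ℝ, η = κ * c₀ / (12 * B ^ 3) := ⟨_, rfl⟩
  have hηpos : 0 < η := by rw [hη]; positivity
  obtain ⟨Z, mZ, hZpos, hZsl, s₁, hs₁, hZ⟩ := hL2 η hηpos
  have hZ0 : ∀ z ∈ Z, ∀ r : ℝ, 0 < r → r ≤ s₁ →
      volume ((closedBall z r ×ˢ Icc (θ - r) (θ + r)) \ G) ≤ ENNReal.ofReal (η * r ^ 3) := by
    intro z hz r hr hr'
    have := hZ z hz r hr hr' 0
    simpa using this
  have hZ1 : ∀ z ∈ Z, ∀ r : ℝ, 0 < r → r ≤ s₁ →
      volume ((closedBall z r ×ˢ Icc (θ + w₁ - r) (θ + w₁ + r)) \ G) ≤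
        ENNReal.ofReal (η * r ^ 3) := fun z hz r hr hr' => hZ z hz r hr hr' 1
  have hZ2 : ∀ z ∈ Z, ∀ r : ℝ, 0 < r → r ≤ s₁ →
      volume ((closedBall z r ×ˢ Icc (θ + w₂ - r) (θ + w₂ + r)) \ G) ≤
        ENNReal.ofReal (η * r ^ 3) := fun z hz r hr hr' => hZ z hz r hr hr' 2
  let sh : Fin 12 → ℂ := ![0, E₁, E₂, E₁ + E₂, 0, E₂, E₁, E₁ + E₂, 0, E₁ + E₂, E₂, E₁]
  let ang : Fin 12 → ℝ := ![θ + w₁, θ + w₁, θ + w₁, θ + w₁, θ + w₂, θ + w₂, θ + w₂,
      θ + w₂, θ, θ, θ, θ]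
  let sg : Fin 12 → ℝ := ![1, -1, 1, -1, 1, -1, 1, -1, 1, -1, 1, -1]
  let qq : Fin 12 → ℝ := ![p / 2, p / 2, p / 2, p / 2, q / 2, q / 2, q / 2, q / 2, 1, 1, h, h]
  have nE₁ : ‖E₁‖ ≤ S₀ := by rw [hS₀]; linarith [norm_nonneg E₂]
  have nE₂ : ‖E₂‖ ≤ S₀ := by rw [hS₀]; linarith [norm_nonneg E₁]
  have nE₃ : ‖E₁ + E₂‖ ≤ S₀ := by rw [hS₀]; exact norm_add_le _ _
  have n0 : ‖(0 : ℂ)‖ ≤ S₀ := by simpa using hS₀n
  have hsh : ∀ i, ‖sh i‖ ≤ S₀ := by
    intro i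
    fin_cases i <;> first | exact n0 | exact nE₁ | exact nE₂ | exact nE₃
  have hsg : ∀ i, sg i = 1 ∨ sg i = -1 := by
    intro i
    fin_cases i <;> first | exact Or.inl rfl | exact Or.inr rfl
  have hqq : ∀ i, c₀ ≤ qq i := by
    intro i
    fin_cases i <;> first | exact hcp | exact hcq | exact hc1 | exact hch
  have lp : p / 2 ≤ q₀ := by rw [hq₀]; linarith
  have lq : q / 2 ≤ q₀ := by rw [hq₀]; linarith
  have l1 : (1 : ℝ) ≤ q₀ := by rw [hq₀]; linarith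
  have lh : h ≤ q₀ := by rw [hq₀]; linarith
  have hqq' : ∀ i, qq i ≤ q₀ := by
    intro i
    fin_cases i <;> first | exact lp | exact lq | exact l1 | exact lh
  have hang : ∀ i, ∀ z ∈ Z, ∀ r : ℝ, 0 < r → r ≤ s₁ →
      volume ((closedBall z r ×ˢ Icc (ang i - r) (ang i + r)) \ G) ≤
        ENNReal.ofReal (η * r ^ 3) := by
    intro i
    fin_cases i <;> first | exact hZ0 | exact hZ1 | exact hZ2
  have hmain : ∀ z ∈ Z, ∀ s : ℝ, 0 < s → s ≤ min (s₁ / B) (1 / (4 * q₀)) → ∀ W : Set (ℂ × ℝ),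
      (∀ x : ℂ, ∀ c : ℝ, (x, c) ∈ W → x ∈ closedBall z (M * s) ∧ c ∈ Icc s (2 * s) ∧
        (CL * (4 * T * q₀) * s < ‖K (x + c * E₁) - K x‖ ∨
          CL * (4 * T * q₀) * s < ‖K (x + c * E₂) - K x‖)) →
      volume W ≤ ENNReal.ofReal (κ * s ^ 3) := by
    intro z hz s hs hss W hW
    have hs1 : s * B ≤ s₁ := by
      have := hss.trans (min_le_left _ _)
      rwa [le_div_iff₀ hBpos] at this
    have hs2 : s * (4 * q₀) ≤ 1 := by
      have := hss.trans (min_le_right _ _)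
      rwa [le_div_iff₀ (by positivity)] at this
    have hcov : W ⊆ ⋃ i : Fin 12, {pt : ℂ × ℝ | pt.1 ∈ closedBall z (M * s) ∧
        pt.2 ∈ Icc s (2 * s) ∧ (pt.1 + (pt.2 : ℂ) * sh i,
          ang i + sg i * Real.arcsin (qq i * pt.2)) ∉ G} := by
      rintro ⟨x, c⟩ hxc
      obtain ⟨a1, a2, a3⟩ := hW x c hxc
      by_contra hcon
      have hall : ∀ i : Fin 12, (x + (c : ℂ) * sh i,
          ang i + sg i * Real.arcsin (qq i * c)) ∈ G := by
        intro i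
        by_contra hi
        exact hcon (mem_iUnion.mpr ⟨i, a1, a2, hi⟩)
      have := quad_bound α β lam lam' hα hβ hlam hlam' K K' K'' G t T hT ht h1 h2 h w₁ w₂ p q θ
        hh hp hq E₁ E₂ hE₁ hE₂ hsum hdiff CL hlin s q₀ hs hq₀ hs2 x c a2 hall
      rcases a3 with a3 | a3
      · exact absurd this.1 (not_le.mpr a3)
      · exact absurd this.2 (not_le.mpr a3)
    have hone : ∀ i : Fin 12, volume {pt : ℂ × ℝ | pt.1 ∈ closedBall z (M * s) ∧
        pt.2 ∈ Icc s (2 * s) ∧ (pt.1 + (pt.2 : ℂ) * sh i,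
          ang i + sg i * Real.arcsin (qq i * pt.2)) ∉ G} ≤ ENNReal.ofReal (κ / 12 * s ^ 3) := by
      intro i
      refine (incid_meas G hG z (ang i) η s₁ hηpos.le (hang i z hz) M S₀ q₀ c₀ hM0 hS₀n hc₀
        (sh i) (hsh i) (qq i) (hqq i) (hqq' i) (sg i) (hsg i) s hs (by rw [← hB]; exact hs1)
        hs2).trans (le_of_eq ?_)
      congr 1
      rw [← hB, hη]
      field_simp
    calc volume W ≤ ∑ i : Fin 12, volume {pt : ℂ × ℝ | pt.1 ∈ closedBall z (M * s) ∧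
          pt.2 ∈ Icc s (2 * s) ∧ (pt.1 + (pt.2 : ℂ) * sh i,
            ang i + sg i * Real.arcsin (qq i * pt.2)) ∉ G} :=
          (measure_mono hcov).trans (measure_iUnion_fintype_le _ _)
      _ ≤ ∑ _i : Fin 12, ENNReal.ofReal (κ / 12 * s ^ 3) := Finset.sum_le_sum fun i _ => hone i
      _ = ENNReal.ofReal (κ * s ^ 3) := by
          rw [Finset.sum_const, Finset.card_univ, Fintype.card_fin, nsmul_eq_mul,
            ← ENNReal.ofReal_natCast, ← ENNReal.ofReal_mul (by positivity)]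
          congr 1
          push_cast
          ring
  obtain ⟨Z', hsub, mZ', h0, C', r, hr, hlip⟩ := hL1 K mK ⟨b, bK⟩ Z mZ
    (min (s₁ / B) (1 / (4 * q₀))) (CL * (4 * T * q₀)) (by positivity) (by positivity) (by
      intro z hz s hs hss
      constructor
      · exact hmain z hz s hs hss _ (fun x c hxc => ⟨hxc.1, hxc.2.1, Or.inl hxc.2.2⟩)
      · exact hmain z hz s hs hss _ (fun x c hxc => ⟨hxc.1, hxc.2.1, Or.inr hxc.2.2⟩))
  obtain ⟨W, hW, mW, hWpos, C, hC⟩ := lip_of_local K Z Z' hsub mZ' h0 hZpos C' r hr hlip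
  exact ⟨W, mW, hWpos, ⟨C, hC⟩, fun z hz => hZsl z (hsub (hW hz))⟩

end Pool.Agent.H24.Tri
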