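import Pool.Agent.H24.Tri.DefsLoc
import Pool.Agent.H24.Tri.ToolA
import Pool.Agent.H24.Tri.ToolB

set_option autoImplicit false

open MeasureTheory Set Complex Metric Filter Topology
open scoped Real ENNReal NNReal FourierTransform ComplexConjugate

namespace Pool.Agent.H24.Tri.Aux58

/-- `ex t = e^{2πit}` -/
noncomputable def ex (t : ℝ) : ℂ := Complex.exp (((2 * π * t : ℝ) : ℂ) * Complex.I)

theorem ex_add (a b : ℝ) : ex (a + b) = ex a * ex b := by
  simp only [ex]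
  rw [← Complex.exp_add]
  congr 1
  push_cast
  ring

theorem norm_ex (a : ℝ) : ‖ex a‖ = 1 := by
  simp only [ex]
  exact Complex.norm_exp_ofReal_mul_I _

theorem ex_zero : ex 0 = 1 := by simp [ex]

theorem continuous_ex : Continuous ex := by
  unfold ex
  fun_prop

theorem ex_sub_le (a b : ℝ) : ‖ex a - ex b‖ ≤ 2 * π * |a - b| := by
  have h1 : ex a = ex (a - b) * ex b := by rw [← ex_add]; congr 1; ring
  have h2 : ex a - ex b = (ex (a - b) - 1) * ex b := by rw [h1]; ring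
  rw [h2, norm_mul, norm_ex, mul_one]
  simp only [ex]
  have h3 := Real.norm_exp_I_mul_ofReal_sub_one_le (x := 2 * π * (a - b))
  rw [mul_comm Complex.I] at h3
  refine h3.trans (le_of_eq ?_)
  rw [Real.norm_eq_abs, abs_mul, abs_of_pos (by positivity)]

theorem real_integral_scale (s : ℝ) (hs : 0 < s) (G : ℂ → ℝ) :
    ∫ y : ℂ, s ^ 2 * G ((s : ℂ) * y) = ∫ y, G y := by
  have h2 := Measure.integral_comp_smul (volume : Measure ℂ) G s
  rw [Complex.finrank_real_complex, smul_eq_mul, abs_of_nonneg (by positivity)] at h2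
  have h3 : ∀ y : ℂ, G ((s : ℂ) * y) = G (s • y) := by
    intro y; rw [Complex.real_smul]
  simp only [h3]
  rw [integral_const_mul, h2, ← mul_assoc, mul_inv_cancel₀ (by positivity), one_mul]

theorem nice_theta : Nice (fun ξ : ℂ => (theta ξ : ℂ)) where
  smooth := Complex.ofRealCLM.contDiff.comp theta_smooth
  compact := theta_compact.comp_left (g := fun x : ℝ => (x : ℂ)) (by simp)

theorem pm_eq (K R : ℝ) (hK : 0 < K) (hR : 0 < R) (a : ℂ → ℂ) (ha : Nice a) (m : ℤ × ℤ) (x : ℂ) :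
    pm K R a m x = ∫ y, (ex ((R / K) * (conj (gi m) * (x - y)).re) *
      (((R / K) ^ 2 : ℝ) : ℂ) * 𝓕⁻ (fun ξ : ℂ => (theta ξ : ℂ)) (((R / K : ℝ) : ℂ) * (x - y))) *
        𝓕⁻ a y := by
  have hs : 0 < R / K := by positivity
  have hc : ((R / K : ℝ) : ℂ) ≠ 0 := by exact_mod_cast hs.ne'
  have hnice : Nice (fun ξ : ℂ => ((theta (ξ / ((R / K : ℝ) : ℂ) - gi m) : ℝ) : ℂ)) := by
    constructor
    · have := sym_smooth 1 (R / K) m
      have h2 := Complex.ofRealCLM.contDiff.comp this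
      convert h2 using 1
      ext ξ
      simp [sym]
    · have h1 : HasCompactSupport (fun ξ : ℂ => ((theta ξ : ℝ) : ℂ)) := nice_theta.compact
      have h2 : (fun ξ : ℂ => ((theta (ξ / ((R / K : ℝ) : ℂ) - gi m) : ℝ) : ℂ)) =
          (fun ξ : ℂ => ((theta ξ : ℝ) : ℂ)) ∘
            ((Homeomorph.mulRight₀ (((R / K : ℝ) : ℂ)⁻¹) (inv_ne_zero hc)).trans
              (Homeomorph.subRight (gi m))) := by
        ext ξ
        simp [div_eq_mul_inv]
      rw [h2]
      exact h1.comp_homeomorph _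
  have h1 : pm K R a m x = 𝓕⁻ (fun ξ => ((theta (ξ / ((R / K : ℝ) : ℂ) - gi m) : ℝ) : ℂ) * a ξ) x := by
    have h0 : piece 1 (R / K) m a =
        fun ξ => ((theta (ξ / ((R / K : ℝ) : ℂ) - gi m) : ℝ) : ℂ) * a ξ := by
      funext ξ
      simp [piece, sym]
    rw [pm, h0]
  rw [h1, mult_conv _ a hnice ha x]
  rw [← integral_sub_left_eq_self (μ := volume) (fun y : ℂ =>
    𝓕⁻ (fun ξ => ((theta (ξ / ((R / K : ℝ) : ℂ) - gi m) : ℝ) : ℂ)) y * 𝓕⁻ a (x - y)) x]
  congr 1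
  ext y
  have hk := kernel_scaled (fun ξ : ℂ => (theta ξ : ℂ)) nice_theta ((R / K : ℝ) : ℂ) hc (gi m)
    (x - y)
  rw [hk, sub_sub_cancel]
  have e1 : (conj (((R / K : ℝ) : ℂ) * gi m) * (x - y)).re =
      R / K * (conj (gi m) * (x - y)).re := by
    rw [map_mul, Complex.conj_ofReal, mul_assoc, Complex.re_ofReal_mul]
  rw [Complex.norm_real, Real.norm_of_nonneg hs.le, Complex.conj_ofReal, e1]
  rfl

/-- bounds for the frequency pieces -/
theorem pm_facts : ∃ C : ℝ, 1 ≤ C ∧ ∀ K R : ℝ, 0 < K → 0 < R → ∀ a : ℂ → ℂ, Nice a →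
    (∀ z, ‖𝓕⁻ a z‖ ≤ 1) → ∀ m : ℤ × ℤ, Continuous (pm K R a m) ∧
      (∀ x, ‖pm K R a m x‖ ≤ C) ∧
      ∀ x δ, ‖pm K R a m (x + δ) - ex ((R / K) * (conj (gi m) * δ).re) * pm K R a m x‖ ≤
        C * (R / K) * ‖δ‖ := by
  obtain ⟨C, hC, hC1, -, -, hC2⟩ := kernel_bounds _ nice_theta
  set k : ℂ → ℂ := 𝓕⁻ (fun ξ : ℂ => (theta ξ : ℂ)) with hk
  have kint : Integrable k := (nice_integrable _ nice_theta).2
  have kcont : Continuous k := nice_continuous _ nice_theta
  refine ⟨C + 1, by linarith, ?_⟩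
  intro K R hK hR a ha hb m
  have hs : 0 < R / K := by positivity
  obtain ⟨s, hsdef⟩ : ∃ s : ℝ, s = R / K := ⟨_, rfl⟩
  rw [← hsdef] at hs
  have fcont : Continuous (𝓕⁻ a) := nice_continuous a ha
  have kscale : ∀ x : ℂ, Integrable (fun y : ℂ => s ^ 2 * ‖k ((s : ℂ) * (x - y))‖) := by
    intro x
    have h1 : Integrable (fun y : ℂ => ‖k (s • y)‖) := (kint.comp_smul hs.ne').norm
    have h2 : Integrable (fun y : ℂ => ‖k (s • (x - y))‖) := h1.comp_sub_left x
    have h3 := h2.const_mul (s ^ 2)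
    simpa [Complex.real_smul] using h3
  have kscaleval : ∀ x : ℂ, ∫ y : ℂ, s ^ 2 * ‖k ((s : ℂ) * (x - y))‖ = ∫ y, ‖k y‖ := by
    intro x
    rw [integral_sub_left_eq_self (μ := volume) (fun y : ℂ => s ^ 2 * ‖k ((s : ℂ) * y)‖) x]
    exact real_integral_scale s hs (fun y => ‖k y‖)
  have kmeas : ∀ x : ℂ, AEStronglyMeasurable (fun y : ℂ => (ex (s * (conj (gi m) * (x - y)).re) *
      ((s ^ 2 : ℝ) : ℂ) * k ((s : ℂ) * (x - y))) * 𝓕⁻ a y) volume := by
    intro x
    apply Continuous.aestronglyMeasurable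
    have := continuous_ex
    fun_prop
  have knorm : ∀ x y : ℂ, ‖(ex (s * (conj (gi m) * (x - y)).re) *
      ((s ^ 2 : ℝ) : ℂ) * k ((s : ℂ) * (x - y))) * 𝓕⁻ a y‖ ≤ s ^ 2 * ‖k ((s : ℂ) * (x - y))‖ := by
    intro x y
    rw [norm_mul, norm_mul, norm_mul, norm_ex, Complex.norm_real,
      Real.norm_of_nonneg (by positivity), one_mul]
    exact mul_le_of_le_one_right (by positivity) (hb y)
  have kint2 : ∀ x : ℂ, Integrable (fun y : ℂ => (ex (s * (conj (gi m) * (x - y)).re) *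
      ((s ^ 2 : ℝ) : ℂ) * k ((s : ℂ) * (x - y))) * 𝓕⁻ a y) := fun x =>
    (kscale x).mono' (kmeas x) (Eventually.of_forall (knorm x))
  refine ⟨nice_continuous _ (nice_piece _ _ _ _ ha), ?_, ?_⟩
  · intro x
    rw [pm_eq K R hK hR a ha m x, ← hsdef]
    calc _ ≤ ∫ y, s ^ 2 * ‖k ((s : ℂ) * (x - y))‖ :=
          norm_integral_le_of_norm_le (kscale x) (Eventually.of_forall (knorm x))
      _ = ∫ y, ‖k y‖ := kscaleval x
      _ ≤ C + 1 := by linarith
  · intro x δ
    rw [pm_eq K R hK hR a ha m x, pm_eq K R hK hR a ha m (x + δ), ← hsdef, ← integral_const_mul,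
      ← integral_sub (kint2 (x + δ)) ((kint2 x).const_mul _)]
    have hbd : ∀ y : ℂ, ‖ex (s * (conj (gi m) * (x + δ - y)).re) * ((s ^ 2 : ℝ) : ℂ) *
        k ((s : ℂ) * (x + δ - y)) * 𝓕⁻ a y - ex (s * (conj (gi m) * δ).re) *
          (ex (s * (conj (gi m) * (x - y)).re) * ((s ^ 2 : ℝ) : ℂ) *
        k ((s : ℂ) * (x - y)) * 𝓕⁻ a y)‖ ≤
        s ^ 2 * ‖k ((s : ℂ) * (x - y) + s * δ) - k ((s : ℂ) * (x - y))‖ := by
      intro y
      have e1 : ex (s * (conj (gi m) * (x + δ - y)).re) =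
          ex (s * (conj (gi m) * δ).re) * ex (s * (conj (gi m) * (x - y)).re) := by
        rw [← ex_add]
        congr 1
        rw [← mul_add, ← Complex.add_re]
        congr 2
        ring
      have e2 : (s : ℂ) * (x + δ - y) = (s : ℂ) * (x - y) + s * δ := by ring
      rw [e1, e2]
      have e3 : ex (s * (conj (gi m) * δ).re) * ex (s * (conj (gi m) * (x - y)).re) *
          ((s ^ 2 : ℝ) : ℂ) * k ((s : ℂ) * (x - y) + s * δ) * 𝓕⁻ a y -
          ex (s * (conj (gi m) * δ).re) * (ex (s * (conj (gi m) * (x - y)).re) *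
            ((s ^ 2 : ℝ) : ℂ) * k ((s : ℂ) * (x - y)) * 𝓕⁻ a y) =
          ex (s * (conj (gi m) * δ).re) * ex (s * (conj (gi m) * (x - y)).re) *
            ((s ^ 2 : ℝ) : ℂ) * (k ((s : ℂ) * (x - y) + s * δ) - k ((s : ℂ) * (x - y))) *
              𝓕⁻ a y := by ring
      rw [e3, norm_mul, norm_mul, norm_mul, norm_mul, norm_ex, norm_ex, Complex.norm_real,
        Real.norm_of_nonneg (by positivity), one_mul, one_mul]
      exact mul_le_of_le_one_right (by positivity) (hb y)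
    have hi : Integrable (fun y : ℂ => s ^ 2 *
        ‖k ((s : ℂ) * (x - y) + s * δ) - k ((s : ℂ) * (x - y))‖) := by
      have h0 : Integrable (fun y : ℂ => k (y + s * δ) - k y) :=
        (kint.comp_add_right (s * δ)).sub kint
      have h1 : Integrable (fun y : ℂ => ‖k (s • y + s * δ) - k (s • y)‖) :=
        (h0.comp_smul hs.ne').norm
      have h2 := (h1.comp_sub_left x).const_mul (s ^ 2)
      simpa [Complex.real_smul] using h2
    calc _ ≤ ∫ y : ℂ, s ^ 2 * ‖k ((s : ℂ) * (x - y) + s * δ) - k ((s : ℂ) * (x - y))‖ :=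
          norm_integral_le_of_norm_le hi (Eventually.of_forall hbd)
      _ = ∫ y : ℂ, s ^ 2 * ‖k ((s : ℂ) * y + s * δ) - k ((s : ℂ) * y)‖ :=
          integral_sub_left_eq_self (μ := volume) (fun y : ℂ =>
            s ^ 2 * ‖k ((s : ℂ) * y + s * δ) - k ((s : ℂ) * y)‖) x
      _ = ∫ y : ℂ, ‖k (y + s * δ) - k y‖ :=
          real_integral_scale s hs (fun y => ‖k (y + s * δ) - k y‖)
      _ ≤ C * ‖(s : ℂ) * δ‖ := hC2 _
      _ ≤ (C + 1) * s * ‖δ‖ := by
          rw [norm_mul, Complex.norm_real, Real.norm_of_nonneg hs.le, ← mul_assoc]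
          gcongr
          linarith

end Pool.Agent.H24.Tri.Aux58
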