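import Pool.Agent.H58.Tri.ExA

set_option autoImplicit false

open MeasureTheory Set Complex Metric Filter Topology
open scoped Real ENNReal NNReal FourierTransform ComplexConjugate

namespace Pool.Agent.H24.Tri.Aux58

/-- `L¹` modulus of continuity of `psr r ^ 2` -/
theorem psr_sq_modulus : ∃ C : ℝ, 1 ≤ C ∧ ∀ r : ℝ, 0 < r → ∀ δ : ℂ,
    ∫ y, |psr r (y + δ) ^ 2 - psr r y ^ 2| ≤ C * (‖δ‖ / r) := by
  have hsm : ContDiff ℝ ((⊤ : ℕ∞) : WithTop ℕ∞) (fun x : ℂ => psi x ^ 2) := psi_smooth.pow 2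
  have hcs : HasCompactSupport (fun x : ℂ => psi x ^ 2) := by
    have := psi_compact.comp_left (g := fun t : ℝ => t ^ 2) (by norm_num)
    exact this
  obtain ⟨L, hL⟩ := hsm.lipschitzWith_of_hasCompactSupport hcs (by simp)
  refine ⟨2 * π * L + 1, by have := L.2; have := Real.pi_pos; nlinarith [mul_nonneg this.le L.2], ?_⟩
  intro r hr δ
  have hbd : ∀ y : ℂ, |psr r (y + δ) ^ 2 - psr r y ^ 2| ≤
      (closedBall (0 : ℂ) r).indicator (fun _ => L * ‖δ‖ / r ^ 3) y +
        (closedBall (-δ) r).indicator (fun _ => L * ‖δ‖ / r ^ 3) y := by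
    intro y
    have hnn : 0 ≤ (L : ℝ) * ‖δ‖ / r ^ 3 := by positivity
    have h1 : |psr r (y + δ) ^ 2 - psr r y ^ 2| ≤ L * ‖δ‖ / r ^ 3 := by
      have := hL.dist_le_mul ((y + δ) / (r : ℂ)) (y / (r : ℂ))
      rw [Real.dist_eq, dist_eq_norm, ← sub_div, norm_div, Complex.norm_real,
        Real.norm_of_nonneg hr.le, add_sub_cancel_left] at this
      simp only [psr]
      rw [mul_pow, mul_pow, ← mul_sub, abs_mul, abs_of_nonneg (by positivity)]
      calc r⁻¹ ^ 2 * |psi ((y + δ) / r) ^ 2 - psi (y / r) ^ 2| ≤ r⁻¹ ^ 2 * (L * (‖δ‖ / r)) := by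
            gcongr
        _ = L * ‖δ‖ / r ^ 3 := by field_simp
    by_cases h2 : y ∈ closedBall (0 : ℂ) r
    · rw [indicator_of_mem h2]
      have : 0 ≤ (closedBall (-δ) r).indicator (fun _ => L * ‖δ‖ / r ^ 3) y :=
        indicator_nonneg (fun _ _ => hnn) y
      linarith
    · by_cases h3 : y ∈ closedBall (-δ) r
      · rw [indicator_of_notMem h2, indicator_of_mem h3]
        linarith
      · rw [indicator_of_notMem h2, indicator_of_notMem h3]
        rw [mem_closedBall_zero_iff, not_le] at h2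
        rw [mem_closedBall, not_le, dist_eq_norm, sub_neg_eq_add] at h3
        rw [psr_zero hr y h2.le, psr_zero hr (y + δ) h3.le]
        simp
  have hvol : ∀ c : ℂ, ∫ y, (closedBall c r).indicator (fun _ => (L : ℝ) * ‖δ‖ / r ^ 3) y =
      π * r ^ 2 * (L * ‖δ‖ / r ^ 3) := by
    intro c
    rw [integral_indicator measurableSet_closedBall, setIntegral_const, smul_eq_mul, Measure.real,
      Complex.volume_closedBall]
    simp [ENNReal.toReal_ofReal hr.le]
    left; ring
  have hint : ∀ c : ℂ, Integrable (fun y : ℂ =>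
      (closedBall c r).indicator (fun _ => (L : ℝ) * ‖δ‖ / r ^ 3) y) := by
    intro c
    rw [integrable_indicator_iff measurableSet_closedBall]
    exact integrableOn_const (by exact measure_closedBall_lt_top.ne)
  calc ∫ y, |psr r (y + δ) ^ 2 - psr r y ^ 2| ≤ ∫ y, ((closedBall (0 : ℂ) r).indicator
        (fun _ => (L : ℝ) * ‖δ‖ / r ^ 3) y +
        (closedBall (-δ) r).indicator (fun _ => (L : ℝ) * ‖δ‖ / r ^ 3) y) := by
        apply integral_mono_of_nonneg (Eventually.of_forall fun y => abs_nonneg _)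
          ((hint 0).add (hint (-δ))) (Eventually.of_forall hbd)
    _ = 2 * (π * r ^ 2 * (L * ‖δ‖ / r ^ 3)) := by
        rw [integral_add (hint 0) (hint (-δ)), hvol, hvol]; ring
    _ = 2 * π * L * (‖δ‖ / r) := by field_simp
    _ ≤ (2 * π * L + 1) * (‖δ‖ / r) := by gcongr; linarith

theorem psr_sq_cont (r : ℝ) : Continuous (fun x : ℂ => psr r x ^ 2) :=
  (psr_smooth r).continuous.pow 2

theorem psr_sq_int {r : ℝ} (hr : 0 < r) : Integrable (fun x : ℂ => psr r x ^ 2) := by
  apply (psr_sq_cont r).integrable_of_hasCompactSupport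
  exact (psr_compact hr).comp_left (g := fun t : ℝ => t ^ 2) (by norm_num)

/-- local masses are measurable functions of the centre -/
theorem mass_meas (r : ℝ) (f : ℂ → ℂ) (hf : Continuous f) : Measurable (mass r f) := by
  have h1 : Continuous (fun p : ℂ × ℂ => psr r (p.2 - p.1) ^ 2 * ‖f p.2‖ ^ 2) := by
    have := psr_sq_cont r
    exact (this.comp (continuous_snd.sub continuous_fst)).mul
      ((hf.comp continuous_snd).norm.pow 2)
  have h2 := h1.stronglyMeasurable.integral_prod_right' (ν := (volume : Measure ℂ))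
  exact h2.measurable

open Classical in
/-- indicator of heaviness -/
noncomputable def hv (K R r th : ℝ) (a : ℂ → ℂ) (m : ℤ × ℤ) (t : ℂ) : ℝ :=
  if th ≤ mass r (pm K R a m) t then 1 else 0

theorem hv_meas (K R r th : ℝ) (a : ℂ → ℂ) (ha : Nice a) (m : ℤ × ℤ) :
    Measurable (hv K R r th a m) := by
  unfold hv
  exact Measurable.ite (measurableSet_le measurable_const
    (mass_meas r _ (nice_continuous _ (nice_piece _ _ _ _ ha)))) measurable_const measurable_const

theorem hv_nonneg (K R r th : ℝ) (a : ℂ → ℂ) (m : ℤ × ℤ) (t : ℂ) : 0 ≤ hv K R r th a m t := by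
  unfold hv; split_ifs <;> norm_num

theorem hv_le_one (K R r th : ℝ) (a : ℂ → ℂ) (m : ℤ × ℤ) (t : ℂ) : hv K R r th a m t ≤ 1 := by
  unfold hv; split_ifs <;> norm_num

open Classical in
theorem hv_eq (C₀ K R r th : ℝ) (a : ℂ → ℂ) (m : ℤ × ℤ) (hm : m ∈ mbox (bx C₀ K)) (t : ℂ) :
    hv K R r th a m t = if m ∈ hset C₀ K R r th a t then 1 else 0 := by
  unfold hv hset
  simp [hm]

theorem sum_hv (C₀ K R r th : ℝ) (a : ℂ → ℂ) (t : ℂ) :
    ∑ m ∈ mbox (bx C₀ K), hv K R r th a m t = ((hset C₀ K R r th a t).card : ℝ) := by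
  classical
  unfold hset hv
  rw [Finset.sum_ite, Finset.sum_const_zero, add_zero, Finset.sum_const, nsmul_eq_mul, mul_one]

theorem hwt_eq (K R r th : ℝ) (a : ℂ → ℂ) (m : ℤ × ℤ) (x : ℂ) :
    hwt K R r th a m x = ∫ s, psr r s ^ 2 * hv K R r th a m (x - s) := by
  unfold hwt
  rw [← integral_sub_left_eq_self (μ := volume) (fun s : ℂ =>
    psr r s ^ 2 * hv K R r th a m (x - s)) x]
  congr 1
  ext t
  rw [sub_sub_cancel]
  rfl

theorem hwt_eq2 (K R r th : ℝ) (a : ℂ → ℂ) (m : ℤ × ℤ) (x : ℂ) :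
    hwt K R r th a m x = ∫ t, psr r (x - t) ^ 2 * hv K R r th a m t := rfl

theorem hwt_int (K R r th : ℝ) (hr : 0 < r) (a : ℂ → ℂ) (ha : Nice a) (m : ℤ × ℤ) (x : ℂ) :
    Integrable (fun t => psr r (x - t) ^ 2 * hv K R r th a m t) := by
  apply ((psr_sq_int hr).comp_sub_left x).mono'
  · exact ((psr_sq_cont r).measurable.comp (measurable_const.sub measurable_id)).aestronglyMeasurable.mul
      (hv_meas K R r th a ha m).aestronglyMeasurable
  · refine Eventually.of_forall fun t => ?_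
    rw [Real.norm_of_nonneg (mul_nonneg (sq_nonneg _) (hv_nonneg _ _ _ _ _ _ _))]
    exact mul_le_of_le_one_right (sq_nonneg _) (hv_le_one _ _ _ _ _ _ _)

theorem hwt_nonneg (K R r th : ℝ) (a : ℂ → ℂ) (m : ℤ × ℤ) (x : ℂ) :
    0 ≤ hwt K R r th a m x := by
  rw [hwt_eq2]
  exact integral_nonneg fun t => mul_nonneg (sq_nonneg _) (hv_nonneg _ _ _ _ _ _ _)

theorem hwt_sum_le (C₀ K R r th : ℝ) (hr : 0 < r) (a : ℂ → ℂ) (ha : Nice a) (J : ℕ)
    (hJ : ∀ t, (hset C₀ K R r th a t).card ≤ J) (x : ℂ) :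
    ∑ m ∈ mbox (bx C₀ K), hwt K R r th a m x ≤ J := by
  have h1 : ∑ m ∈ mbox (bx C₀ K), hwt K R r th a m x =
      ∫ t, psr r (x - t) ^ 2 * ((hset C₀ K R r th a t).card : ℝ) := by
    simp only [hwt_eq2]
    rw [← integral_finsetSum _ (fun m _ => hwt_int K R r th hr a ha m x)]
    congr 1
    ext t
    rw [← Finset.mul_sum, sum_hv]
  rw [h1]
  calc ∫ t, psr r (x - t) ^ 2 * ((hset C₀ K R r th a t).card : ℝ) ≤
      ∫ t, psr r (x - t) ^ 2 * (J : ℝ) := by
        apply integral_mono_of_nonneg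
        · exact Eventually.of_forall fun t => mul_nonneg (sq_nonneg _) (Nat.cast_nonneg _)
        · exact ((psr_sq_int hr).comp_sub_left x).mul_const _
        · refine Eventually.of_forall fun t => ?_
          have : ((hset C₀ K R r th a t).card : ℝ) ≤ J := by exact_mod_cast hJ t
          exact mul_le_mul_of_nonneg_left this (sq_nonneg _)
    _ = J := by
        rw [integral_mul_const, integral_sub_left_eq_self (μ := volume)
          (fun y : ℂ => psr r y ^ 2) x, psr_sq_integral hr, one_mul]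

theorem hwt_shift (C₀ K R r th : ℝ) (hr : 0 < r) (a : ℂ → ℂ) (ha : Nice a) (J : ℕ)
    (hJ : ∀ t, (hset C₀ K R r th a t).card ≤ J) (C : ℝ)
    (hC : ∀ δ : ℂ, ∫ y, |psr r (y + δ) ^ 2 - psr r y ^ 2| ≤ C * (‖δ‖ / r)) (x δ : ℂ) :
    ∑ m ∈ mbox (bx C₀ K), |hwt K R r th a m (x + δ) - hwt K R r th a m x| ≤
      J * (C * (‖δ‖ / r)) := by
  have hd : Integrable (fun t : ℂ => |psr r (x + δ - t) ^ 2 - psr r (x - t) ^ 2|) :=
    (((psr_sq_int hr).comp_sub_left (x + δ)).sub ((psr_sq_int hr).comp_sub_left x)).abs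
  have hdi : ∀ m, Integrable (fun t : ℂ => |psr r (x + δ - t) ^ 2 - psr r (x - t) ^ 2| *
      hv K R r th a m t) := by
    intro m
    apply hd.mono'
    · exact hd.aestronglyMeasurable.mul (hv_meas K R r th a ha m).aestronglyMeasurable
    · refine Eventually.of_forall fun t => ?_
      rw [Real.norm_of_nonneg (mul_nonneg (abs_nonneg _) (hv_nonneg _ _ _ _ _ _ _))]
      exact mul_le_of_le_one_right (abs_nonneg _) (hv_le_one _ _ _ _ _ _ _)
  have h1 : ∀ m, |hwt K R r th a m (x + δ) - hwt K R r th a m x| ≤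
      ∫ t, |psr r (x + δ - t) ^ 2 - psr r (x - t) ^ 2| * hv K R r th a m t := by
    intro m
    rw [hwt_eq2, hwt_eq2, ← integral_sub (hwt_int K R r th hr a ha m _)
      (hwt_int K R r th hr a ha m _), ← Real.norm_eq_abs]
    apply norm_integral_le_of_norm_le (hdi m)
    refine Eventually.of_forall fun t => ?_
    rw [← sub_mul, norm_mul, Real.norm_eq_abs, Real.norm_of_nonneg (hv_nonneg _ _ _ _ _ _ _)]
  calc ∑ m ∈ mbox (bx C₀ K), |hwt K R r th a m (x + δ) - hwt K R r th a m x| ≤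
      ∑ m ∈ mbox (bx C₀ K), ∫ t, |psr r (x + δ - t) ^ 2 - psr r (x - t) ^ 2| *
        hv K R r th a m t := Finset.sum_le_sum fun m _ => h1 m
    _ = ∫ t, |psr r (x + δ - t) ^ 2 - psr r (x - t) ^ 2| *
        ((hset C₀ K R r th a t).card : ℝ) := by
        rw [← integral_finsetSum _ (fun m _ => hdi m)]
        congr 1
        ext t
        rw [← Finset.mul_sum, sum_hv]
    _ ≤ ∫ t, |psr r (x + δ - t) ^ 2 - psr r (x - t) ^ 2| * (J : ℝ) := by
        apply integral_mono_of_nonneg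
        · exact Eventually.of_forall fun t => mul_nonneg (abs_nonneg _) (Nat.cast_nonneg _)
        · exact hd.mul_const _
        · refine Eventually.of_forall fun t => ?_
          have : ((hset C₀ K R r th a t).card : ℝ) ≤ J := by exact_mod_cast hJ t
          exact mul_le_mul_of_nonneg_left this (abs_nonneg _)
    _ = (∫ y, |psr r (y + δ) ^ 2 - psr r y ^ 2|) * J := by
        rw [integral_mul_const]
        congr 1
        rw [← integral_sub_left_eq_self (μ := volume)
          (fun y : ℂ => |psr r (y + δ) ^ 2 - psr r y ^ 2|) x]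
        congr 1
        ext t
        congr 4
        ring
    _ ≤ C * (‖δ‖ / r) * J := mul_le_mul_of_nonneg_right (hC δ) (Nat.cast_nonneg _)
    _ = J * (C * (‖δ‖ / r)) := by ring

theorem hwt_cont (K R r th : ℝ) (hr : 0 < r) (a : ℂ → ℂ) (ha : Nice a) (m : ℤ × ℤ) :
    Continuous (hwt K R r th a m) := by
  obtain ⟨C, -, hC⟩ := psr_sq_modulus
  have hC' := hC r hr
  have hLip : LipschitzWith (Real.toNNReal (C / r)) (hwt K R r th a m) := by
    apply LipschitzWith.of_dist_le_mul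
    intro x y
    have hd : Integrable (fun t : ℂ => |psr r (x - t) ^ 2 - psr r (y - t) ^ 2|) :=
      (((psr_sq_int hr).comp_sub_left x).sub ((psr_sq_int hr).comp_sub_left y)).abs
    rw [Real.dist_eq, hwt_eq2, hwt_eq2, ← integral_sub (hwt_int K R r th hr a ha m _)
      (hwt_int K R r th hr a ha m _), ← Real.norm_eq_abs]
    calc _ ≤ ∫ t : ℂ, |psr r (x - t) ^ 2 - psr r (y - t) ^ 2| := by
          apply norm_integral_le_of_norm_le hd
          refine Eventually.of_forall fun t => ?_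
          rw [← sub_mul, norm_mul, Real.norm_eq_abs, Real.norm_of_nonneg (hv_nonneg _ _ _ _ _ _ _)]
          exact mul_le_of_le_one_right (abs_nonneg _) (hv_le_one _ _ _ _ _ _ _)
      _ = ∫ t : ℂ, |psr r (t + (x - y)) ^ 2 - psr r t ^ 2| := by
          rw [← integral_sub_left_eq_self (μ := volume)
            (fun t : ℂ => |psr r (t + (x - y)) ^ 2 - psr r t ^ 2|) y]
          congr 1
          ext t
          congr 4
          ring
      _ ≤ C * (‖x - y‖ / r) := hC' _
      _ = C / r * dist x y := by rw [dist_eq_norm]; ring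
      _ ≤ (Real.toNNReal (C / r)) * dist x y := by
          gcongr
          exact Real.le_coe_toNNReal _
  exact hLip.continuous

theorem gi_norm_le (C₀ K : ℝ) (hC₀ : 0 < C₀) (hK : 1 ≤ K) (m : ℤ × ℤ)
    (hm : m ∈ mbox (bx C₀ K)) : ‖gi m‖ ≤ 2 * (C₀ + 2) * K := by
  have hbx : ((bx C₀ K : ℕ) : ℝ) ≤ C₀ * K + 2 := by
    unfold bx
    push_cast
    have := Nat.ceil_lt_add_one (a := C₀ * K) (by positivity)
    linarith
  have hbx2 : ((bx C₀ K : ℕ) : ℝ) ≤ (C₀ + 2) * K := by nlinarith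
  unfold mbox at hm
  rw [Finset.mem_Icc, Prod.le_def, Prod.le_def] at hm
  obtain ⟨⟨h1, h2⟩, h3, h4⟩ := hm
  simp only at h1 h2 h3 h4
  have a1 : |(m.1 : ℝ)| ≤ (bx C₀ K : ℝ) := by
    rw [abs_le]
    constructor
    · exact_mod_cast h1
    · exact_mod_cast h3
  have a2 : |(m.2 : ℝ)| ≤ (bx C₀ K : ℝ) := by
    rw [abs_le]
    constructor
    · exact_mod_cast h2
    · exact_mod_cast h4
  have h5 : ‖gi m‖ ≤ |(m.1 : ℝ)| + |(m.2 : ℝ)| := by
    have := Complex.norm_le_abs_re_add_abs_im (gi m)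
    rwa [gi_re, gi_im] at this
  linarith

/-- heavy part near a point -/
theorem gh_approx : ∃ C : ℝ, 1 ≤ C ∧ ∀ C₀ K R r th : ℝ, 0 < C₀ → 1 ≤ K → 0 < R → 0 < r →
    ∀ a : ℂ → ℂ, Adm C₀ R a → ∀ J : ℕ, (∀ t, (hset C₀ K R r th a t).card ≤ J) →
    (∀ x, ∑ m ∈ mbox (bx C₀ K), ‖(hwt K R r th a m x : ℂ) * pm K R a m x‖ ≤ C * J) ∧
    (∀ x, ‖gh C₀ K R r th a x‖ ≤ C * J) ∧
    ∀ x δ δ' : ℂ, ‖gh C₀ K R r th a (x + δ) - ∑ m ∈ mbox (bx C₀ K),
      (hwt K R r th a m x : ℂ) * pm K R a m x * ex ((R / K) * (conj (gi m) * δ').re)‖ ≤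
        C * J * ‖δ‖ * (1 / r + R / K) + C * (C₀ + 2) * J * R * ‖δ - δ'‖ := by
  obtain ⟨C1, hC1, hpm⟩ := pm_facts
  obtain ⟨C2, hC2, hpsr⟩ := psr_sq_modulus
  refine ⟨C1 * (4 * π + C2), ?_, ?_⟩
  · have := Real.pi_gt_three
    nlinarith
  intro C₀ K R r th hC₀ hK hR hr a ha J hJ
  have hK0 : 0 < K := by linarith
  have hpi := Real.pi_gt_three
  have hCbig : C1 ≤ C1 * (4 * π + C2) := le_mul_of_one_le_right (by linarith) (by linarith)
  have hCbig2 : C1 * C2 ≤ C1 * (4 * π + C2) := by nlinarith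
  have hCbig3 : 4 * π * C1 ≤ C1 * (4 * π + C2) := by nlinarith
  have hJ0 : (0 : ℝ) ≤ J := Nat.cast_nonneg _
  have hsum := hwt_sum_le C₀ K R r th hr a ha.nice J hJ
  have hpm' := hpm K R hK0 hR a ha.nice ha.bound
  have hA : ∀ x, ∑ m ∈ mbox (bx C₀ K), ‖(hwt K R r th a m x : ℂ) * pm K R a m x‖ ≤ C1 * J := by
    intro x
    calc _ ≤ ∑ m ∈ mbox (bx C₀ K), hwt K R r th a m x * C1 := by
          apply Finset.sum_le_sum
          intro m _
          rw [norm_mul, Complex.norm_real, Real.norm_of_nonneg (hwt_nonneg _ _ _ _ _ _ _)]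
          exact mul_le_mul_of_nonneg_left ((hpm' m).2.1 x) (hwt_nonneg _ _ _ _ _ _ _)
      _ = (∑ m ∈ mbox (bx C₀ K), hwt K R r th a m x) * C1 := by rw [Finset.sum_mul]
      _ ≤ J * C1 := mul_le_mul_of_nonneg_right (hsum x) (by linarith)
      _ = C1 * J := by ring
  refine ⟨fun x => (hA x).trans (mul_le_mul_of_nonneg_right hCbig hJ0), ?_, ?_⟩
  · intro x
    unfold gh
    exact (norm_sum_le _ _).trans ((hA x).trans (mul_le_mul_of_nonneg_right hCbig hJ0))
  · intro x δ δ'
    unfold gh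
    rw [← Finset.sum_sub_distrib]
    have hterm : ∀ m ∈ mbox (bx C₀ K), ‖(hwt K R r th a m (x + δ) : ℂ) * pm K R a m (x + δ) -
        (hwt K R r th a m x : ℂ) * pm K R a m x * ex ((R / K) * (conj (gi m) * δ').re)‖ ≤
        |hwt K R r th a m (x + δ) - hwt K R r th a m x| * C1 +
          hwt K R r th a m x * (C1 * (R / K) * ‖δ‖ + C1 * (4 * π * (C₀ + 2) * R * ‖δ - δ'‖)) := by
      intro m hm
      obtain ⟨-, hb, hs⟩ := hpm' m
      have e : (hwt K R r th a m (x + δ) : ℂ) * pm K R a m (x + δ) -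
        (hwt K R r th a m x : ℂ) * pm K R a m x * ex ((R / K) * (conj (gi m) * δ').re) =
        ((hwt K R r th a m (x + δ) - hwt K R r th a m x : ℝ) : ℂ) * pm K R a m (x + δ) +
        (hwt K R r th a m x : ℂ) * ((pm K R a m (x + δ) -
          ex ((R / K) * (conj (gi m) * δ).re) * pm K R a m x) +
          pm K R a m x * (ex ((R / K) * (conj (gi m) * δ).re) -
            ex ((R / K) * (conj (gi m) * δ').re))) := by
        push_cast
        ring
      rw [e]
      refine (norm_add_le _ _).trans ?_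
      apply add_le_add
      · rw [norm_mul, Complex.norm_real, Real.norm_eq_abs]
        exact mul_le_mul_of_nonneg_left (hb _) (abs_nonneg _)
      · rw [norm_mul, Complex.norm_real, Real.norm_of_nonneg (hwt_nonneg _ _ _ _ _ _ _)]
        apply mul_le_mul_of_nonneg_left _ (hwt_nonneg _ _ _ _ _ _ _)
        refine (norm_add_le _ _).trans ?_
        apply add_le_add (hs x δ)
        rw [norm_mul]
        have h6 : ‖ex ((R / K) * (conj (gi m) * δ).re) - ex ((R / K) * (conj (gi m) * δ').re)‖ ≤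
            4 * π * (C₀ + 2) * R * ‖δ - δ'‖ := by
          refine (ex_sub_le _ _).trans ?_
          rw [← mul_sub, ← Complex.sub_re, ← mul_sub, abs_mul, abs_of_pos (by positivity)]
          have h7 : |(conj (gi m) * (δ - δ')).re| ≤ 2 * (C₀ + 2) * K * ‖δ - δ'‖ := by
            refine (Complex.abs_re_le_norm _).trans ?_
            rw [norm_mul, Complex.norm_conj]
            exact mul_le_mul_of_nonneg_right (gi_norm_le C₀ K hC₀ hK m hm) (norm_nonneg _)
          calc 2 * π * (R / K * |(conj (gi m) * (δ - δ')).re|) ≤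
              2 * π * (R / K * (2 * (C₀ + 2) * K * ‖δ - δ'‖)) := by gcongr
            _ = 4 * π * (C₀ + 2) * R * ‖δ - δ'‖ := by field_simp; ring
        exact mul_le_mul (hb x) h6 (norm_nonneg _) (by linarith)
    refine (norm_sum_le _ _).trans ((Finset.sum_le_sum hterm).trans ?_)
    rw [Finset.sum_add_distrib, ← Finset.sum_mul, ← Finset.sum_mul]
    have h8 := hwt_shift C₀ K R r th hr a ha.nice J hJ C2 (hpsr r hr) x δ
    have h9 := hsum x
    calc _ ≤ J * (C2 * (‖δ‖ / r)) * C1 +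
        J * (C1 * (R / K) * ‖δ‖ + C1 * (4 * π * (C₀ + 2) * R * ‖δ - δ'‖)) := by
          apply add_le_add
          · exact mul_le_mul_of_nonneg_right h8 (by linarith)
          · exact mul_le_mul_of_nonneg_right h9 (by positivity)
      _ = C1 * C2 * (J * ‖δ‖ * (1 / r)) + C1 * (J * ‖δ‖ * (R / K)) +
          4 * π * C1 * ((C₀ + 2) * J * R * ‖δ - δ'‖) := by ring
      _ ≤ C1 * (4 * π + C2) * (J * ‖δ‖ * (1 / r)) + C1 * (4 * π + C2) * (J * ‖δ‖ * (R / K)) +
          C1 * (4 * π + C2) * ((C₀ + 2) * J * R * ‖δ - δ'‖) := by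
          gcongr
      _ = _ := by ring

end Pool.Agent.H24.Tri.Aux58
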