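import Pool.Agent.H58.Tri.ExB

set_option autoImplicit false

open MeasureTheory Set Complex Metric Filter Topology
open scoped Real ENNReal NNReal FourierTransform ComplexConjugate

namespace Pool.Agent.H24.Tri.Aux58

theorem fourier_of_inv (a : ℂ → ℂ) (ha : Nice a) (ξ : ℂ) : 𝓕 (𝓕⁻ a) ξ = a ξ := by
  have h1 : ((𝓕 (𝓕⁻ (tbS a ha)) : SchwartzMap ℂ ℂ) : ℂ → ℂ) =
      𝓕 ((𝓕⁻ (tbS a ha) : SchwartzMap ℂ ℂ) : ℂ → ℂ) := SchwartzMap.fourier_coe _
  rw [FourierTransform.fourier_fourierInv_eq, tbS_inv, tbS_coe] at h1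
  rw [← h1]

/-- facts about the kernel `kR` -/
theorem kR_facts : ∃ κ₁ κ₂ : ℝ, 0 ≤ κ₁ ∧ 0 ≤ κ₂ ∧ ∀ R : ℝ, 0 < R →
    Integrable (kR R) ∧ (∫ w, ‖kR R w‖) ≤ κ₁ ∧ Integrable (fun w => ‖kR R w‖ * ‖w‖) ∧
    (∫ w, ‖kR R w‖ * ‖w‖) ≤ κ₂ / R ∧
    ∀ ζ : ℂ, ∫ w, kR R w * ex (R * (conj ζ * w).re) = kapC (-ζ) := by
  obtain ⟨C, hC, hC1, hi, hC3, -⟩ := kernel_bounds _ nice_kap
  have kint : Integrable (𝓕⁻ kapC) := (nice_integrable _ nice_kap).2
  refine ⟨C, C, hC, hC, fun R hR => ?_⟩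
  have hRne : R ≠ 0 := hR.ne'
  have h1 : Integrable (fun w : ℂ => 𝓕⁻ kapC ((R : ℂ) * w)) := by
    have := kint.comp_smul hRne
    simpa [Complex.real_smul] using this
  have hk : Integrable (kR R) := h1.const_mul _
  have hnorm : ∀ w : ℂ, ‖kR R w‖ = R ^ 2 * ‖𝓕⁻ kapC ((R : ℂ) * w)‖ := by
    intro w
    rw [kR, norm_mul, norm_pow, Complex.norm_real, Real.norm_of_nonneg hR.le]
  have h2 : Integrable (fun w : ℂ => ‖(R : ℂ) * w‖ * ‖𝓕⁻ kapC ((R : ℂ) * w)‖) := by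
    have := hi.comp_smul hRne
    simpa [Complex.real_smul] using this
  have h3 : (fun w : ℂ => ‖kR R w‖ * ‖w‖) =
      fun w : ℂ => R⁻¹ * (R ^ 2 * (‖(R : ℂ) * w‖ * ‖𝓕⁻ kapC ((R : ℂ) * w)‖)) := by
    ext w
    rw [hnorm, norm_mul, Complex.norm_real, Real.norm_of_nonneg hR.le]
    field_simp
  refine ⟨hk, ?_, ?_, ?_, ?_⟩
  · simp only [hnorm]
    rw [real_integral_scale R hR (fun w => ‖𝓕⁻ kapC w‖)]
    exact hC1
  · rw [h3]
    exact (h2.const_mul _).const_mul _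
  · rw [h3, integral_const_mul, real_integral_scale R hR (fun w => ‖w‖ * ‖𝓕⁻ kapC w‖)]
    rw [inv_mul_eq_div]
    gcongr
  · intro ζ
    have h4 : ∫ w, kR R w * ex (R * (conj ζ * w).re) =
        ∫ w, 𝓕⁻ kapC w * ex ((conj ζ * w).re) := by
      rw [tb_integral_mul (R : ℂ) (by exact_mod_cast hRne)
        (fun w => 𝓕⁻ kapC w * ex ((conj ζ * w).re)), ← integral_const_mul]
      congr 1
      ext w
      rw [kR, Complex.norm_real, Real.norm_of_nonneg hR.le]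
      have : (conj ζ * ((R : ℂ) * w)).re = R * (conj ζ * w).re := by
        rw [← mul_assoc, mul_comm (conj ζ) (R : ℂ), mul_assoc, Complex.re_ofReal_mul]
      rw [this]
      push_cast
      ring
    rw [h4, ← fourier_of_inv kapC nice_kap (-ζ), Real.fourier_eq']
    congr 1
    ext w
    rw [smul_eq_mul, mul_comm]
    congr 1
    simp only [ex]
    congr 3
    rw [tb_inner]
    have : (conj w * -ζ).re = -(conj ζ * w).re := by
      simp [Complex.mul_re]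
      ring
    rw [this]
    ring

theorem kapC_le (z : ℂ) : ‖kapC z‖ ≤ 1 := by
  have h1 : kapC z = ((chi (z / 2) - chi z : ℝ) : ℂ) := by
    simp [kapC, chiC]
  rw [h1, Complex.norm_real, Real.norm_eq_abs, abs_le]
  have a1 := chi_nonneg z
  have a2 := chi_le_one z
  have a3 := chi_nonneg (z / 2)
  have a4 := chi_le_one (z / 2)
  constructor <;> linarith

/-- average over `(0, η]` -/
noncomputable def av (η : ℝ) (φ : ℝ → ℂ) : ℂ := ((η⁻¹ : ℝ) : ℂ) * ∫ t in Ioc 0 η, φ t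

theorem av_close (η : ℝ) (hη : 0 < η) (L : ℂ) (φ : ℝ → ℂ) (e : ℝ)
    (h : ∀ t ∈ Ioc 0 η, ‖L - φ t‖ ≤ e) (hi : IntegrableOn φ (Ioc 0 η)) : ‖L - av η φ‖ ≤ e := by
  have h1 : L = ((η⁻¹ : ℝ) : ℂ) * ∫ _t in Ioc 0 η, L := by
    rw [setIntegral_const]
    rw [Measure.real, Real.volume_Ioc, sub_zero, ENNReal.toReal_ofReal hη.le, Complex.real_smul,
      ← mul_assoc, ← Complex.ofReal_mul, inv_mul_cancel₀ hη.ne', Complex.ofReal_one, one_mul]
  have h2 : L - av η φ = ((η⁻¹ : ℝ) : ℂ) * ∫ t in Ioc 0 η, (L - φ t) := by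
    rw [integral_sub (integrable_const L) hi, mul_sub, ← h1]
    rfl
  rw [h2, norm_mul, Complex.norm_real, Real.norm_of_nonneg (by positivity)]
  have h3 := norm_setIntegral_le_of_norm_le_const (μ := volume) (s := Ioc (0 : ℝ) η)
    (by simp) h
  rw [Measure.real, Real.volume_Ioc, sub_zero, ENNReal.toReal_ofReal hη.le] at h3
  calc η⁻¹ * ‖∫ t in Ioc 0 η, (L - φ t)‖ ≤ η⁻¹ * (e * η) := by gcongr
    _ = e := by field_simp

theorem av_sum {ι : Type} (s : Finset ι) (η : ℝ) (φ : ι → ℝ → ℂ)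
    (hi : ∀ i ∈ s, IntegrableOn (φ i) (Ioc 0 η)) :
    av η (fun t => ∑ i ∈ s, φ i t) = ∑ i ∈ s, av η (φ i) := by
  unfold av
  rw [integral_finsetSum _ hi, Finset.mul_sum]

theorem av_const_mul (η : ℝ) (c : ℂ) (φ : ℝ → ℂ) : av η (fun t => c * φ t) = c * av η φ := by
  unfold av
  rw [integral_const_mul]
  ring

theorem av_mul_const (η : ℝ) (c : ℂ) (φ : ℝ → ℂ) : av η (fun t => φ t * c) = av η φ * c := by
  unfold av
  rw [integral_mul_const]
  ring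

theorem av_ex_le_one (η x : ℝ) (hη : 0 < η) : ‖av η (fun t => ex (x * t))‖ ≤ 1 := by
  unfold av
  rw [norm_mul, Complex.norm_real, Real.norm_of_nonneg (by positivity)]
  have h3 := norm_setIntegral_le_of_norm_le_const (μ := volume) (s := Ioc (0 : ℝ) η)
    (f := fun t => ex (x * t)) (C := 1) (by simp) (fun t _ => (norm_ex _).le)
  rw [Measure.real, Real.volume_Ioc, sub_zero, ENNReal.toReal_ofReal hη.le] at h3
  calc η⁻¹ * ‖∫ t in Ioc 0 η, ex (x * t)‖ ≤ η⁻¹ * (1 * η) := by gcongr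
    _ = 1 := by field_simp

theorem av_ex_le (η x : ℝ) (hη : 0 < η) (hx : x ≠ 0) :
    ‖av η (fun t => ex (x * t))‖ ≤ 1 / (π * |x| * η) := by
  unfold av
  rw [norm_mul, Complex.norm_real, Real.norm_of_nonneg (by positivity),
    ← intervalIntegral.integral_of_le hη.le]
  have hne : ((2 * π * x : ℝ) : ℂ) * Complex.I ≠ 0 := by
    apply mul_ne_zero _ Complex.I_ne_zero
    have : 2 * π * x ≠ 0 := by positivity
    exact_mod_cast this
  have h1 : ∀ t : ℝ, ex (x * t) = Complex.exp ((((2 * π * x : ℝ) : ℂ) * Complex.I) * t) := by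
    intro t
    simp only [ex]
    congr 1
    push_cast
    ring
  simp only [h1]
  rw [integral_exp_mul_complex hne, norm_div]
  have h2 : ‖((2 * π * x : ℝ) : ℂ) * Complex.I‖ = 2 * π * |x| := by
    rw [norm_mul, Complex.norm_real, Complex.norm_I, mul_one, Real.norm_eq_abs, abs_mul,
      abs_of_pos (by positivity : (0 : ℝ) < 2 * π)]
  rw [h2]
  have h3 : ‖Complex.exp ((((2 * π * x : ℝ) : ℂ) * Complex.I) * (η : ℂ)) -
      Complex.exp ((((2 * π * x : ℝ) : ℂ) * Complex.I) * ((0 : ℝ) : ℂ))‖ ≤ 2 := by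
    refine (norm_sub_le _ _).trans ?_
    rw [← h1, ← h1, norm_ex, norm_ex]
    norm_num
  have hx' : 0 < |x| := abs_pos.mpr hx
  calc η⁻¹ * (_ / (2 * π * |x|)) ≤ η⁻¹ * (2 / (2 * π * |x|)) := by gcongr
    _ = 1 / (π * |x| * η) := by field_simp

end Pool.Agent.H24.Tri.Aux58
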