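import Pool.Agent.H58.Tri.ExC

set_option autoImplicit false

open MeasureTheory Set Complex Metric Filter Topology
open scoped Real ENNReal NNReal FourierTransform ComplexConjugate

namespace Pool.Agent.H24.Tri.Aux58

theorem continuous_cis : Continuous cis := by
  unfold cis
  fun_prop

theorem norm_cis (θ : ℝ) : ‖cis θ‖ = 1 := Complex.norm_exp_ofReal_mul_I _

theorem cis_add (a b : ℝ) : cis (a + b) = cis a * cis b := by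
  simp only [cis]
  rw [← Complex.exp_add]
  congr 1
  push_cast
  ring

theorem cis_periodic (θ : ℝ) : cis (θ + 2 * π) = cis θ := by
  rw [cis_add]
  have : cis (2 * π) = 1 := by
    simp only [cis]
    push_cast
    exact Complex.exp_two_pi_mul_I
  rw [this, mul_one]

theorem cis_sub_le (θ k : ℝ) : ‖cis (θ + k) - cis θ‖ ≤ |k| := by
  rw [cis_add]
  have : cis θ * cis k - cis θ = cis θ * (cis k - 1) := by ring
  rw [this, norm_mul, norm_cis, one_mul]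
  simp only [cis]
  have h3 := Real.norm_exp_I_mul_ofReal_sub_one_le (x := k)
  rwa [mul_comm Complex.I, Real.norm_eq_abs] at h3

theorem cis_sub_le2 (θ k : ℝ) (hk : |k| ≤ 1) :
    ‖cis (θ + k) - cis θ - (k : ℂ) * (Complex.I * cis θ)‖ ≤ k ^ 2 := by
  rw [cis_add]
  have : cis θ * cis k - cis θ - (k : ℂ) * (Complex.I * cis θ) =
      cis θ * (cis k - 1 - (k : ℂ) * Complex.I) := by ring
  rw [this, norm_mul, norm_cis, one_mul]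
  have h := Complex.norm_exp_sub_one_sub_id_le (x := (k : ℂ) * Complex.I) (by simpa using hk)
  refine h.trans ?_
  rw [norm_mul, Complex.norm_I, mul_one, Complex.norm_real, Real.norm_eq_abs, sq_abs]

/-- the inner form at displacement `w` -/
noncomputable def Jf (ρ : ℂ) (g₁ g₂ g₃ : ℂ → ℂ) (w : ℂ) : ℂ :=
  ∫ θ in Ioc 0 (2 * π), ∫ z, (psi0 z : ℂ) * g₁ z * g₂ (z + (cis θ + w)) *
    g₃ (z + ρ * (cis θ + w))

theorem lamLoc_eq (ρ : ℂ) (k g₁ g₂ g₃ : ℂ → ℂ) :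
    LamLoc ρ psi0 k g₁ g₂ g₃ = ∫ w, k w * Jf ρ g₁ g₂ g₃ w := rfl

/-- shift invariance -/
theorem Jf_shift (ρ : ℂ) (g₁ g₂ g₃ : ℂ → ℂ) (w s : ℂ) (k : ℝ) :
    Jf ρ g₁ g₂ g₃ w = ∫ θ in Ioc 0 (2 * π), ∫ z, (psi0 (z + s) : ℂ) * g₁ (z + s) *
      g₂ (z + s + (cis (θ + k) + w)) * g₃ (z + s + ρ * (cis (θ + k) + w)) := by
  have h1 : ∀ θ : ℝ, ∫ z, (psi0 (z + s) : ℂ) * g₁ (z + s) *
      g₂ (z + s + (cis (θ + k) + w)) * g₃ (z + s + ρ * (cis (θ + k) + w)) =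
      ∫ z, (psi0 z : ℂ) * g₁ z * g₂ (z + (cis (θ + k) + w)) * g₃ (z + ρ * (cis (θ + k) + w)) := by
    intro θ
    exact integral_add_right_eq_self (μ := (volume : Measure ℂ)) (fun z : ℂ => (psi0 z : ℂ) *
      g₁ z * g₂ (z + (cis (θ + k) + w)) * g₃ (z + ρ * (cis (θ + k) + w))) s
  simp only [h1]
  unfold Jf
  set Q : ℝ → ℂ := fun θ => ∫ z, (psi0 z : ℂ) * g₁ z * g₂ (z + (cis θ + w)) *
    g₃ (z + ρ * (cis θ + w)) with hQ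
  have hper : Function.Periodic Q (2 * π) := by
    intro θ
    simp only [hQ, cis_periodic]
  have h2pi : (0 : ℝ) ≤ 2 * π := by positivity
  have e1 : ∫ θ in Ioc 0 (2 * π), Q θ = ∫ θ in (0 : ℝ)..(0 + 2 * π), Q θ := by
    rw [zero_add, intervalIntegral.integral_of_le h2pi]
  have e2 : ∫ θ in Ioc 0 (2 * π), Q (θ + k) = ∫ θ in k..(k + 2 * π), Q θ := by
    rw [← intervalIntegral.integral_of_le h2pi, intervalIntegral.integral_comp_add_right, zero_add,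
      add_comm]
  change ∫ θ in Ioc 0 (2 * π), Q θ = ∫ θ in Ioc 0 (2 * π), Q (θ + k)
  rw [e1, e2]
  exact hper.intervalIntegral_add_eq 0 k

/-- product difference -/
theorem prod_diff (a b c a' b' c' : ℂ) (B e₁ e₂ e₃ : ℝ) (hB : 0 ≤ B) (ha : ‖a‖ ≤ B)
    (hb : ‖b‖ ≤ B) (hb' : ‖b'‖ ≤ B) (hc : ‖c‖ ≤ B) (hc' : ‖c'‖ ≤ B)
    (ha' : ‖a'‖ ≤ B) (h₁ : ‖a - a'‖ ≤ e₁) (h₂ : ‖b - b'‖ ≤ e₂) (h₃ : ‖c - c'‖ ≤ e₃) :
    ‖a * b * c - a' * b' * c'‖ ≤ B ^ 2 * (e₁ + e₂ + e₃) := by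
  have e : a * b * c - a' * b' * c' = (a - a') * b * c + a' * (b - b') * c +
      a' * b' * (c - c') := by ring
  rw [e]
  have i1 : ‖(a - a') * b * c‖ ≤ e₁ * B * B := by
    rw [norm_mul, norm_mul]
    have : 0 ≤ e₁ := (norm_nonneg _).trans h₁
    gcongr
  have i2 : ‖a' * (b - b') * c‖ ≤ B * e₂ * B := by
    rw [norm_mul, norm_mul]
    have : 0 ≤ e₂ := (norm_nonneg _).trans h₂
    gcongr
  have i3 : ‖a' * b' * (c - c')‖ ≤ B * B * e₃ := by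
    rw [norm_mul, norm_mul]
    gcongr
  calc _ ≤ ‖(a - a') * b * c‖ + ‖a' * (b - b') * c‖ + ‖a' * b' * (c - c')‖ :=
        (norm_add_le _ _).trans (add_le_add_left (norm_add_le _ _) _)
    _ ≤ _ := by linarith

theorem psi0_lip : ∃ L : ℝ, 0 ≤ L ∧ ∀ z s : ℂ, |psi0 (z + s) - psi0 z| ≤ L * ‖s‖ := by
  obtain ⟨C, hC⟩ := psi0_smooth.lipschitzWith_of_hasCompactSupport psi0_compact (by simp)
  refine ⟨C, C.2, fun z s => ?_⟩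
  have := hC.dist_le_mul (z + s) z
  rwa [Real.dist_eq, dist_eq_norm, add_sub_cancel_left] at this

/-- the pieces `q_m = hwt m * pm m` -/
noncomputable def qp (K R r th : ℝ) (a : ℂ → ℂ) (m : ℤ × ℤ) (x : ℂ) : ℂ :=
  (hwt K R r th a m x : ℂ) * pm K R a m x

theorem qp_cont (K R r th : ℝ) (hr : 0 < r) (a : ℂ → ℂ) (ha : Nice a) (m : ℤ × ℤ) :
    Continuous (qp K R r th a m) := by
  unfold qp
  exact (Complex.continuous_ofReal.comp (hwt_cont K R r th hr a ha m)).mul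
    (nice_continuous _ (nice_piece _ _ _ _ ha))

theorem gh_cont (C₀ K R r th : ℝ) (hr : 0 < r) (a : ℂ → ℂ) (ha : Nice a) :
    Continuous (gh C₀ K R r th a) := by
  unfold gh
  exact continuous_finsetSum _ fun m _ => qp_cont K R r th hr a ha m

/-- the linearised heavy part: at the point `x`, displacement `δ` -/
noncomputable def Gx (C₀ K R r th : ℝ) (a : ℂ → ℂ) (x δ : ℂ) : ℂ :=
  ∑ m ∈ mbox (bx C₀ K), qp K R r th a m x * ex ((R / K) * (conj (gi m) * δ).re)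

/-- pointwise comparison -/
theorem pointwise : ∃ C : ℝ, 1 ≤ C ∧ ∀ ρ : ℂ, ∀ C₀ K R r : ℝ, 0 < C₀ → 1 ≤ K → 0 < R → 0 < r →
    ∀ a₁ a₂ a₃ : ℂ → ℂ, Adm C₀ R a₁ → Adm C₀ R a₂ → Adm C₀ R a₃ → ∀ t₁ t₂ t₃ : ℝ, ∀ J : ℕ,
    (∀ t, (hset C₀ K R r t₁ a₁ t).card ≤ J) → (∀ t, (hset C₀ K R r t₂ a₂ t).card ≤ J) →
    (∀ t, (hset C₀ K R r t₃ a₃ t).card ≤ J) → ∀ η : ℝ, 0 < η → η ≤ 1 / 2 → ∀ s : ℂ, ‖s‖ ≤ 2 * η →
    ∀ k : ℝ, |k| ≤ η → ∀ (w z : ℂ) (θ : ℝ),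
      ‖(psi0 (z + s) : ℂ) * gh C₀ K R r t₁ a₁ (z + s) *
          gh C₀ K R r t₂ a₂ (z + s + (cis (θ + k) + w)) *
          gh C₀ K R r t₃ a₃ (z + s + ρ * (cis (θ + k) + w)) -
        (psi0 z : ℂ) * Gx C₀ K R r t₁ a₁ z s *
          Gx C₀ K R r t₂ a₂ (z + cis θ) (s + ((k : ℂ) * (Complex.I * cis θ) + w)) *
          Gx C₀ K R r t₃ a₃ (z + ρ * cis θ) (s + ρ * ((k : ℂ) * (Complex.I * cis θ) + w))‖ ≤
      (closedBall (0 : ℂ) 2).indicator (fun _ => C * (J : ℝ) ^ 3 * (1 + ‖ρ‖) *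
        (η + (η + ‖w‖) * (1 / r + R / K) + (C₀ + 2) * R * η ^ 2)) z := by
  obtain ⟨C, hC, hgh⟩ := gh_approx
  obtain ⟨L, hL, hpsi⟩ := psi0_lip
  refine ⟨C ^ 3 * (2 * L + 9), ?_, ?_⟩
  · have : 1 ≤ C ^ 3 := one_le_pow₀ hC
    nlinarith
  intro ρ C₀ K R r hC₀ hK hR hr a₁ a₂ a₃ A₁ A₂ A₃ t₁ t₂ t₃ J J₁ J₂ J₃ η hη hη2 s hs k hk w z θ
  have hC0 : 0 ≤ C := by linarith
  have hK0 : 0 < K := by linarith
  have hJ0 : (0 : ℝ) ≤ J := Nat.cast_nonneg _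
  obtain ⟨s₁, b₁, d₁⟩ := hgh C₀ K R r t₁ hC₀ hK hR hr a₁ A₁ J J₁
  obtain ⟨s₂, b₂, d₂⟩ := hgh C₀ K R r t₂ hC₀ hK hR hr a₂ A₂ J J₂
  obtain ⟨s₃, b₃, d₃⟩ := hgh C₀ K R r t₃ hC₀ hK hR hr a₃ A₃ J J₃
  have hGle : ∀ (th : ℝ) (a : ℂ → ℂ), (∀ x, ∑ m ∈ mbox (bx C₀ K),
      ‖(hwt K R r th a m x : ℂ) * pm K R a m x‖ ≤ C * J) → ∀ x δ, ‖Gx C₀ K R r th a x δ‖ ≤ C * J := by
    intro th a h x δ
    unfold Gx
    refine (norm_sum_le _ _).trans (le_trans (le_of_eq ?_) (h x))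
    apply Finset.sum_congr rfl
    intro m _
    rw [norm_mul, norm_ex, mul_one]
    rfl
  by_cases hz : z ∈ closedBall (0 : ℂ) 2
  swap
  · rw [indicator_of_notMem hz]
    rw [mem_closedBall_zero_iff, not_le] at hz
    have h1 : psi0 z = 0 := psi0_zero z (by linarith)
    have h2 : psi0 (z + s) = 0 := by
      apply psi0_zero
      have : ‖z‖ ≤ ‖z + s‖ + ‖s‖ := by
        calc ‖z‖ = ‖(z + s) - s‖ := by rw [add_sub_cancel_right]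
          _ ≤ _ := norm_sub_le _ _
      linarith
    rw [h1, h2]
    simp
  rw [indicator_of_mem hz]
  -- displacements
  obtain ⟨D, hD⟩ : ∃ D : ℝ, D = (1 + ‖ρ‖) * (3 * (η + ‖w‖)) := ⟨_, rfl⟩
  have hρ : 0 ≤ ‖ρ‖ := norm_nonneg _
  have hw : 0 ≤ ‖w‖ := norm_nonneg _
  have hcis : ‖cis (θ + k) - cis θ‖ ≤ η := (cis_sub_le θ k).trans hk
  have hcis2 : ‖cis (θ + k) - cis θ - (k : ℂ) * (Complex.I * cis θ)‖ ≤ η ^ 2 := by
    refine (cis_sub_le2 θ k (by linarith)).trans ?_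
    rw [← sq_abs]
    gcongr
  have n1 : ‖s‖ ≤ D := by rw [hD]; nlinarith
  have n2 : ‖s + (cis (θ + k) - cis θ + w)‖ ≤ D := by
    calc _ ≤ ‖s‖ + (‖cis (θ + k) - cis θ‖ + ‖w‖) :=
          (norm_add_le _ _).trans (add_le_add_right (norm_add_le _ _) _)
      _ ≤ 2 * η + (η + ‖w‖) := by gcongr
      _ ≤ D := by rw [hD]; nlinarith
  have n3 : ‖s + ρ * (cis (θ + k) - cis θ + w)‖ ≤ D := by
    calc _ ≤ ‖s‖ + ‖ρ‖ * (‖cis (θ + k) - cis θ‖ + ‖w‖) := by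
          refine (norm_add_le _ _).trans (add_le_add_right ?_ _)
          rw [norm_mul]
          exact mul_le_mul_of_nonneg_left (norm_add_le _ _) hρ
      _ ≤ 2 * η + ‖ρ‖ * (η + ‖w‖) := by gcongr
      _ ≤ D := by rw [hD]; nlinarith [mul_nonneg hρ hη.le, mul_nonneg hρ hw]
  obtain ⟨E, hE⟩ : ∃ E : ℝ, E = C * J * D * (1 / r + R / K) +
    C * (C₀ + 2) * J * R * ((1 + ‖ρ‖) * η ^ 2) := ⟨_, rfl⟩
  have hRK : 0 < 1 / r + R / K := by positivity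
  have hmono : ∀ δ δ' : ℂ, ‖δ‖ ≤ D → ‖δ - δ'‖ ≤ (1 + ‖ρ‖) * η ^ 2 →
      C * J * ‖δ‖ * (1 / r + R / K) + C * (C₀ + 2) * J * R * ‖δ - δ'‖ ≤ E := by
    intro δ δ' h1 h2
    rw [hE]
    gcongr
  have e1 : ‖gh C₀ K R r t₁ a₁ (z + s) - Gx C₀ K R r t₁ a₁ z s‖ ≤ E := by
    refine (d₁ z s s).trans (hmono s s n1 ?_)
    rw [sub_self, norm_zero]
    positivity
  have e2 : ‖gh C₀ K R r t₂ a₂ (z + s + (cis (θ + k) + w)) -
      Gx C₀ K R r t₂ a₂ (z + cis θ) (s + ((k : ℂ) * (Complex.I * cis θ) + w))‖ ≤ E := by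
    have h := d₂ (z + cis θ) (s + (cis (θ + k) - cis θ + w))
      (s + ((k : ℂ) * (Complex.I * cis θ) + w))
    have e : z + cis θ + (s + (cis (θ + k) - cis θ + w)) = z + s + (cis (θ + k) + w) := by ring
    rw [e] at h
    refine h.trans (hmono _ _ n2 ?_)
    have e' : s + (cis (θ + k) - cis θ + w) - (s + ((k : ℂ) * (Complex.I * cis θ) + w)) =
        cis (θ + k) - cis θ - (k : ℂ) * (Complex.I * cis θ) := by ring
    rw [e']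
    refine hcis2.trans ?_
    nlinarith [sq_nonneg η, mul_nonneg hρ (sq_nonneg η)]
  have e3 : ‖gh C₀ K R r t₃ a₃ (z + s + ρ * (cis (θ + k) + w)) -
      Gx C₀ K R r t₃ a₃ (z + ρ * cis θ) (s + ρ * ((k : ℂ) * (Complex.I * cis θ) + w))‖ ≤ E := by
    have h := d₃ (z + ρ * cis θ) (s + ρ * (cis (θ + k) - cis θ + w))
      (s + ρ * ((k : ℂ) * (Complex.I * cis θ) + w))
    have e : z + ρ * cis θ + (s + ρ * (cis (θ + k) - cis θ + w)) =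
        z + s + ρ * (cis (θ + k) + w) := by ring
    rw [e] at h
    refine h.trans (hmono _ _ n3 ?_)
    have e' : s + ρ * (cis (θ + k) - cis θ + w) - (s + ρ * ((k : ℂ) * (Complex.I * cis θ) + w)) =
        ρ * (cis (θ + k) - cis θ - (k : ℂ) * (Complex.I * cis θ)) := by ring
    rw [e', norm_mul]
    calc ‖ρ‖ * ‖cis (θ + k) - cis θ - (k : ℂ) * (Complex.I * cis θ)‖ ≤ ‖ρ‖ * η ^ 2 := by gcongr
      _ ≤ _ := by nlinarith [sq_nonneg η]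
  have hCJ : 0 ≤ C * J := by positivity
  have hpd := prod_diff _ _ _ _ _ _ (C * J) E E E hCJ (b₁ (z + s))
    (b₂ (z + s + (cis (θ + k) + w))) (hGle t₂ a₂ s₂ (z + cis θ)
      (s + ((k : ℂ) * (Complex.I * cis θ) + w))) (b₃ (z + s + ρ * (cis (θ + k) + w)))
    (hGle t₃ a₃ s₃ (z + ρ * cis θ) (s + ρ * ((k : ℂ) * (Complex.I * cis θ) + w)))
    (hGle t₁ a₁ s₁ z s) e1 e2 e3
  obtain ⟨x1, hx1⟩ : ∃ x, x = gh C₀ K R r t₁ a₁ (z + s) := ⟨_, rfl⟩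
  obtain ⟨x2, hx2⟩ : ∃ x, x = gh C₀ K R r t₂ a₂ (z + s + (cis (θ + k) + w)) := ⟨_, rfl⟩
  obtain ⟨x3, hx3⟩ : ∃ x, x = gh C₀ K R r t₃ a₃ (z + s + ρ * (cis (θ + k) + w)) := ⟨_, rfl⟩
  obtain ⟨y1, hy1⟩ : ∃ x, x = Gx C₀ K R r t₁ a₁ z s := ⟨_, rfl⟩
  obtain ⟨y2, hy2⟩ : ∃ x, x = Gx C₀ K R r t₂ a₂ (z + cis θ)
    (s + ((k : ℂ) * (Complex.I * cis θ) + w)) := ⟨_, rfl⟩
  obtain ⟨y3, hy3⟩ : ∃ x, x = Gx C₀ K R r t₃ a₃ (z + ρ * cis θ)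
    (s + ρ * ((k : ℂ) * (Complex.I * cis θ) + w)) := ⟨_, rfl⟩
  have bx1 : ‖x1‖ ≤ C * J := by rw [hx1]; exact b₁ _
  have bx2 : ‖x2‖ ≤ C * J := by rw [hx2]; exact b₂ _
  have bx3 : ‖x3‖ ≤ C * J := by rw [hx3]; exact b₃ _
  rw [← hx1, ← hx2, ← hx3, ← hy1, ← hy2, ← hy3] at hpd
  rw [← hx1, ← hx2, ← hx3, ← hy1, ← hy2, ← hy3]
  have e : (psi0 (z + s) : ℂ) * x1 * x2 * x3 - (psi0 z : ℂ) * y1 * y2 * y3 =
      ((psi0 (z + s) - psi0 z : ℝ) : ℂ) * (x1 * x2 * x3) +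
      (psi0 z : ℂ) * (x1 * x2 * x3 - y1 * y2 * y3) := by
    push_cast
    ring
  rw [e]
  have i1 : ‖((psi0 (z + s) - psi0 z : ℝ) : ℂ) * (x1 * x2 * x3)‖ ≤
      L * (2 * η) * (C * J * (C * J) * (C * J)) := by
    rw [norm_mul, norm_mul, norm_mul, Complex.norm_real, Real.norm_eq_abs]
    have h5 : |psi0 (z + s) - psi0 z| ≤ L * (2 * η) := (hpsi z s).trans (by gcongr)
    gcongr
  have i2 : ‖(psi0 z : ℂ) * (x1 * x2 * x3 - y1 * y2 * y3)‖ ≤ (C * J) ^ 2 * (E + E + E) := by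
    rw [norm_mul, Complex.norm_real, Real.norm_of_nonneg (psi0_nonneg z)]
    calc psi0 z * ‖x1 * x2 * x3 - y1 * y2 * y3‖ ≤ 1 * ‖x1 * x2 * x3 - y1 * y2 * y3‖ :=
          mul_le_mul_of_nonneg_right (psi0_le_one z) (norm_nonneg _)
      _ ≤ _ := by rw [one_mul]; exact hpd
  refine (norm_add_le _ _).trans ((add_le_add i1 i2).trans ?_)
  rw [hE, hD]
  have q1 : 0 ≤ C ^ 3 * (J : ℝ) ^ 3 := by positivity
  have q2 : 0 ≤ (η + ‖w‖) * (1 / r + R / K) := by positivity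
  have q3 : 0 ≤ (C₀ + 2) * R * η ^ 2 := by positivity
  have r1 : L * (2 * η) * (C * J * (C * J) * (C * J)) =
      C ^ 3 * (J : ℝ) ^ 3 * (2 * L * η) := by ring
  have r2 : (C * J) ^ 2 * (C * J * ((1 + ‖ρ‖) * (3 * (η + ‖w‖))) * (1 / r + R / K) +
      C * (C₀ + 2) * J * R * ((1 + ‖ρ‖) * η ^ 2) +
      (C * J * ((1 + ‖ρ‖) * (3 * (η + ‖w‖))) * (1 / r + R / K) +
      C * (C₀ + 2) * J * R * ((1 + ‖ρ‖) * η ^ 2)) +
      (C * J * ((1 + ‖ρ‖) * (3 * (η + ‖w‖))) * (1 / r + R / K) +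
      C * (C₀ + 2) * J * R * ((1 + ‖ρ‖) * η ^ 2))) =
      C ^ 3 * (J : ℝ) ^ 3 * ((1 + ‖ρ‖) * (9 * ((η + ‖w‖) * (1 / r + R / K)) +
        3 * ((C₀ + 2) * R * η ^ 2))) := by ring
  rw [r1, r2, ← mul_add]
  have r3 : C ^ 3 * (2 * L + 9) * (J : ℝ) ^ 3 * (1 + ‖ρ‖) *
      (η + (η + ‖w‖) * (1 / r + R / K) + (C₀ + 2) * R * η ^ 2) =
      C ^ 3 * (J : ℝ) ^ 3 * ((1 + ‖ρ‖) * ((2 * L + 9) *
        (η + (η + ‖w‖) * (1 / r + R / K) + (C₀ + 2) * R * η ^ 2))) := by ring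
  rw [r3]
  apply mul_le_mul_of_nonneg_left _ q1
  have r4 : 2 * L * η ≤ (1 + ‖ρ‖) * (2 * L * η) := by
    have : 0 ≤ 2 * L * η := by positivity
    nlinarith
  have r5 : (1 + ‖ρ‖) * (2 * L * η) + (1 + ‖ρ‖) * (9 * ((η + ‖w‖) * (1 / r + R / K)) +
        3 * ((C₀ + 2) * R * η ^ 2)) ≤ (1 + ‖ρ‖) * ((2 * L + 9) *
        (η + (η + ‖w‖) * (1 / r + R / K) + (C₀ + 2) * R * η ^ 2)) := by
    rw [← mul_add]
    apply mul_le_mul_of_nonneg_left _ (by positivity)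
    nlinarith [mul_nonneg hL q2, mul_nonneg hL q3]
  linarith

end Pool.Agent.H24.Tri.Aux58
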