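import Pool.Agent.H58.Tri.ExD

set_option autoImplicit false

open MeasureTheory Set Complex Metric Filter Topology
open scoped Real ENNReal NNReal FourierTransform ComplexConjugate

namespace Pool.Agent.H24.Tri.Aux58

/-- index triples -/
abbrev Tr := (ℤ × ℤ) × (ℤ × ℤ) × (ℤ × ℤ)

noncomputable def SN (K : ℝ) (p : Tr) : ℂ := (gi p.1 + gi p.2.1 + gi p.2.2) / (K : ℂ)

noncomputable def zN (ρ : ℂ) (K : ℝ) (p : Tr) : ℂ := (gi p.2.1 + conj ρ * gi p.2.2) / (K : ℂ)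

/-- the measure on `(θ, z)` -/
noncomputable def mu0 : Measure (ℝ × ℂ) := (volume.restrict (Ioc 0 (2 * π))).prod volume

/-- a continuous function supported in `‖z‖ ≤ 2` and bounded is `mu0`-integrable -/
theorem mu0_integrable (F : ℝ × ℂ → ℂ) (hF : Continuous F) (B : ℝ)
    (hB : ∀ p, ‖F p‖ ≤ (closedBall (0 : ℂ) 2).indicator (fun _ => B) p.2) : Integrable F mu0 := by
  have h1 : Integrable (fun p : ℝ × ℂ => (closedBall (0 : ℂ) 2).indicator (fun _ => B) p.2) mu0 := by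
    have hz : Integrable (fun z : ℂ => (closedBall (0 : ℂ) 2).indicator (fun _ => B) z) := by
      rw [integrable_indicator_iff measurableSet_closedBall]
      exact integrableOn_const (by exact measure_closedBall_lt_top.ne)
    have hθ : Integrable (fun _ : ℝ => (1 : ℝ)) (volume.restrict (Ioc 0 (2 * π))) :=
      integrable_const 1
    have := hθ.mul_prod hz
    simpa [mu0] using this
  exact h1.mono' hF.aestronglyMeasurable (Eventually.of_forall hB)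

theorem mu0_integral_bound (F : ℝ × ℂ → ℂ) (B : ℝ)
    (hB : ∀ p, ‖F p‖ ≤ (closedBall (0 : ℂ) 2).indicator (fun _ => B) p.2) :
    ‖∫ p, F p ∂mu0‖ ≤ 8 * π ^ 2 * B := by
  have hz : Integrable (fun z : ℂ => (closedBall (0 : ℂ) 2).indicator (fun _ => B) z) := by
    rw [integrable_indicator_iff measurableSet_closedBall]
    exact integrableOn_const (by exact measure_closedBall_lt_top.ne)
  have hθ : Integrable (fun _ : ℝ => (1 : ℝ)) (volume.restrict (Ioc 0 (2 * π))) :=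
    integrable_const 1
  have h1 : Integrable (fun p : ℝ × ℂ => (closedBall (0 : ℂ) 2).indicator (fun _ => B) p.2) mu0 := by
    have := hθ.mul_prod hz
    simpa [mu0] using this
  refine (norm_integral_le_of_norm_le h1 (Eventually.of_forall hB)).trans (le_of_eq ?_)
  have h2 := integral_prod_mul (μ := volume.restrict (Ioc 0 (2 * π))) (ν := (volume : Measure ℂ))
    (fun _ : ℝ => (1 : ℝ)) (fun z : ℂ => (closedBall (0 : ℂ) 2).indicator (fun _ => B) z)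
  simp only [one_mul] at h2
  rw [mu0, h2, integral_const, integral_indicator measurableSet_closedBall, setIntegral_const,
    smul_eq_mul, smul_eq_mul, Measure.real, Measure.real, Complex.volume_closedBall,
    Measure.restrict_apply_univ, Real.volume_Ioc, sub_zero, ENNReal.toReal_ofReal (by positivity),
    ENNReal.toReal_mul, ENNReal.toReal_pow, ENNReal.toReal_ofReal (by norm_num)]
  simp
  ring

/-- the phase identity -/
theorem phase_id (ρ : ℂ) (K R : ℝ) (p : Tr) (s w : ℂ) (k θ : ℝ) :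
    ex ((R / K) * (conj (gi p.1) * s).re) *
      ex ((R / K) * (conj (gi p.2.1) * (s + ((k : ℂ) * (Complex.I * cis θ) + w))).re) *
      ex ((R / K) * (conj (gi p.2.2) * (s + ρ * ((k : ℂ) * (Complex.I * cis θ) + w))).re) =
    ex (R * (conj (SN K p) * s).re) * ex (R * (conj (zN ρ K p) * (Complex.I * cis θ)).re * k) *
      ex (R * (conj (zN ρ K p) * w).re) := by
  rw [← ex_add, ← ex_add, ← ex_add, ← ex_add]
  congr 1
  have h1 : (conj (SN K p) * s).re = ((conj (gi p.1) + conj (gi p.2.1) + conj (gi p.2.2)) * s).re / K := by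
    rw [SN, map_div₀, Complex.conj_ofReal, map_add, map_add, div_mul_eq_mul_div,
      Complex.div_ofReal_re]
  have h2 : ∀ v : ℂ, (conj (zN ρ K p) * v).re =
      ((conj (gi p.2.1) + ρ * conj (gi p.2.2)) * v).re / K := by
    intro v
    rw [zN, map_div₀, Complex.conj_ofReal, map_add, map_mul, Complex.conj_conj, div_mul_eq_mul_div,
      Complex.div_ofReal_re]
  rw [h1, h2, h2]
  have h3 : ((conj (gi p.2.1) + ρ * conj (gi p.2.2)) * (Complex.I * cis θ)).re * k =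
      ((conj (gi p.2.1) + ρ * conj (gi p.2.2)) * ((k : ℂ) * (Complex.I * cis θ))).re := by
    have e5 : (conj (gi p.2.1) + ρ * conj (gi p.2.2)) * ((k : ℂ) * (Complex.I * cis θ)) =
        (k : ℂ) * ((conj (gi p.2.1) + ρ * conj (gi p.2.2)) * (Complex.I * cis θ)) := by ring
    rw [e5, Complex.re_ofReal_mul, mul_comm]
  have h4 : ((conj (gi p.1) * s).re + (conj (gi p.2.1) * (s + ((k : ℂ) * (Complex.I * cis θ) + w))).re +
      (conj (gi p.2.2) * (s + ρ * ((k : ℂ) * (Complex.I * cis θ) + w))).re) =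
      ((conj (gi p.1) + conj (gi p.2.1) + conj (gi p.2.2)) * s).re +
      ((conj (gi p.2.1) + ρ * conj (gi p.2.2)) * ((k : ℂ) * (Complex.I * cis θ))).re +
      ((conj (gi p.2.1) + ρ * conj (gi p.2.2)) * w).re := by
    rw [← Complex.add_re, ← Complex.add_re, ← Complex.add_re, ← Complex.add_re]
    congr 1
    ring
  calc _ = R / K * ((conj (gi p.1) * s).re +
      (conj (gi p.2.1) * (s + ((k : ℂ) * (Complex.I * cis θ) + w))).re +
      (conj (gi p.2.2) * (s + ρ * ((k : ℂ) * (Complex.I * cis θ) + w))).re) := by ring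
    _ = _ := by
      rw [h4, ← h3]
      ring

/-- amplitudes -/
noncomputable def Bq (ρ : ℂ) (q₁ q₂ q₃ : ℤ × ℤ → ℂ → ℂ) (p : Tr) (θ : ℝ) : ℂ :=
  ∫ z, (psi0 z : ℂ) * q₁ p.1 z * q₂ p.2.1 (z + cis θ) * q₃ p.2.2 (z + ρ * cis θ)

theorem Bq_integrand_cont (ρ : ℂ) (q₁ q₂ q₃ : ℤ × ℤ → ℂ → ℂ) (h₁ : ∀ m, Continuous (q₁ m))
    (h₂ : ∀ m, Continuous (q₂ m)) (h₃ : ∀ m, Continuous (q₃ m)) (p : Tr) :
    Continuous (fun x : ℝ × ℂ => (psi0 x.2 : ℂ) * q₁ p.1 x.2 * q₂ p.2.1 (x.2 + cis x.1) *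
      q₃ p.2.2 (x.2 + ρ * cis x.1)) := by
  have a1 := h₁ p.1
  have a2 := h₂ p.2.1
  have a3 := h₃ p.2.2
  have a4 := psi0_smooth.continuous
  have a5 := continuous_cis
  fun_prop

theorem Bq_meas (ρ : ℂ) (q₁ q₂ q₃ : ℤ × ℤ → ℂ → ℂ) (h₁ : ∀ m, Continuous (q₁ m))
    (h₂ : ∀ m, Continuous (q₂ m)) (h₃ : ∀ m, Continuous (q₃ m)) (p : Tr) :
    StronglyMeasurable (Bq ρ q₁ q₂ q₃ p) :=
  (Bq_integrand_cont ρ q₁ q₂ q₃ h₁ h₂ h₃ p).stronglyMeasurable.integral_prod_right'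
    (ν := (volume : Measure ℂ))

theorem Bq_bound (ρ : ℂ) (q₁ q₂ q₃ : ℤ × ℤ → ℂ → ℂ) (Q : ℝ) (hQ : 0 ≤ Q)
    (b₁ : ∀ m x, ‖q₁ m x‖ ≤ Q) (b₂ : ∀ m x, ‖q₂ m x‖ ≤ Q) (b₃ : ∀ m x, ‖q₃ m x‖ ≤ Q) (p : Tr)
    (θ : ℝ) : ‖Bq ρ q₁ q₂ q₃ p θ‖ ≤ 4 * π * Q ^ 3 := by
  have hz : Integrable (fun z : ℂ => (closedBall (0 : ℂ) 2).indicator (fun _ => Q ^ 3) z) := by
    rw [integrable_indicator_iff measurableSet_closedBall]
    exact integrableOn_const (by exact measure_closedBall_lt_top.ne)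
  unfold Bq
  refine (norm_integral_le_of_norm_le hz (Eventually.of_forall fun z => ?_)).trans (le_of_eq ?_)
  · by_cases h : z ∈ closedBall (0 : ℂ) 2
    · rw [indicator_of_mem h, norm_mul, norm_mul, norm_mul, Complex.norm_real,
        Real.norm_of_nonneg (psi0_nonneg z)]
      have h1 := psi0_le_one z
      have h2 := psi0_nonneg z
      calc psi0 z * ‖q₁ p.1 z‖ * ‖q₂ p.2.1 (z + cis θ)‖ * ‖q₃ p.2.2 (z + ρ * cis θ)‖ ≤
          1 * Q * Q * Q := by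
            gcongr
            · exact b₁ _ _
            · exact b₂ _ _
            · exact b₃ _ _
        _ = Q ^ 3 := by ring
    · rw [indicator_of_notMem h]
      rw [mem_closedBall_zero_iff, not_le] at h
      rw [psi0_zero z (by linarith)]
      simp
  · rw [integral_indicator measurableSet_closedBall, setIntegral_const, smul_eq_mul, Measure.real,
      Complex.volume_closedBall, ENNReal.toReal_mul, ENNReal.toReal_pow,
      ENNReal.toReal_ofReal (by norm_num)]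
    simp only [ENNReal.coe_toReal, NNReal.coe_real_pi]
    ring

/-- product of three sums -/
theorem triple_sum (M : Finset (ℤ × ℤ)) (c : ℂ) (f g h : ℤ × ℤ → ℂ) :
    c * (∑ m ∈ M, f m) * (∑ m ∈ M, g m) * (∑ m ∈ M, h m) =
      ∑ p ∈ M ×ˢ M ×ˢ M, c * f p.1 * g p.2.1 * h p.2.2 := by
  rw [Finset.sum_product, mul_assoc, mul_assoc, Finset.sum_mul_sum, Finset.sum_mul_sum,
    Finset.mul_sum]
  apply Finset.sum_congr rfl
  intro a _
  rw [Finset.sum_product, Finset.mul_sum]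
  apply Finset.sum_congr rfl
  intro b _
  rw [Finset.mul_sum, Finset.mul_sum]
  apply Finset.sum_congr rfl
  intro d _
  ring

/-- the approximate form at `(s, k)` -/
noncomputable def LamP (ρ : ℂ) (M : Finset (ℤ × ℤ)) (K R : ℝ) (q₁ q₂ q₃ : ℤ × ℤ → ℂ → ℂ)
    (s : ℂ) (k : ℝ) : ℂ :=
  ∑ p ∈ M ×ˢ M ×ˢ M, ex (R * (conj (SN K p) * s).re) * kapC (-zN ρ K p) *
    ∫ θ in Ioc 0 (2 * π), Bq ρ q₁ q₂ q₃ p θ * ex (R * (conj (zN ρ K p) * (Complex.I * cis θ)).re * k)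

theorem inner_eval (ρ : ℂ) (M : Finset (ℤ × ℤ)) (K R : ℝ) (q₁ q₂ q₃ : ℤ × ℤ → ℂ → ℂ)
    (h₁ : ∀ m, Continuous (q₁ m)) (h₂ : ∀ m, Continuous (q₂ m)) (h₃ : ∀ m, Continuous (q₃ m))
    (Q : ℝ) (hQ : 0 ≤ Q)
    (b₁ : ∀ m x, ‖q₁ m x‖ ≤ Q) (b₂ : ∀ m x, ‖q₂ m x‖ ≤ Q) (b₃ : ∀ m x, ‖q₃ m x‖ ≤ Q)
    (s w : ℂ) (k : ℝ) :
    ∫ x : ℝ × ℂ, (psi0 x.2 : ℂ) * (∑ m ∈ M, q₁ m x.2 * ex ((R / K) * (conj (gi m) * s).re)) *
      (∑ m ∈ M, q₂ m (x.2 + cis x.1) *
        ex ((R / K) * (conj (gi m) * (s + ((k : ℂ) * (Complex.I * cis x.1) + w))).re)) *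
      (∑ m ∈ M, q₃ m (x.2 + ρ * cis x.1) *
        ex ((R / K) * (conj (gi m) * (s + ρ * ((k : ℂ) * (Complex.I * cis x.1) + w))).re)) ∂mu0 =
    ∑ p ∈ M ×ˢ M ×ˢ M, ex (R * (conj (SN K p) * s).re) * ex (R * (conj (zN ρ K p) * w).re) *
      ∫ θ in Ioc 0 (2 * π), Bq ρ q₁ q₂ q₃ p θ *
        ex (R * (conj (zN ρ K p) * (Complex.I * cis θ)).re * k) := by
  have hpt : ∀ x : ℝ × ℂ, (psi0 x.2 : ℂ) *
      (∑ m ∈ M, q₁ m x.2 * ex ((R / K) * (conj (gi m) * s).re)) *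
      (∑ m ∈ M, q₂ m (x.2 + cis x.1) *
        ex ((R / K) * (conj (gi m) * (s + ((k : ℂ) * (Complex.I * cis x.1) + w))).re)) *
      (∑ m ∈ M, q₃ m (x.2 + ρ * cis x.1) *
        ex ((R / K) * (conj (gi m) * (s + ρ * ((k : ℂ) * (Complex.I * cis x.1) + w))).re)) =
      ∑ p ∈ M ×ˢ M ×ˢ M, (ex (R * (conj (SN K p) * s).re) * ex (R * (conj (zN ρ K p) * w).re)) *
        (((psi0 x.2 : ℂ) * q₁ p.1 x.2 * q₂ p.2.1 (x.2 + cis x.1) *
          q₃ p.2.2 (x.2 + ρ * cis x.1)) *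
          ex (R * (conj (zN ρ K p) * (Complex.I * cis x.1)).re * k)) := by
    intro x
    rw [triple_sum]
    apply Finset.sum_congr rfl
    intro p _
    have := phase_id ρ K R p s w k x.1
    linear_combination ((psi0 x.2 : ℂ) * q₁ p.1 x.2 * q₂ p.2.1 (x.2 + cis x.1) *
      q₃ p.2.2 (x.2 + ρ * cis x.1)) * this
  have hcont : ∀ p : Tr, Continuous (fun x : ℝ × ℂ => ((psi0 x.2 : ℂ) * q₁ p.1 x.2 *
      q₂ p.2.1 (x.2 + cis x.1) * q₃ p.2.2 (x.2 + ρ * cis x.1)) *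
          ex (R * (conj (zN ρ K p) * (Complex.I * cis x.1)).re * k)) := by
    intro p
    have a1 := Bq_integrand_cont ρ q₁ q₂ q₃ h₁ h₂ h₃ p
    have a5 := continuous_cis
    have a6 := continuous_ex
    apply a1.mul
    fun_prop
  have hint : ∀ p : Tr, Integrable (fun x : ℝ × ℂ => ((psi0 x.2 : ℂ) * q₁ p.1 x.2 *
      q₂ p.2.1 (x.2 + cis x.1) * q₃ p.2.2 (x.2 + ρ * cis x.1)) *
          ex (R * (conj (zN ρ K p) * (Complex.I * cis x.1)).re * k)) mu0 := by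
    intro p
    apply mu0_integrable _ (hcont p) (Q ^ 3)
    intro x
    by_cases h : x.2 ∈ closedBall (0 : ℂ) 2
    · rw [indicator_of_mem h, norm_mul, norm_mul, norm_mul, norm_mul, Complex.norm_real,
        norm_ex, Real.norm_of_nonneg (psi0_nonneg x.2)]
      have h1 := psi0_le_one x.2
      have h2 := psi0_nonneg x.2
      calc psi0 x.2 * ‖q₁ p.1 x.2‖ * ‖q₂ p.2.1 (x.2 + cis x.1)‖ * ‖q₃ p.2.2 (x.2 + ρ * cis x.1)‖ * 1 ≤
          1 * Q * Q * Q * 1 := by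
            gcongr
            · exact b₁ _ _
            · exact b₂ _ _
            · exact b₃ _ _
        _ = Q ^ 3 := by ring
    · rw [indicator_of_notMem h]
      rw [mem_closedBall_zero_iff, not_le] at h
      rw [psi0_zero x.2 (by linarith)]
      simp
  simp only [hpt]
  rw [integral_finsetSum _ (fun p _ => (hint p).const_mul _)]
  apply Finset.sum_congr rfl
  intro p _
  rw [integral_const_mul]
  congr 1
  have := hint p
  rw [mu0] at this ⊢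
  rw [integral_prod _ this]
  congr 1
  ext θ
  simp only [Bq]
  rw [integral_mul_const]

/-- comparison for fixed `(s, k)` -/
theorem lam_close : ∃ C : ℝ, 1 ≤ C ∧ ∀ ρ : ℂ, ∀ C₀ K R r : ℝ, 0 < C₀ → 1 ≤ K → 0 < R → 0 < r →
    ∀ a₁ a₂ a₃ : ℂ → ℂ, Adm C₀ R a₁ → Adm C₀ R a₂ → Adm C₀ R a₃ → ∀ t₁ t₂ t₃ : ℝ, ∀ J : ℕ,
    (∀ t, (hset C₀ K R r t₁ a₁ t).card ≤ J) → (∀ t, (hset C₀ K R r t₂ a₂ t).card ≤ J) →
    (∀ t, (hset C₀ K R r t₃ a₃ t).card ≤ J) → ∀ η : ℝ, 0 < η → η ≤ 1 / 2 → ∀ s : ℂ, ‖s‖ ≤ 2 * η →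
    ∀ k : ℝ, |k| ≤ η →
      ‖LamLoc ρ psi0 (kR R) (gh C₀ K R r t₁ a₁) (gh C₀ K R r t₂ a₂) (gh C₀ K R r t₃ a₃) -
        LamP ρ (mbox (bx C₀ K)) K R (qp K R r t₁ a₁) (qp K R r t₂ a₂) (qp K R r t₃ a₃) s k‖ ≤
      C * (J : ℝ) ^ 3 * (1 + ‖ρ‖) *
        (η + η * (1 / r + R / K) + (C₀ + 2) * R * η ^ 2 + (1 / r + R / K) / R) := by
  obtain ⟨C, hC, hpt⟩ := pointwise
  obtain ⟨κ₁, κ₂, hκ₁, hκ₂, hkR⟩ := kR_facts
  obtain ⟨C', hC', hgh⟩ := gh_approx
  refine ⟨8 * π ^ 2 * C * (κ₁ + κ₂ + 1), ?_, ?_⟩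
  · have hpi := Real.pi_gt_three
    have h1 : 1 ≤ 8 * π ^ 2 := by nlinarith
    have h2 : 1 ≤ 8 * π ^ 2 * C := by nlinarith
    nlinarith
  intro ρ C₀ K R r hC₀ hK hR hr a₁ a₂ a₃ A₁ A₂ A₃ t₁ t₂ t₃ J J₁ J₂ J₃ η hη hη2 s hs k hk
  have hK0 : 0 < K := by linarith
  have hJ0 : (0 : ℝ) ≤ J := Nat.cast_nonneg _
  obtain ⟨k1, k2, k3, k4, k5⟩ := hkR R hR
  obtain ⟨s₁, b₁, -⟩ := hgh C₀ K R r t₁ hC₀ hK hR hr a₁ A₁ J J₁
  obtain ⟨s₂, b₂, -⟩ := hgh C₀ K R r t₂ hC₀ hK hR hr a₂ A₂ J J₂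
  obtain ⟨s₃, b₃, -⟩ := hgh C₀ K R r t₃ hC₀ hK hR hr a₃ A₃ J J₃
  have c₁ := gh_cont C₀ K R r t₁ hr a₁ A₁.nice
  have c₂ := gh_cont C₀ K R r t₂ hr a₂ A₂.nice
  have c₃ := gh_cont C₀ K R r t₃ hr a₃ A₃.nice
  have cq₁ := fun m => qp_cont K R r t₁ hr a₁ A₁.nice m
  have cq₂ := fun m => qp_cont K R r t₂ hr a₂ A₂.nice m
  have cq₃ := fun m => qp_cont K R r t₃ hr a₃ A₃.nice m
  -- the pieces are bounded: use `C'`
  obtain ⟨C1, hC1, hpm⟩ := pm_facts
  have hwt1 : ∀ (th : ℝ) (a : ℂ → ℂ), Nice a → ∀ m x, hwt K R r th a m x ≤ 1 := by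
    intro th a ha m x
    rw [hwt_eq2]
    calc ∫ t, psr r (x - t) ^ 2 * hv K R r th a m t ≤ ∫ t, psr r (x - t) ^ 2 := by
          apply integral_mono (hwt_int K R r th hr a ha m x) ((psr_sq_int hr).comp_sub_left x)
          intro t
          exact mul_le_of_le_one_right (sq_nonneg _) (hv_le_one _ _ _ _ _ _ _)
      _ = 1 := by
          rw [integral_sub_left_eq_self (μ := volume) (fun y : ℂ => psr r y ^ 2) x,
            psr_sq_integral hr]
  have hqb : ∀ (th : ℝ) (a : ℂ → ℂ), Adm C₀ R a → ∀ m x, ‖qp K R r th a m x‖ ≤ C1 := by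
    intro th a ha m x
    rw [qp, norm_mul, Complex.norm_real, Real.norm_of_nonneg (hwt_nonneg _ _ _ _ _ _ _)]
    calc hwt K R r th a m x * ‖pm K R a m x‖ ≤ 1 * C1 :=
          mul_le_mul (hwt1 th a ha.nice m x) ((hpm K R hK0 hR a ha.nice ha.bound m).2.1 x)
            (norm_nonneg _) (by norm_num)
      _ = C1 := one_mul _
  -- the two functions
  obtain ⟨F, hF⟩ : ∃ F : ℂ → ℝ × ℂ → ℂ, F = fun w x => (psi0 (x.2 + s) : ℂ) *
      gh C₀ K R r t₁ a₁ (x.2 + s) * gh C₀ K R r t₂ a₂ (x.2 + s + (cis (x.1 + k) + w)) *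
      gh C₀ K R r t₃ a₃ (x.2 + s + ρ * (cis (x.1 + k) + w)) := ⟨_, rfl⟩
  obtain ⟨F', hF'⟩ : ∃ F' : ℂ → ℝ × ℂ → ℂ, F' = fun w x => (psi0 x.2 : ℂ) *
      Gx C₀ K R r t₁ a₁ x.2 s *
      Gx C₀ K R r t₂ a₂ (x.2 + cis x.1) (s + ((k : ℂ) * (Complex.I * cis x.1) + w)) *
      Gx C₀ K R r t₃ a₃ (x.2 + ρ * cis x.1) (s + ρ * ((k : ℂ) * (Complex.I * cis x.1) + w)) :=
    ⟨_, rfl⟩
  have ccis := continuous_cis
  have cpsi := psi0_smooth.continuous
  have cex := continuous_ex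
  have hFc : Continuous (fun y : ℂ × ℝ × ℂ => F y.1 y.2) := by
    rw [hF]
    fun_prop
  have hF'c : Continuous (fun y : ℂ × ℝ × ℂ => F' y.1 y.2) := by
    rw [hF']
    unfold Gx
    fun_prop
  have hFb : ∀ w x, ‖F w x‖ ≤ (closedBall (0 : ℂ) 2).indicator (fun _ => (C' * J) ^ 3) x.2 := by
    intro w x
    rw [hF]
    by_cases h : x.2 ∈ closedBall (0 : ℂ) 2
    · rw [indicator_of_mem h]
      simp only
      rw [norm_mul, norm_mul, norm_mul, Complex.norm_real, Real.norm_of_nonneg (psi0_nonneg _)]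
      have h2 := psi0_nonneg (x.2 + s)
      calc _ ≤ 1 * (C' * J) * (C' * J) * (C' * J) := by
            gcongr
            · exact psi0_le_one _
            · exact b₁ _
            · exact b₂ _
            · exact b₃ _
        _ = _ := by ring
    · rw [indicator_of_notMem h]
      rw [mem_closedBall_zero_iff, not_le] at h
      have h2 : psi0 (x.2 + s) = 0 := by
        apply psi0_zero
        have : ‖x.2‖ ≤ ‖x.2 + s‖ + ‖s‖ := by
          calc ‖x.2‖ = ‖(x.2 + s) - s‖ := by rw [add_sub_cancel_right]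
            _ ≤ _ := norm_sub_le _ _
        linarith
      simp only [h2]
      simp
  have hdb : ∀ w x, ‖F w x - F' w x‖ ≤ (closedBall (0 : ℂ) 2).indicator (fun _ =>
      C * (J : ℝ) ^ 3 * (1 + ‖ρ‖) *
        (η + (η + ‖w‖) * (1 / r + R / K) + (C₀ + 2) * R * η ^ 2)) x.2 := by
    intro w x
    rw [hF, hF']
    exact hpt ρ C₀ K R r hC₀ hK hR hr a₁ a₂ a₃ A₁ A₂ A₃ t₁ t₂ t₃ J J₁ J₂ J₃ η hη hη2 s hs k hk
      w x.2 x.1
  have hFi : ∀ w, Integrable (F w) mu0 := fun w =>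
    mu0_integrable _ (hFc.comp (Continuous.prodMk_right w)) _ (hFb w)
  have hF'i : ∀ w, Integrable (F' w) mu0 := by
    intro w
    have h1 : Integrable (fun x => F w x - F' w x) mu0 :=
      mu0_integrable _ ((hFc.comp (Continuous.prodMk_right w)).sub
        (hF'c.comp (Continuous.prodMk_right w))) _ (hdb w)
    have h2 := (hFi w).sub h1
    refine h2.congr (Eventually.of_forall fun x => ?_)
    simp
  have hJf : ∀ w, Jf ρ (gh C₀ K R r t₁ a₁) (gh C₀ K R r t₂ a₂) (gh C₀ K R r t₃ a₃) w =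
      ∫ x, F w x ∂mu0 := by
    intro w
    rw [Jf_shift ρ _ _ _ w s k]
    have := hFi w
    rw [mu0] at this ⊢
    rw [integral_prod _ this, hF]
  have hG' : ∀ w, ∫ x, F' w x ∂mu0 = ∑ p ∈ mbox (bx C₀ K) ×ˢ mbox (bx C₀ K) ×ˢ mbox (bx C₀ K),
      ex (R * (conj (SN K p) * s).re) * ex (R * (conj (zN ρ K p) * w).re) *
      ∫ θ in Ioc 0 (2 * π), Bq ρ (qp K R r t₁ a₁) (qp K R r t₂ a₂) (qp K R r t₃ a₃) p θ *
        ex (R * (conj (zN ρ K p) * (Complex.I * cis θ)).re * k) := by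
    intro w
    rw [hF']
    exact inner_eval ρ (mbox (bx C₀ K)) K R _ _ _ cq₁ cq₂ cq₃ C1 (by linarith)
      (hqb t₁ a₁ A₁) (hqb t₂ a₂ A₂) (hqb t₃ a₃ A₃) s w k
  -- integrate over `w`
  have hexint : ∀ ζ : ℂ, Integrable (fun w => kR R w * ex (R * (conj ζ * w).re)) := by
    intro ζ
    apply k1.norm.mono'
    · apply k1.aestronglyMeasurable.mul
      apply Continuous.aestronglyMeasurable
      fun_prop
    · refine Eventually.of_forall fun w => ?_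
      rw [norm_mul, norm_ex, mul_one]
  have hLamP : LamP ρ (mbox (bx C₀ K)) K R (qp K R r t₁ a₁) (qp K R r t₂ a₂) (qp K R r t₃ a₃) s k =
      ∫ w, kR R w * ∫ x, F' w x ∂mu0 := by
    simp only [hG', Finset.mul_sum]
    have hre : ∀ (p : Tr) (w : ℂ), kR R w * (ex (R * (conj (SN K p) * s).re) *
        ex (R * (conj (zN ρ K p) * w).re) *
        ∫ θ in Ioc 0 (2 * π), Bq ρ (qp K R r t₁ a₁) (qp K R r t₂ a₂) (qp K R r t₃ a₃) p θ *
        ex (R * (conj (zN ρ K p) * (Complex.I * cis θ)).re * k)) =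
        (kR R w * ex (R * (conj (zN ρ K p) * w).re)) * (ex (R * (conj (SN K p) * s).re) *
        ∫ θ in Ioc 0 (2 * π), Bq ρ (qp K R r t₁ a₁) (qp K R r t₂ a₂) (qp K R r t₃ a₃) p θ *
        ex (R * (conj (zN ρ K p) * (Complex.I * cis θ)).re * k)) := by
      intro p w
      ring
    simp only [hre]
    rw [integral_finsetSum _ (fun p _ => (hexint (zN ρ K p)).mul_const _)]
    unfold LamP
    apply Finset.sum_congr rfl
    intro p _
    rw [integral_mul_const, k5]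
    ring
  have hmeasF : StronglyMeasurable (fun w => ∫ x, F w x ∂mu0) := by
    have : StronglyMeasurable (fun y : ℂ × ℝ × ℂ => F y.1 y.2) := hFc.stronglyMeasurable
    have hs : SFinite mu0 := by unfold mu0; infer_instance
    exact this.integral_prod_right' (ν := mu0)
  have hmeasF' : StronglyMeasurable (fun w => ∫ x, F' w x ∂mu0) := by
    have : StronglyMeasurable (fun y : ℂ × ℝ × ℂ => F' y.1 y.2) := hF'c.stronglyMeasurable
    have hs : SFinite mu0 := by unfold mu0; infer_instance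
    exact this.integral_prod_right' (ν := mu0)
  obtain ⟨U, hU⟩ : ∃ U : ℂ → ℝ, U = fun w => C * (J : ℝ) ^ 3 * (1 + ‖ρ‖) *
        (η + (η + ‖w‖) * (1 / r + R / K) + (C₀ + 2) * R * η ^ 2) := ⟨_, rfl⟩
  have hd8 : ∀ w, ‖(∫ x, F w x ∂mu0) - ∫ x, F' w x ∂mu0‖ ≤ 8 * π ^ 2 * U w := by
    intro w
    rw [← integral_sub (hFi w) (hF'i w), hU]
    exact mu0_integral_bound _ _ (hdb w)
  have hUexp : ∀ w : ℂ, ‖kR R w‖ * (8 * π ^ 2 * U w) =
      8 * π ^ 2 * (C * (J : ℝ) ^ 3 * (1 + ‖ρ‖) *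
        (η + η * (1 / r + R / K) + (C₀ + 2) * R * η ^ 2)) * ‖kR R w‖ +
      8 * π ^ 2 * (C * (J : ℝ) ^ 3 * (1 + ‖ρ‖) * (1 / r + R / K)) * (‖kR R w‖ * ‖w‖) := by
    intro w
    rw [hU]
    ring
  have hUint : Integrable (fun w => ‖kR R w‖ * (8 * π ^ 2 * U w)) := by
    simp only [hUexp]
    exact (k1.norm.const_mul _).add (k3.const_mul _)
  have hint1 : Integrable (fun w => kR R w * ∫ x, F w x ∂mu0) := by
    apply (k1.norm.mul_const (8 * π ^ 2 * (C' * J) ^ 3)).mono'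
    · exact k1.aestronglyMeasurable.mul hmeasF.aestronglyMeasurable
    · refine Eventually.of_forall fun w => ?_
      rw [norm_mul]
      exact mul_le_mul_of_nonneg_left (mu0_integral_bound _ _ (hFb w)) (norm_nonneg _)
  have hint3 : Integrable (fun w => kR R w * ((∫ x, F w x ∂mu0) - ∫ x, F' w x ∂mu0)) := by
    apply hUint.mono'
    · exact k1.aestronglyMeasurable.mul (hmeasF.sub hmeasF').aestronglyMeasurable
    · refine Eventually.of_forall fun w => ?_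
      rw [norm_mul]
      exact mul_le_mul_of_nonneg_left (hd8 w) (norm_nonneg _)
  have hint2 : Integrable (fun w => kR R w * ∫ x, F' w x ∂mu0) := by
    refine (hint1.sub hint3).congr (Eventually.of_forall fun w => ?_)
    simp only [Pi.sub_apply]
    ring
  rw [lamLoc_eq, hLamP]
  simp only [hJf]
  rw [← integral_sub hint1 hint2]
  have hfin : ‖∫ w, (kR R w * (∫ x, F w x ∂mu0) - kR R w * ∫ x, F' w x ∂mu0)‖ ≤
      ∫ w, ‖kR R w‖ * (8 * π ^ 2 * U w) := by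
    apply norm_integral_le_of_norm_le hUint
    refine Eventually.of_forall fun w => ?_
    rw [← mul_sub, norm_mul]
    exact mul_le_mul_of_nonneg_left (hd8 w) (norm_nonneg _)
  refine hfin.trans ?_
  simp only [hUexp]
  rw [integral_add (k1.norm.const_mul _) (k3.const_mul _), integral_const_mul, integral_const_mul]
  have hρ : 0 ≤ ‖ρ‖ := norm_nonneg _
  calc _ ≤ 8 * π ^ 2 * (C * (J : ℝ) ^ 3 * (1 + ‖ρ‖) *
        (η + η * (1 / r + R / K) + (C₀ + 2) * R * η ^ 2)) * κ₁ +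
      8 * π ^ 2 * (C * (J : ℝ) ^ 3 * (1 + ‖ρ‖) * (1 / r + R / K)) * (κ₂ / R) := by
        gcongr
    _ = 8 * π ^ 2 * C * ((J : ℝ) ^ 3 * (1 + ‖ρ‖)) *
        (κ₁ * (η + η * (1 / r + R / K) + (C₀ + 2) * R * η ^ 2) +
          κ₂ * ((1 / r + R / K) / R)) := by ring
    _ ≤ 8 * π ^ 2 * C * ((J : ℝ) ^ 3 * (1 + ‖ρ‖)) *
        ((κ₁ + κ₂ + 1) * (η + η * (1 / r + R / K) + (C₀ + 2) * R * η ^ 2) +
          (κ₁ + κ₂ + 1) * ((1 / r + R / K) / R)) := by
        gcongr <;> linarith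
    _ = _ := by ring

end Pool.Agent.H24.Tri.Aux58
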