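import Pool.Agent.H58.Tri.ExE

set_option autoImplicit false

open MeasureTheory Set Complex Metric Filter Topology
open scoped Real ENNReal NNReal FourierTransform ComplexConjugate

namespace Pool.Agent.H24.Tri.Aux58

theorem cont_ex_lin (x : ℝ) : Continuous (fun t : ℝ => ex (x * t)) :=
  continuous_ex.comp (continuous_const.mul continuous_id)

theorem intOn_ex (η x : ℝ) : IntegrableOn (fun t : ℝ => ex (x * t)) (Ioc 0 η) :=
  (cont_ex_lin x).integrableOn_Ioc

/-- phase of the `z`-shift splits into the two coordinates -/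
theorem ex_split (R : ℝ) (S : ℂ) (s₁ s₂ : ℝ) :
    ex (R * (conj S * ((s₁ : ℂ) + (s₂ : ℂ) * Complex.I)).re) =
      ex (R * S.re * s₁) * ex (R * S.im * s₂) := by
  rw [← ex_add]
  congr 1
  simp [Complex.mul_re]
  ring

theorem norm_box (η s₁ s₂ : ℝ) (h₁ : s₁ ∈ Ioc 0 η) (h₂ : s₂ ∈ Ioc 0 η) :
    ‖(s₁ : ℂ) + (s₂ : ℂ) * Complex.I‖ ≤ 2 * η := by
  refine (norm_add_le _ _).trans ?_
  rw [norm_mul, Complex.norm_I, mul_one, Complex.norm_real, Complex.norm_real,
    Real.norm_of_nonneg h₁.1.le, Real.norm_of_nonneg h₂.1.le]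
  linarith [h₁.2, h₂.2]

/-- average over `s` and `k` -/
theorem av_lamP (ρ : ℂ) (M : Finset (ℤ × ℤ)) (K R : ℝ) (q₁ q₂ q₃ : ℤ × ℤ → ℂ → ℂ)
    (h₁ : ∀ m, Continuous (q₁ m)) (h₂ : ∀ m, Continuous (q₂ m)) (h₃ : ∀ m, Continuous (q₃ m))
    (Q : ℝ) (hQ : 0 ≤ Q)
    (b₁ : ∀ m x, ‖q₁ m x‖ ≤ Q) (b₂ : ∀ m x, ‖q₂ m x‖ ≤ Q) (b₃ : ∀ m x, ‖q₃ m x‖ ≤ Q)
    (η : ℝ) (hη : 0 < η) (L : ℂ) (e : ℝ)
    (hL : ∀ s : ℂ, ‖s‖ ≤ 2 * η → ∀ k : ℝ, |k| ≤ η →
      ‖L - LamP ρ M K R q₁ q₂ q₃ s k‖ ≤ e) :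
    ‖L - ∑ p ∈ M ×ˢ M ×ˢ M, av η (fun t => ex (R * (SN K p).re * t)) *
      av η (fun t => ex (R * (SN K p).im * t)) * kapC (-zN ρ K p) *
      ∫ θ in Ioc 0 (2 * π), Bq ρ q₁ q₂ q₃ p θ *
        av η (fun k => ex (R * (conj (zN ρ K p) * (Complex.I * cis θ)).re * k))‖ ≤ e := by
  -- the functions `b_p(k)`
  obtain ⟨b, hb⟩ : ∃ b : Tr → ℝ → ℂ, b = fun p k => ∫ θ in Ioc 0 (2 * π),
    Bq ρ q₁ q₂ q₃ p θ * ex (R * (conj (zN ρ K p) * (Complex.I * cis θ)).re * k) := ⟨_, rfl⟩
  have hBm := fun p => Bq_meas ρ q₁ q₂ q₃ h₁ h₂ h₃ p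
  have hBb := fun p θ => Bq_bound ρ q₁ q₂ q₃ Q hQ b₁ b₂ b₃ p θ
  have ccis := continuous_cis
  have cex := continuous_ex
  have hjoint : ∀ p : Tr, StronglyMeasurable (fun y : ℝ × ℝ => Bq ρ q₁ q₂ q₃ p y.2 *
      ex (R * (conj (zN ρ K p) * (Complex.I * cis y.2)).re * y.1)) := by
    intro p
    apply ((hBm p).comp_measurable measurable_snd).mul
    apply Continuous.stronglyMeasurable
    fun_prop
  have hbm : ∀ p, StronglyMeasurable (b p) := by
    intro p
    rw [hb]
    exact (hjoint p).integral_prod_right' (ν := volume.restrict (Ioc 0 (2 * π)))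
  have hbb : ∀ p k, ‖b p k‖ ≤ 4 * π * Q ^ 3 * (2 * π) := by
    intro p k
    rw [hb]
    have := norm_setIntegral_le_of_norm_le_const (μ := volume) (s := Ioc (0 : ℝ) (2 * π))
      (f := fun θ => Bq ρ q₁ q₂ q₃ p θ * ex (R * (conj (zN ρ K p) * (Complex.I * cis θ)).re * k))
      (C := 4 * π * Q ^ 3) measure_Ioc_lt_top (fun θ _ => by
        rw [norm_mul, norm_ex, mul_one]
        exact hBb p θ)
    refine this.trans (le_of_eq ?_)
    rw [Measure.real, Real.volume_Ioc, sub_zero, ENNReal.toReal_ofReal (by positivity)]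
  have hbi : ∀ p, IntegrableOn (b p) (Ioc 0 η) := by
    intro p
    apply Integrable.mono' (integrable_const (4 * π * Q ^ 3 * (2 * π)))
      (hbm p).aestronglyMeasurable
    exact Eventually.of_forall (hbb p)
  -- step (i)
  have st1 : ∀ s₁ ∈ Ioc 0 η, ∀ s₂ ∈ Ioc 0 η, ‖L - ∑ p ∈ M ×ˢ M ×ˢ M,
      ex (R * (SN K p).re * s₁) * ex (R * (SN K p).im * s₂) * kapC (-zN ρ K p) *
        av η (b p)‖ ≤ e := by
    intro s₁ hs₁ s₂ hs₂
    have := av_close η hη L (fun k => ∑ p ∈ M ×ˢ M ×ˢ M,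
      ex (R * (SN K p).re * s₁) * ex (R * (SN K p).im * s₂) * kapC (-zN ρ K p) * b p k) e
      (by
        intro k hk
        have h5 := hL ((s₁ : ℂ) + (s₂ : ℂ) * Complex.I) (norm_box η s₁ s₂ hs₁ hs₂) k
          (by rw [abs_of_pos hk.1]; exact hk.2)
        rw [LamP] at h5
        simp only [ex_split] at h5
        rw [hb]
        exact h5)
      (integrable_finsetSum _ fun p _ => (hbi p).const_mul _)
    rw [av_sum _ _ _ (fun p _ => (hbi p).const_mul _)] at this
    simp only [av_const_mul] at this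
    exact this
  -- step (ii)
  have st2 : ∀ s₁ ∈ Ioc 0 η, ‖L - ∑ p ∈ M ×ˢ M ×ˢ M,
      ex (R * (SN K p).re * s₁) * av η (fun t => ex (R * (SN K p).im * t)) * kapC (-zN ρ K p) *
        av η (b p)‖ ≤ e := by
    intro s₁ hs₁
    have hi : ∀ p ∈ M ×ˢ M ×ˢ M, IntegrableOn (fun s₂ : ℝ => (ex (R * (SN K p).re * s₁) *
        kapC (-zN ρ K p) * av η (b p)) * ex (R * (SN K p).im * s₂)) (Ioc 0 η) := fun p _ =>
      (intOn_ex η (R * (SN K p).im)).const_mul _
    have := av_close η hη L (fun s₂ => ∑ p ∈ M ×ˢ M ×ˢ M,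
      (ex (R * (SN K p).re * s₁) * kapC (-zN ρ K p) * av η (b p)) *
        ex (R * (SN K p).im * s₂)) e
      (by
        intro s₂ hs₂
        have h5 := st1 s₁ hs₁ s₂ hs₂
        refine le_trans (le_of_eq ?_) h5
        congr 2
        apply Finset.sum_congr rfl
        intro p _
        ring)
      (integrable_finsetSum _ hi)
    rw [av_sum _ _ _ hi] at this
    simp only [av_const_mul] at this
    refine le_trans (le_of_eq ?_) this
    congr 2
    apply Finset.sum_congr rfl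
    intro p _
    ring
  -- step (iii)
  have st3 : ‖L - ∑ p ∈ M ×ˢ M ×ˢ M,
      av η (fun t => ex (R * (SN K p).re * t)) * av η (fun t => ex (R * (SN K p).im * t)) *
        kapC (-zN ρ K p) * av η (b p)‖ ≤ e := by
    have hi : ∀ p ∈ M ×ˢ M ×ˢ M, IntegrableOn (fun s₁ : ℝ =>
        (av η (fun t => ex (R * (SN K p).im * t)) *
        kapC (-zN ρ K p) * av η (b p)) * ex (R * (SN K p).re * s₁)) (Ioc 0 η) := fun p _ =>
      (intOn_ex η (R * (SN K p).re)).const_mul _
    have := av_close η hη L (fun s₁ => ∑ p ∈ M ×ˢ M ×ˢ M,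
      (av η (fun t => ex (R * (SN K p).im * t)) * kapC (-zN ρ K p) * av η (b p)) *
        ex (R * (SN K p).re * s₁)) e
      (by
        intro s₁ hs₁
        have h5 := st2 s₁ hs₁
        refine le_trans (le_of_eq ?_) h5
        congr 2
        apply Finset.sum_congr rfl
        intro p _
        ring)
      (integrable_finsetSum _ hi)
    rw [av_sum _ _ _ hi] at this
    simp only [av_const_mul] at this
    refine le_trans (le_of_eq ?_) this
    congr 2
    apply Finset.sum_congr rfl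
    intro p _
    ring
  -- step (iv)
  have st4 : ∀ p, av η (b p) = ∫ θ in Ioc 0 (2 * π), Bq ρ q₁ q₂ q₃ p θ *
        av η (fun k => ex (R * (conj (zN ρ K p) * (Complex.I * cis θ)).re * k)) := by
    intro p
    have hprod : Integrable (fun y : ℝ × ℝ => Bq ρ q₁ q₂ q₃ p y.2 *
        ex (R * (conj (zN ρ K p) * (Complex.I * cis y.2)).re * y.1))
        ((volume.restrict (Ioc 0 η)).prod (volume.restrict (Ioc 0 (2 * π)))) := by
      apply Integrable.mono' (integrable_const (4 * π * Q ^ 3)) (hjoint p).aestronglyMeasurable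
      refine Eventually.of_forall fun y => ?_
      rw [norm_mul, norm_ex, mul_one]
      exact hBb p y.2
    have hswap := integral_integral_swap (μ := volume.restrict (Ioc 0 η))
      (ν := volume.restrict (Ioc 0 (2 * π)))
      (f := fun k θ => Bq ρ q₁ q₂ q₃ p θ *
        ex (R * (conj (zN ρ K p) * (Complex.I * cis θ)).re * k)) hprod
    have e1 : av η (b p) = ((η⁻¹ : ℝ) : ℂ) * ∫ k in Ioc 0 η, ∫ θ in Ioc 0 (2 * π),
        Bq ρ q₁ q₂ q₃ p θ * ex (R * (conj (zN ρ K p) * (Complex.I * cis θ)).re * k) := by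
      rw [hb]; rfl
    rw [e1, hswap, ← integral_const_mul]
    congr 1
    ext θ
    rw [← av_const_mul]
    rfl
  simp only [st4] at st3
  exact st3

/-- resonance of an index triple -/
def Rs (ρ : ℂ) (K τ : ℝ) (p : Tr) (θ : ℝ) : Prop :=
  ‖SN K p‖ ≤ τ ∧ |(conj (Complex.I * cis θ) * zN ρ K p).re| ≤ τ ∧ 1 ≤ ‖zN ρ K p‖

theorem Rs_meas (ρ : ℂ) (K τ : ℝ) (p : Tr) : MeasurableSet {θ | Rs ρ K τ p θ} := by
  unfold Rs
  have ccis := continuous_cis
  have h : IsClosed {θ : ℝ | |(conj (Complex.I * cis θ) * zN ρ K p).re| ≤ τ} := by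
    apply isClosed_le _ continuous_const
    fun_prop
  by_cases h1 : ‖SN K p‖ ≤ τ
  · by_cases h2 : 1 ≤ ‖zN ρ K p‖
    · simpa [h1, h2] using h.measurableSet
    · simp [h2]
  · simp [h1]

open Classical in
theorem factor_bound (ρ : ℂ) (K R τ H η : ℝ) (hR : 0 < R) (hτ : 0 < τ) (hH : 0 < H)
    (hη : η = H / R) (p : Tr) (θ : ℝ) :
    ‖av η (fun t => ex (R * (SN K p).re * t))‖ * ‖av η (fun t => ex (R * (SN K p).im * t))‖ *
      ‖kapC (-zN ρ K p)‖ *
      ‖av η (fun k => ex (R * (conj (zN ρ K p) * (Complex.I * cis θ)).re * k))‖ ≤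
    (if Rs ρ K τ p θ then 1 else 0) + 1 / (H * τ) := by
  have hηp : 0 < η := by rw [hη]; positivity
  have f1 := av_ex_le_one η (R * (SN K p).re) hηp
  have f2 := av_ex_le_one η (R * (SN K p).im) hηp
  have f3 := kapC_le (-zN ρ K p)
  have f4 := av_ex_le_one η (R * (conj (zN ρ K p) * (Complex.I * cis θ)).re) hηp
  have n1 := norm_nonneg (av η (fun t => ex (R * (SN K p).re * t)))
  have n2 := norm_nonneg (av η (fun t => ex (R * (SN K p).im * t)))
  have n3 := norm_nonneg (kapC (-zN ρ K p))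
  have n4 := norm_nonneg (av η (fun k => ex (R * (conj (zN ρ K p) * (Complex.I * cis θ)).re * k)))
  have hsmall : ∀ x : ℝ, τ / 2 < |x| → ‖av η (fun t => ex (R * x * t))‖ ≤ 1 / (H * τ) := by
    intro x hx
    have hx0 : 0 < |x| := by linarith [half_pos hτ]
    have hne : R * x ≠ 0 := mul_ne_zero hR.ne' (abs_pos.mp hx0)
    refine (av_ex_le η (R * x) hηp hne).trans ?_
    rw [abs_mul, abs_of_pos hR, hη]
    have e : π * (R * |x|) * (H / R) = π * |x| * H := by field_simp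
    rw [e]
    apply one_div_le_one_div_of_le (by positivity)
    have h2 : 2 ≤ π := by linarith [Real.pi_gt_three]
    calc H * τ = 2 * (τ / 2) * H := by ring
      _ ≤ π * |x| * H := by gcongr
  have hHτ : 0 < 1 / (H * τ) := by positivity
  by_cases hres : Rs ρ K τ p θ
  · rw [if_pos hres]
    have : ‖av η (fun t => ex (R * (SN K p).re * t))‖ * ‖av η (fun t => ex (R * (SN K p).im * t))‖ *
      ‖kapC (-zN ρ K p)‖ *
      ‖av η (fun k => ex (R * (conj (zN ρ K p) * (Complex.I * cis θ)).re * k))‖ ≤ 1 * 1 * 1 * 1 := by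
      gcongr
    linarith
  · rw [if_neg hres, zero_add]
    unfold Rs at hres
    by_cases h1 : ‖SN K p‖ ≤ τ
    · by_cases h3 : 1 ≤ ‖zN ρ K p‖
      · have h2 : ¬ |(conj (Complex.I * cis θ) * zN ρ K p).re| ≤ τ := fun h2 => hres ⟨h1, h2, h3⟩
        have e : (conj (Complex.I * cis θ) * zN ρ K p).re =
            (conj (zN ρ K p) * (Complex.I * cis θ)).re := by
          rw [← Complex.conj_re (conj (Complex.I * cis θ) * zN ρ K p)]
          congr 1
          rw [map_mul, Complex.conj_conj]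
          ring
        rw [e, not_le] at h2
        have h5 := hsmall _ (by linarith [half_pos hτ] : τ / 2 <
          |(conj (zN ρ K p) * (Complex.I * cis θ)).re|)
        calc _ ≤ 1 * 1 * 1 * (1 / (H * τ)) := by gcongr
          _ = _ := by ring
      · rw [not_le] at h3
        have : kapC (-zN ρ K p) = 0 := kapC_inner _ (by rw [norm_neg]; exact h3.le)
        rw [this]
        simp only [norm_zero, mul_zero, zero_mul]
        exact hHτ.le
    · rw [not_le] at h1
      have h6 := Complex.norm_le_abs_re_add_abs_im (SN K p)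
      by_cases h7 : τ / 2 < |(SN K p).re|
      · have h5 := hsmall _ h7
        calc _ ≤ (1 / (H * τ)) * 1 * 1 * 1 := by gcongr
          _ = _ := by ring
      · have h8 : τ / 2 < |(SN K p).im| := by
          rw [not_lt] at h7
          linarith
        have h5 := hsmall _ h8
        calc _ ≤ 1 * (1 / (H * τ)) * 1 * 1 := by gcongr
          _ = _ := by ring

end Pool.Agent.H24.Tri.Aux58
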