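import Pool.Agent.H58.Tri.ExF

set_option autoImplicit false

open MeasureTheory Set Complex Metric Filter Topology
open scoped Real ENNReal NNReal FourierTransform ComplexConjugate

namespace Pool.Agent.H24.Tri.Aux58

/-- selection of the `j`-th element -/
noncomputable def sel (F : Finset (ℤ × ℤ)) (j : ℕ) : ℤ × ℤ := F.toList.getD j 0

theorem sel_sum (F : Finset (ℤ × ℤ)) (J : ℕ) (hJ : F.card ≤ J) (f : ℤ × ℤ → ℝ≥0∞) :
    ∑ m ∈ F, f m ≤ ∑ j ∈ Finset.range J, f (sel F j) := by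
  have h1 : ∑ m ∈ F, f m = ∑ j ∈ Finset.range F.card, f (sel F j) := by
    rw [← Finset.sum_map_toList, Finset.sum_range, ← Fin.sum_univ_getElem]
    have hlen : (F.toList.map f).length = F.card := by simp
    refine Fintype.sum_equiv (finCongr hlen) _ _ ?_
    intro i
    have hi : (i : ℕ) < F.toList.length := by simpa using i.2
    simp only [sel, finCongr_apply, Fin.val_cast]
    rw [List.getD_eq_getElem _ _ hi, List.getElem_map]
  rw [h1]
  apply Finset.sum_le_sum_of_subset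
  exact Finset.range_subset_range.mpr hJ

theorem sel_mem_or (F : Finset (ℤ × ℤ)) (j : ℕ) : sel F j ∈ F ∨ sel F j = 0 := by
  unfold sel
  by_cases h : j < F.toList.length
  · left
    rw [List.getD_eq_getElem _ _ h]
    exact Finset.mem_toList.mp (List.getElem_mem h)
  · right
    exact List.getD_eq_default _ _ (not_lt.mp h)

/-- the probability measure with density `psr r ^ 2` -/
noncomputable def Om (r : ℝ) : Measure ℂ := volume.withDensity fun s => ENNReal.ofReal (psr r s ^ 2)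

theorem om_prob (r : ℝ) (hr : 0 < r) : IsProbabilityMeasure (Om r) := by
  constructor
  rw [Om, withDensity_apply _ MeasurableSet.univ, Measure.restrict_univ,
    ← ofReal_integral_eq_lintegral_ofReal (psr_sq_int hr) (Eventually.of_forall fun _ => sq_nonneg _),
    psr_sq_integral hr, ENNReal.ofReal_one]

theorem hwt_lint (K R r th : ℝ) (hr : 0 < r) (a : ℂ → ℂ) (ha : Nice a) (m : ℤ × ℤ) (x : ℂ) :
    ENNReal.ofReal (hwt K R r th a m x) =
      ∫⁻ s, ENNReal.ofReal (hv K R r th a m (x - s)) ∂(Om r) := by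
  have hm : Measurable fun s => ENNReal.ofReal (psr r s ^ 2) :=
    (psr_sq_cont r).measurable.ennreal_ofReal
  have hm2 : Measurable fun s => ENNReal.ofReal (hv K R r th a m (x - s)) :=
    ((hv_meas K R r th a ha m).comp (measurable_const.sub measurable_id)).ennreal_ofReal
  rw [Om, lintegral_withDensity_eq_lintegral_mul _ hm hm2, hwt_eq]
  have hint : Integrable (fun s => psr r s ^ 2 * hv K R r th a m (x - s)) := by
    have := (hwt_int K R r th hr a ha m x).comp_sub_left x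
    simpa using this
  rw [ofReal_integral_eq_lintegral_ofReal hint
    (Eventually.of_forall fun s => mul_nonneg (sq_nonneg _) (hv_nonneg _ _ _ _ _ _ _))]
  apply lintegral_congr
  intro s
  rw [Pi.mul_apply, ENNReal.ofReal_mul (sq_nonneg _)]

theorem om_triple (r : ℝ) (hr : 0 < r) (f g h : ℂ → ℝ≥0∞) (hf : Measurable f) (hg : Measurable g)
    (hh : Measurable h) : (∫⁻ s, f s ∂(Om r)) * (∫⁻ s, g s ∂(Om r)) * (∫⁻ s, h s ∂(Om r)) =
      ∫⁻ s : ℂ × ℂ × ℂ, f s.1 * (g s.2.1 * h s.2.2) ∂((Om r).prod ((Om r).prod (Om r))) := by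
  have := om_prob r hr
  rw [lintegral_prod_mul (μ := Om r) (ν := (Om r).prod (Om r)) hf.aemeasurable
    (g := fun y : ℂ × ℂ => g y.1 * h y.2)
    ((hg.comp measurable_fst).mul (hh.comp measurable_snd)).aemeasurable,
    lintegral_prod_mul hg.aemeasurable hh.aemeasurable, mul_assoc]

theorem sum_ite_le (M H : Finset (ℤ × ℤ)) (J : ℕ) (hH : H ⊆ M) (hJ : H.card ≤ J)
    (g : ℤ × ℤ → ℝ≥0∞) :
    ∑ a ∈ M, (if a ∈ H then (1 : ℝ≥0∞) else 0) * g a ≤ ∑ j ∈ Finset.range J, g (sel H j) := by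
  have h1 : ∑ a ∈ M, (if a ∈ H then (1 : ℝ≥0∞) else 0) * g a = ∑ a ∈ H, g a := by
    rw [← Finset.sum_subset hH (f := fun a => (if a ∈ H then (1 : ℝ≥0∞) else 0) * g a)]
    · apply Finset.sum_congr rfl
      intro a ha
      simp [ha]
    · intro a _ ha
      simp [ha]
  rw [h1]
  exact sel_sum H J hJ g

/-- pointwise selection bound -/
theorem sel_triple (M H₁ H₂ H₃ : Finset (ℤ × ℤ)) (J : ℕ) (hs₁ : H₁ ⊆ M) (hs₂ : H₂ ⊆ M)
    (hs₃ : H₃ ⊆ M) (hJ₁ : H₁.card ≤ J) (hJ₂ : H₂.card ≤ J) (hJ₃ : H₃.card ≤ J)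
    (I : Tr → ℝ≥0∞) :
    ∑ p ∈ M ×ˢ M ×ˢ M, (if p.1 ∈ H₁ then (1 : ℝ≥0∞) else 0) *
      ((if p.2.1 ∈ H₂ then (1 : ℝ≥0∞) else 0) * (if p.2.2 ∈ H₃ then (1 : ℝ≥0∞) else 0)) * I p ≤
    ∑ j ∈ (Finset.range J) ×ˢ (Finset.range J) ×ˢ (Finset.range J),
      I (sel H₁ j.1, sel H₂ j.2.1, sel H₃ j.2.2) := by
  rw [Finset.sum_product, Finset.sum_product]
  simp only [Finset.sum_product]
  calc ∑ a ∈ M, ∑ b ∈ M, ∑ c ∈ M, (if a ∈ H₁ then (1 : ℝ≥0∞) else 0) *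
      ((if b ∈ H₂ then (1 : ℝ≥0∞) else 0) * (if c ∈ H₃ then (1 : ℝ≥0∞) else 0)) * I (a, b, c)
      = ∑ a ∈ M, (if a ∈ H₁ then (1 : ℝ≥0∞) else 0) * ∑ b ∈ M,
        (if b ∈ H₂ then (1 : ℝ≥0∞) else 0) * ∑ c ∈ M,
          (if c ∈ H₃ then (1 : ℝ≥0∞) else 0) * I (a, b, c) := by
        apply Finset.sum_congr rfl
        intro a _
        rw [Finset.mul_sum]
        apply Finset.sum_congr rfl
        intro b _
        rw [Finset.mul_sum, Finset.mul_sum]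
        apply Finset.sum_congr rfl
        intro c _
        ring
    _ ≤ ∑ i ∈ Finset.range J, ∑ b ∈ M,
        (if b ∈ H₂ then (1 : ℝ≥0∞) else 0) * ∑ c ∈ M,
          (if c ∈ H₃ then (1 : ℝ≥0∞) else 0) * I (sel H₁ i, b, c) :=
        sum_ite_le M H₁ J hs₁ hJ₁ (fun a => ∑ b ∈ M,
        (if b ∈ H₂ then (1 : ℝ≥0∞) else 0) * ∑ c ∈ M,
          (if c ∈ H₃ then (1 : ℝ≥0∞) else 0) * I (a, b, c))
    _ ≤ ∑ i ∈ Finset.range J, ∑ j ∈ Finset.range J, ∑ c ∈ M,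
          (if c ∈ H₃ then (1 : ℝ≥0∞) else 0) * I (sel H₁ i, sel H₂ j, c) := by
        apply Finset.sum_le_sum
        intro i _
        exact sum_ite_le M H₂ J hs₂ hJ₂ (fun b => ∑ c ∈ M,
          (if c ∈ H₃ then (1 : ℝ≥0∞) else 0) * I (sel H₁ i, b, c))
    _ ≤ ∑ i ∈ Finset.range J, ∑ j ∈ Finset.range J, ∑ l ∈ Finset.range J,
          I (sel H₁ i, sel H₂ j, sel H₃ l) := by
        apply Finset.sum_le_sum
        intro i _
        apply Finset.sum_le_sum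
        intro j _
        exact sum_ite_le M H₃ J hs₃ hJ₃ (fun c => I (sel H₁ i, sel H₂ j, c))

theorem resSet_meas (ρ : ℂ) (D τ : ℝ) (N₁ N₂ N₃ : ℂ → ℂ) (m₁ : Measurable N₁)
    (m₂ : Measurable N₂) (m₃ : Measurable N₃) : MeasurableSet (resSet ρ D τ N₁ N₂ N₃) := by
  have ccis := continuous_cis.measurable
  have a1 : Measurable (fun p : ℂ × ℝ => N₁ p.1) := m₁.comp measurable_fst
  have a2 : Measurable (fun p : ℂ × ℝ => N₂ (p.1 + cis p.2)) :=
    m₂.comp (measurable_fst.add (ccis.comp measurable_snd))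
  have a3 : Measurable (fun p : ℂ × ℝ => N₃ (p.1 + ρ * cis p.2)) :=
    m₃.comp (measurable_fst.add ((ccis.comp measurable_snd).const_mul ρ))
  have a4 : Measurable (fun p : ℂ × ℝ => conj (Complex.I * cis p.2)) :=
    Complex.continuous_conj.measurable.comp ((ccis.comp measurable_snd).const_mul _)
  unfold resSet
  have s1 : MeasurableSet {p : ℂ × ℝ | ‖p.1‖ ≤ D} :=
    measurableSet_le measurable_fst.norm measurable_const
  have s2 : MeasurableSet {p : ℂ × ℝ | p.2 ∈ Ioc 0 (2 * π)} := measurable_snd measurableSet_Ioc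
  have s3 : MeasurableSet {p : ℂ × ℝ | ‖N₁ p.1 + N₂ (p.1 + cis p.2) + N₃ (p.1 + ρ * cis p.2)‖ ≤ τ} :=
    measurableSet_le ((a1.add a2).add a3).norm measurable_const
  have s4 : MeasurableSet {p : ℂ × ℝ | |(conj (Complex.I * cis p.2) *
      (N₂ (p.1 + cis p.2) + conj ρ * N₃ (p.1 + ρ * cis p.2))).re| ≤ τ} := by
    apply measurableSet_le _ measurable_const
    exact (Complex.measurable_re.comp (a4.mul (a2.add (a3.const_mul _)))).abs
  have s5 : MeasurableSet {p : ℂ × ℝ |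
      1 ≤ ‖N₂ (p.1 + cis p.2) + conj ρ * N₃ (p.1 + ρ * cis p.2)‖} :=
    measurableSet_le measurable_const (a2.add (a3.const_mul _)).norm
  exact s1.inter (s2.inter (s3.inter (s4.inter s5)))

theorem mu0_le_res (A : Set (ℂ × ℝ)) (hA : MeasurableSet A) :
    mu0 (Prod.swap ⁻¹' A) ≤ volume A := by
  have h1 : mu0 = ((volume : Measure ℝ).prod (volume : Measure ℂ)).restrict
      (Ioc 0 (2 * π) ×ˢ univ) := by
    rw [← Measure.prod_restrict, Measure.restrict_univ, mu0]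
  have h2 : ((volume : Measure ℝ).prod (volume : Measure ℂ)) (Prod.swap ⁻¹' A) = volume A :=
    (Measure.measurePreserving_swap (μ := (volume : Measure ℝ)) (ν := (volume : Measure ℂ))).measure_preimage
      hA.nullMeasurableSet
  rw [h1, ← h2]
  exact Measure.restrict_apply_le _ _

/-- the extraction step in abstract form -/
theorem extract_abs (ρ : ℂ) (K τ r : ℝ) (hr : 0 < r) (M : Finset (ℤ × ℤ)) (J : ℕ)
    (H₁ H₂ H₃ : ℂ → Finset (ℤ × ℤ)) (hJ₁ : ∀ t, (H₁ t).card ≤ J) (hJ₂ : ∀ t, (H₂ t).card ≤ J)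
    (hJ₃ : ∀ t, (H₃ t).card ≤ J) (hs₁ : ∀ t, H₁ t ⊆ M) (hs₂ : ∀ t, H₂ t ⊆ M) (hs₃ : ∀ t, H₃ t ⊆ M)
    (hN₁ : ∀ j, Measurable (fun x => gi (sel (H₁ x) j) / (K : ℂ)))
    (hN₂ : ∀ j, Measurable (fun x => gi (sel (H₂ x) j) / (K : ℂ)))
    (hN₃ : ∀ j, Measurable (fun x => gi (sel (H₃ x) j) / (K : ℂ)))
    (h₁ h₂ h₃ : ℤ × ℤ → ℂ → ℝ≥0∞)
    (m₁ : ∀ m, Measurable (h₁ m)) (m₂ : ∀ m, Measurable (h₂ m)) (m₃ : ∀ m, Measurable (h₃ m))
    (e₁ : ∀ m ∈ M, ∀ t, h₁ m t = if m ∈ H₁ t then 1 else 0)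
    (e₂ : ∀ m ∈ M, ∀ t, h₂ m t = if m ∈ H₂ t then 1 else 0)
    (e₃ : ∀ m ∈ M, ∀ t, h₃ m t = if m ∈ H₃ t then 1 else 0)
    (T : ℝ≥0∞) (hTfin : T ≠ ∞)
    (hT : T ≤ ∫⁻ θ in Ioc 0 (2 * π), ∫⁻ z, ∑ p ∈ M ×ˢ M ×ˢ M, ENNReal.ofReal (psi0 z) *
      ((∫⁻ s, h₁ p.1 (z - s) ∂(Om r)) * (∫⁻ s, h₂ p.2.1 (z + cis θ - s) ∂(Om r)) *
        (∫⁻ s, h₃ p.2.2 (z + ρ * cis θ - s) ∂(Om r))) *
        {θ | Rs ρ K τ p θ}.indicator (fun _ => (1 : ℝ≥0∞)) θ) :
    ∃ (s₁ s₂ s₃ : ℂ), T ≤ ∑ j ∈ (Finset.range J) ×ˢ (Finset.range J) ×ˢ (Finset.range J),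
      volume (resSet ρ 1 τ (fun x => gi (sel (H₁ (x - s₁)) j.1) / (K : ℂ))
        (fun x => gi (sel (H₂ (x - s₂)) j.2.1) / (K : ℂ))
        (fun x => gi (sel (H₃ (x - s₃)) j.2.2) / (K : ℂ))) := by
  have hOm := om_prob r hr
  have hmu : SFinite mu0 := by unfold mu0; infer_instance
  have ccis := continuous_cis.measurable
  obtain ⟨Φ, hΦ⟩ : ∃ Φ : ℝ × ℂ → ℂ × ℂ × ℂ → ℝ≥0∞, Φ = fun x s => ∑ p ∈ M ×ˢ M ×ˢ M,
    ENNReal.ofReal (psi0 x.2) * (h₁ p.1 (x.2 - s.1) * (h₂ p.2.1 (x.2 + cis x.1 - s.2.1) *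
      h₃ p.2.2 (x.2 + ρ * cis x.1 - s.2.2))) *
      {θ | Rs ρ K τ p θ}.indicator (fun _ => (1 : ℝ≥0∞)) x.1 := ⟨_, rfl⟩
  have hterm : ∀ p : Tr, Measurable (fun y : (ℝ × ℂ) × (ℂ × ℂ × ℂ) =>
      ENNReal.ofReal (psi0 y.1.2) * (h₁ p.1 (y.1.2 - y.2.1) *
        (h₂ p.2.1 (y.1.2 + cis y.1.1 - y.2.2.1) * h₃ p.2.2 (y.1.2 + ρ * cis y.1.1 - y.2.2.2))) *
      {θ | Rs ρ K τ p θ}.indicator (fun _ => (1 : ℝ≥0∞)) y.1.1) := by
    intro p
    have b0 : Measurable (fun y : (ℝ × ℂ) × (ℂ × ℂ × ℂ) => ENNReal.ofReal (psi0 y.1.2)) :=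
      (psi0_smooth.continuous.measurable.comp (measurable_snd.comp measurable_fst)).ennreal_ofReal
    have b1 : Measurable (fun y : (ℝ × ℂ) × (ℂ × ℂ × ℂ) => h₁ p.1 (y.1.2 - y.2.1)) :=
      (m₁ p.1).comp (by fun_prop)
    have b2 : Measurable (fun y : (ℝ × ℂ) × (ℂ × ℂ × ℂ) =>
        h₂ p.2.1 (y.1.2 + cis y.1.1 - y.2.2.1)) := (m₂ p.2.1).comp (by fun_prop)
    have b3 : Measurable (fun y : (ℝ × ℂ) × (ℂ × ℂ × ℂ) =>
        h₃ p.2.2 (y.1.2 + ρ * cis y.1.1 - y.2.2.2)) := (m₃ p.2.2).comp (by fun_prop)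
    have b4 : Measurable (fun y : (ℝ × ℂ) × (ℂ × ℂ × ℂ) =>
        {θ | Rs ρ K τ p θ}.indicator (fun _ => (1 : ℝ≥0∞)) y.1.1) :=
      (measurable_const.indicator (Rs_meas ρ K τ p)).comp (measurable_fst.comp measurable_fst)
    exact (b0.mul (b1.mul (b2.mul b3))).mul b4
  have hΦm : Measurable (Function.uncurry Φ) := by
    rw [hΦ]
    exact Finset.measurable_sum _ fun p _ => hterm p
  -- inner evaluation
  have hin : ∀ (θ : ℝ) (z : ℂ), (∑ p ∈ M ×ˢ M ×ˢ M, ENNReal.ofReal (psi0 z) *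
      ((∫⁻ s, h₁ p.1 (z - s) ∂(Om r)) * (∫⁻ s, h₂ p.2.1 (z + cis θ - s) ∂(Om r)) *
        (∫⁻ s, h₃ p.2.2 (z + ρ * cis θ - s) ∂(Om r))) *
        {θ | Rs ρ K τ p θ}.indicator (fun _ => (1 : ℝ≥0∞)) θ) =
      ∫⁻ s, Φ (θ, z) s ∂((Om r).prod ((Om r).prod (Om r))) := by
    intro θ z
    rw [hΦ]
    simp only
    have g1 : ∀ p : Tr, Measurable (fun s : ℂ => h₁ p.1 (z - s)) := fun p =>
      (m₁ p.1).comp (measurable_const.sub measurable_id)
    have g2 : ∀ p : Tr, Measurable (fun s : ℂ => h₂ p.2.1 (z + cis θ - s)) := fun p =>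
      (m₂ p.2.1).comp (measurable_const.sub measurable_id)
    have g3 : ∀ p : Tr, Measurable (fun s : ℂ => h₃ p.2.2 (z + ρ * cis θ - s)) := fun p =>
      (m₃ p.2.2).comp (measurable_const.sub measurable_id)
    have g4 : ∀ p : Tr, Measurable (fun s : ℂ × ℂ × ℂ => h₁ p.1 (z - s.1) *
        (h₂ p.2.1 (z + cis θ - s.2.1) * h₃ p.2.2 (z + ρ * cis θ - s.2.2))) := fun p =>
      ((g1 p).comp measurable_fst).mul
        (((g2 p).comp (measurable_fst.comp measurable_snd)).mul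
          ((g3 p).comp (measurable_snd.comp measurable_snd)))
    rw [lintegral_finsetSum _ (fun p _ => ((g4 p).const_mul _).mul_const _)]
    apply Finset.sum_congr rfl
    intro p _
    rw [lintegral_mul_const _ ((g4 p).const_mul _), lintegral_const_mul _ (g4 p),
      om_triple r hr _ _ _ (g1 p) (g2 p) (g3 p)]
  have hT2 : T ≤ ∫⁻ s, ∫⁻ x, Φ x s ∂mu0 ∂((Om r).prod ((Om r).prod (Om r))) := by
    refine hT.trans (le_of_eq ?_)
    simp only [hin]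
    have hm2 : Measurable (fun x : ℝ × ℂ =>
        ∫⁻ s, Φ x s ∂((Om r).prod ((Om r).prod (Om r)))) := hΦm.lintegral_prod_right'
    have e := lintegral_prod (μ := volume.restrict (Ioc 0 (2 * π))) (ν := (volume : Measure ℂ))
      (fun x : ℝ × ℂ => ∫⁻ s, Φ x s ∂((Om r).prod ((Om r).prod (Om r)))) hm2.aemeasurable
    rw [← e]
    change ∫⁻ x, ∫⁻ s, Φ x s ∂((Om r).prod ((Om r).prod (Om r))) ∂mu0 = _
    exact lintegral_lintegral_swap hΦm.aemeasurable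
  obtain ⟨s, hs⟩ : ∃ s : ℂ × ℂ × ℂ, T ≤ ∫⁻ x, Φ x s ∂mu0 := by
    by_contra hcon
    push Not at hcon
    have hle : ∫⁻ s, ∫⁻ x, Φ x s ∂mu0 ∂((Om r).prod ((Om r).prod (Om r))) ≤ T := by
      calc _ ≤ ∫⁻ _s : ℂ × ℂ × ℂ, T ∂((Om r).prod ((Om r).prod (Om r))) :=
            lintegral_mono fun s => (hcon s).le
        _ = T := by rw [lintegral_const, measure_univ, mul_one]
    obtain ⟨s, hs⟩ := exists_lintegral_le (μ := (Om r).prod ((Om r).prod (Om r)))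
      (f := fun s => ∫⁻ x, Φ x s ∂mu0) (hle.trans_lt hTfin.lt_top).ne
    exact absurd (hT2.trans hs) (not_le.mpr (hcon s))
  refine ⟨s.1, s.2.1, s.2.2, hs.trans ?_⟩
  obtain ⟨A, hA⟩ : ∃ A : ℕ × ℕ × ℕ → Set (ℂ × ℝ), A = fun j =>
    resSet ρ 1 τ (fun x => gi (sel (H₁ (x - s.1)) j.1) / (K : ℂ))
        (fun x => gi (sel (H₂ (x - s.2.1)) j.2.1) / (K : ℂ))
        (fun x => gi (sel (H₃ (x - s.2.2)) j.2.2) / (K : ℂ)) := ⟨_, rfl⟩
  have hAm : ∀ j, MeasurableSet (A j) := by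
    intro j
    rw [hA]
    exact resSet_meas _ _ _ _ _ _ ((hN₁ j.1).comp (measurable_id.sub_const _))
      ((hN₂ j.2.1).comp (measurable_id.sub_const _))
      ((hN₃ j.2.2).comp (measurable_id.sub_const _))
  have hpt : ∀ x : ℝ × ℂ, x.1 ∈ Ioc 0 (2 * π) →
      Φ x s ≤ ∑ j ∈ (Finset.range J) ×ˢ (Finset.range J) ×ˢ (Finset.range J),
      (Prod.swap ⁻¹' (A j)).indicator (fun _ => (1 : ℝ≥0∞)) x := by
    intro x hx
    rw [hΦ]
    simp only
    have e : ∑ p ∈ M ×ˢ M ×ˢ M, ENNReal.ofReal (psi0 x.2) * (h₁ p.1 (x.2 - s.1) *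
        (h₂ p.2.1 (x.2 + cis x.1 - s.2.1) * h₃ p.2.2 (x.2 + ρ * cis x.1 - s.2.2))) *
        {θ | Rs ρ K τ p θ}.indicator (fun _ => (1 : ℝ≥0∞)) x.1 =
        ∑ p ∈ M ×ˢ M ×ˢ M, (if p.1 ∈ H₁ (x.2 - s.1) then (1 : ℝ≥0∞) else 0) *
      ((if p.2.1 ∈ H₂ (x.2 + cis x.1 - s.2.1) then (1 : ℝ≥0∞) else 0) *
        (if p.2.2 ∈ H₃ (x.2 + ρ * cis x.1 - s.2.2) then (1 : ℝ≥0∞) else 0)) *
        (ENNReal.ofReal (psi0 x.2) *
          {θ | Rs ρ K τ p θ}.indicator (fun _ => (1 : ℝ≥0∞)) x.1) := by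
      apply Finset.sum_congr rfl
      intro p hp
      rw [Finset.mem_product, Finset.mem_product] at hp
      rw [e₁ p.1 hp.1, e₂ p.2.1 hp.2.1, e₃ p.2.2 hp.2.2]
      ring
    rw [e]
    refine (sel_triple M _ _ _ J (hs₁ _) (hs₂ _) (hs₃ _) (hJ₁ _) (hJ₂ _) (hJ₃ _)
      (fun p => ENNReal.ofReal (psi0 x.2) *
          {θ | Rs ρ K τ p θ}.indicator (fun _ => (1 : ℝ≥0∞)) x.1)).trans ?_
    apply Finset.sum_le_sum
    intro j _
    by_cases hR : Rs ρ K τ (sel (H₁ (x.2 - s.1)) j.1, sel (H₂ (x.2 + cis x.1 - s.2.1)) j.2.1,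
      sel (H₃ (x.2 + ρ * cis x.1 - s.2.2)) j.2.2) x.1
    · by_cases hz : ‖x.2‖ ≤ 1
      · have hmem : x ∈ Prod.swap ⁻¹' (A j) := by
          rw [mem_preimage, hA]
          obtain ⟨r1, r2, r3⟩ := hR
          refine ⟨hz, hx, ?_, ?_, ?_⟩
          · simp only [Prod.fst_swap, Prod.snd_swap]
            rw [← add_div, ← add_div]
            exact r1
          · simp only [Prod.fst_swap, Prod.snd_swap]
            rw [← mul_div_assoc, ← add_div]
            exact r2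
          · simp only [Prod.fst_swap, Prod.snd_swap]
            rw [← mul_div_assoc, ← add_div]
            exact r3
        rw [indicator_of_mem hmem, indicator_of_mem (by exact hR), mul_one]
        rw [ENNReal.ofReal_le_one]
        exact psi0_le_one _
      · rw [psi0_zero x.2 (not_le.mp hz).le]
        simp
    · rw [indicator_of_notMem (by exact hR), mul_zero]
      exact bot_le
  calc ∫⁻ x, Φ x s ∂mu0 ≤ ∫⁻ x, ∑ j ∈ (Finset.range J) ×ˢ (Finset.range J) ×ˢ (Finset.range J),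
      (Prod.swap ⁻¹' (A j)).indicator (fun _ => (1 : ℝ≥0∞)) x ∂mu0 := by
        apply lintegral_mono_ae
        have hae : ∀ᵐ x ∂mu0, x.1 ∈ Ioc 0 (2 * π) := by
          have h1 : mu0 = ((volume : Measure ℝ).prod (volume : Measure ℂ)).restrict
              (Ioc 0 (2 * π) ×ˢ univ) := by
            rw [← Measure.prod_restrict, Measure.restrict_univ, mu0]
          rw [h1]
          filter_upwards [ae_restrict_mem (measurableSet_Ioc.prod MeasurableSet.univ)] with x hx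
          exact hx.1
        filter_upwards [hae] with x hx
        exact hpt x hx
    _ = ∑ j ∈ (Finset.range J) ×ˢ (Finset.range J) ×ˢ (Finset.range J),
        mu0 (Prod.swap ⁻¹' (A j)) := by
        rw [lintegral_finsetSum _ (fun j _ => measurable_const.indicator
          (measurable_swap (hAm j)))]
        apply Finset.sum_congr rfl
        intro j _
        rw [lintegral_indicator (measurable_swap (hAm j)), setLIntegral_one]
    _ ≤ ∑ j ∈ (Finset.range J) ×ˢ (Finset.range J) ×ˢ (Finset.range J), volume (A j) :=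
        Finset.sum_le_sum fun j _ => mu0_le_res _ (hAm j)
    _ = _ := by rw [hA]

end Pool.Agent.H24.Tri.Aux58
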