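import Pool.Agent.H58.Tri.ExG

set_option autoImplicit false

open MeasureTheory Set Complex Metric Filter Topology
open scoped Real ENNReal NNReal FourierTransform ComplexConjugate

namespace Pool.Agent.H24.Tri.Aux58

theorem enorm_swap' (a b c : ℂ) : ‖a‖ₑ * ‖b * c‖ₑ = ‖b‖ₑ * ‖a * c‖ₑ := by
  rw [enorm_mul, enorm_mul, mul_left_comm]

theorem enorm_bound (ρ : ℂ) (M : Finset (ℤ × ℤ)) (K R : ℝ) (q₁ q₂ q₃ : ℤ × ℤ → ℂ → ℂ)
    (h₁ : ∀ m, Continuous (q₁ m)) (h₂ : ∀ m, Continuous (q₂ m)) (h₃ : ∀ m, Continuous (q₃ m))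
    (Q : ℝ) (hQ : 0 ≤ Q)
    (b₁ : ∀ m x, ‖q₁ m x‖ ≤ Q) (b₂ : ∀ m x, ‖q₂ m x‖ ≤ Q) (b₃ : ∀ m x, ‖q₃ m x‖ ≤ Q)
    (η τ H : ℝ) (hR : 0 < R) (hτ : 0 < τ) (hH : 0 < H) (hη : η = H / R) (L : ℂ) (e : ℝ)
    (he : 0 ≤ e)
    (hL : ∀ s : ℂ, ‖s‖ ≤ 2 * η → ∀ k : ℝ, |k| ≤ η →
      ‖L - LamP ρ M K R q₁ q₂ q₃ s k‖ ≤ e) :
    ‖L‖ₑ ≤ ENNReal.ofReal e + ∑ p ∈ M ×ˢ M ×ˢ M, ∫⁻ θ in Ioc 0 (2 * π), ‖Bq ρ q₁ q₂ q₃ p θ‖ₑ *
      ({θ | Rs ρ K τ p θ}.indicator (fun _ => (1 : ℝ≥0∞)) θ + ENNReal.ofReal (1 / (H * τ))) := by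
  have hηp : 0 < η := by rw [hη]; positivity
  have key := av_lamP ρ M K R q₁ q₂ q₃ h₁ h₂ h₃ Q hQ b₁ b₂ b₃ η hηp L e hL
  obtain ⟨S, hS⟩ : ∃ S, S = ∑ p ∈ M ×ˢ M ×ˢ M, av η (fun t => ex (R * (SN K p).re * t)) *
      av η (fun t => ex (R * (SN K p).im * t)) * kapC (-zN ρ K p) *
      ∫ θ in Ioc 0 (2 * π), Bq ρ q₁ q₂ q₃ p θ *
        av η (fun k => ex (R * (conj (zN ρ K p) * (Complex.I * cis θ)).re * k)) := ⟨_, rfl⟩
  rw [← hS] at key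
  have h5 : ‖L‖ₑ ≤ ‖L - S‖ₑ + ‖S‖ₑ := by
    calc ‖L‖ₑ = ‖(L - S) + S‖ₑ := by rw [sub_add_cancel]
      _ ≤ _ := enorm_add_le _ _
  refine h5.trans (add_le_add ?_ ?_)
  · rw [← ofReal_norm]
    exact ENNReal.ofReal_le_ofReal key
  · rw [hS]
    refine (enorm_sum_le _ _).trans (Finset.sum_le_sum fun p _ => ?_)
    rw [enorm_mul]
    refine (mul_le_mul_right (enorm_integral_le_lintegral_enorm _) _).trans ?_
    rw [← lintegral_const_mul' _ _ (by exact enorm_ne_top)]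
    apply lintegral_mono
    intro θ
    simp only
    rw [enorm_swap']
    apply mul_le_mul_right
    rw [← ofReal_norm, norm_mul, norm_mul, norm_mul]
    have hfb := factor_bound ρ K R τ H η hR hτ hH hη p θ
    refine (ENNReal.ofReal_le_ofReal hfb).trans (le_of_eq ?_)
    by_cases hr : Rs ρ K τ p θ
    · rw [if_pos hr, indicator_of_mem (by exact hr), ENNReal.ofReal_add (by norm_num) (by positivity),
        ENNReal.ofReal_one]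
    · rw [if_neg hr, indicator_of_notMem (by exact hr), zero_add, zero_add]

theorem Bq_enorm (ρ : ℂ) (K R r t₁ t₂ t₃ : ℝ) (a₁ a₂ a₃ : ℂ → ℂ) (C : ℝ) (hC : 0 ≤ C)
    (c₁ : ∀ m x, ‖pm K R a₁ m x‖ ≤ C) (c₂ : ∀ m x, ‖pm K R a₂ m x‖ ≤ C)
    (c₃ : ∀ m x, ‖pm K R a₃ m x‖ ≤ C) (p : Tr) (θ : ℝ) :
    ‖Bq ρ (qp K R r t₁ a₁) (qp K R r t₂ a₂) (qp K R r t₃ a₃) p θ‖ₑ ≤
      ENNReal.ofReal (C ^ 3) * ∫⁻ z, ENNReal.ofReal (psi0 z) *
        (ENNReal.ofReal (hwt K R r t₁ a₁ p.1 z) * ENNReal.ofReal (hwt K R r t₂ a₂ p.2.1 (z + cis θ)) *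
          ENNReal.ofReal (hwt K R r t₃ a₃ p.2.2 (z + ρ * cis θ))) := by
  unfold Bq
  refine (enorm_integral_le_lintegral_enorm _).trans ?_
  rw [← lintegral_const_mul' _ _ ENNReal.ofReal_ne_top]
  apply lintegral_mono
  intro z
  simp only
  have hw1 := hwt_nonneg K R r t₁ a₁ p.1 z
  have hw2 := hwt_nonneg K R r t₂ a₂ p.2.1 (z + cis θ)
  have hw3 := hwt_nonneg K R r t₃ a₃ p.2.2 (z + ρ * cis θ)
  have hp := psi0_nonneg z
  rw [← ENNReal.ofReal_mul hw1, ← ENNReal.ofReal_mul (by positivity), ← ENNReal.ofReal_mul hp,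
    ← ENNReal.ofReal_mul (by positivity), ← ofReal_norm]
  apply ENNReal.ofReal_le_ofReal
  rw [qp, qp, qp, norm_mul, norm_mul, norm_mul, norm_mul, norm_mul, norm_mul, Complex.norm_real,
    Complex.norm_real, Complex.norm_real, Complex.norm_real, Real.norm_of_nonneg hp,
    Real.norm_of_nonneg hw1, Real.norm_of_nonneg hw2, Real.norm_of_nonneg hw3]
  calc psi0 z * (hwt K R r t₁ a₁ p.1 z * ‖pm K R a₁ p.1 z‖) *
        (hwt K R r t₂ a₂ p.2.1 (z + cis θ) * ‖pm K R a₂ p.2.1 (z + cis θ)‖) *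
        (hwt K R r t₃ a₃ p.2.2 (z + ρ * cis θ) * ‖pm K R a₃ p.2.2 (z + ρ * cis θ)‖) ≤
      psi0 z * (hwt K R r t₁ a₁ p.1 z * C) *
        (hwt K R r t₂ a₂ p.2.1 (z + cis θ) * C) *
        (hwt K R r t₃ a₃ p.2.2 (z + ρ * cis θ) * C) := by
        gcongr
        · exact c₁ _ _
        · exact c₂ _ _
        · exact c₃ _ _
    _ = _ := by ring

/-- integrated bound for the weights -/
theorem T_all (ρ : ℂ) (M : Finset (ℤ × ℤ)) (J : ℕ) (W₁ W₂ W₃ : ℤ × ℤ → ℂ → ℝ≥0∞)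
    (s₁ : ∀ x, ∑ m ∈ M, W₁ m x ≤ J) (s₂ : ∀ x, ∑ m ∈ M, W₂ m x ≤ J)
    (s₃ : ∀ x, ∑ m ∈ M, W₃ m x ≤ J) :
    ∫⁻ θ in Ioc 0 (2 * π), ∫⁻ z, ∑ p ∈ M ×ˢ M ×ˢ M, ENNReal.ofReal (psi0 z) *
        (W₁ p.1 z * W₂ p.2.1 (z + cis θ) * W₃ p.2.2 (z + ρ * cis θ)) ≤
      ENNReal.ofReal (2 * π ^ 2 * (J : ℝ) ^ 3) := by
  have hpt : ∀ (θ : ℝ) (z : ℂ), ∑ p ∈ M ×ˢ M ×ˢ M, ENNReal.ofReal (psi0 z) *
        (W₁ p.1 z * W₂ p.2.1 (z + cis θ) * W₃ p.2.2 (z + ρ * cis θ)) ≤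
      (closedBall (0 : ℂ) 1).indicator (fun _ => (J : ℝ≥0∞) ^ 3) z := by
    intro θ z
    by_cases hz : z ∈ closedBall (0 : ℂ) 1
    · rw [indicator_of_mem hz]
      have e : ∑ p ∈ M ×ˢ M ×ˢ M, ENNReal.ofReal (psi0 z) *
          (W₁ p.1 z * W₂ p.2.1 (z + cis θ) * W₃ p.2.2 (z + ρ * cis θ)) =
          ENNReal.ofReal (psi0 z) * ((∑ m ∈ M, W₁ m z) * (∑ m ∈ M, W₂ m (z + cis θ)) *
            (∑ m ∈ M, W₃ m (z + ρ * cis θ))) := by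
        rw [← Finset.mul_sum, Finset.sum_product, mul_assoc, Finset.sum_mul_sum,
          Finset.sum_mul]
        congr 1
        apply Finset.sum_congr rfl
        intro a _
        rw [Finset.sum_product, Finset.mul_sum]
        apply Finset.sum_congr rfl
        intro b _
        rw [Finset.mul_sum]
        apply Finset.sum_congr rfl
        intro c _
        ring
      rw [e]
      calc _ ≤ 1 * ((J : ℝ≥0∞) * J * J) := by
            gcongr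
            · rw [ENNReal.ofReal_le_one]; exact psi0_le_one z
            · exact s₁ _
            · exact s₂ _
            · exact s₃ _
        _ = (J : ℝ≥0∞) ^ 3 := by ring
    · rw [indicator_of_notMem hz]
      rw [mem_closedBall_zero_iff, not_le] at hz
      rw [psi0_zero z hz.le]
      simp
  calc _ ≤ ∫⁻ _θ in Ioc (0 : ℝ) (2 * π), ∫⁻ z : ℂ,
        (closedBall (0 : ℂ) 1).indicator (fun _ => (J : ℝ≥0∞) ^ 3) z := by
        apply lintegral_mono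
        intro θ
        apply lintegral_mono
        intro z
        exact hpt θ z
    _ = _ := by
        rw [lintegral_indicator measurableSet_closedBall, setLIntegral_const, setLIntegral_const,
          Complex.volume_closedBall, Real.volume_Ioc, sub_zero, ENNReal.ofReal_one, one_pow, one_mul]
        rw [show (NNReal.pi : ℝ≥0∞) = ENNReal.ofReal π by
          rw [← NNReal.coe_real_pi, ENNReal.ofReal_coe_nnreal]]
        rw [← ENNReal.ofReal_natCast, ← ENNReal.ofReal_pow (by positivity),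
          ← ENNReal.ofReal_mul (by positivity), ← ENNReal.ofReal_mul (by positivity)]
        congr 1
        ring

theorem hset_sub (C₀ K R r th : ℝ) (a : ℂ → ℂ) (t : ℂ) :
    hset C₀ K R r th a t ⊆ mbox (bx C₀ K) := by
  classical
  exact Finset.filter_subset _ _

/-- measurability of the selected labels -/
theorem label_meas (C₀ K R r th : ℝ) (a : ℂ → ℂ) (ha : Nice a) (j : ℕ) :
    Measurable (fun x => gi (sel (hset C₀ K R r th a x) j) / (K : ℂ)) := by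
  classical
  let _ : MeasurableSpace (Finset (ℤ × ℤ)) := ⊤
  have h1 : Measurable (fun x => hset C₀ K R r th a x) := by
    apply measurable_to_countable'
    intro F
    have h2 : (fun x => hset C₀ K R r th a x) ⁻¹' {F} =
        if F ⊆ mbox (bx C₀ K) then ⋂ m ∈ mbox (bx C₀ K), {x | m ∈ F ↔ th ≤ mass r (pm K R a m) x}
        else ∅ := by
      split_ifs with hF
      · ext x
        simp only [mem_preimage, mem_singleton_iff, mem_iInter, mem_ofPred_eq]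
        constructor
        · intro h m hm
          rw [← h]
          unfold hset
          simp [hm]
        · intro h
          ext m
          unfold hset
          rw [Finset.mem_filter]
          constructor
          · rintro ⟨h1, h2⟩
            exact (h m h1).mpr h2
          · intro h1
            exact ⟨hF h1, (h m (hF h1)).mp h1⟩
      · ext x
        simp only [mem_preimage, mem_singleton_iff, mem_empty_iff_false, iff_false]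
        intro h
        exact hF (h ▸ hset_sub C₀ K R r th a x)
    rw [h2]
    split_ifs
    · apply Finset.measurableSet_biInter
      intro m _
      have h3 : MeasurableSet {x | th ≤ mass r (pm K R a m) x} :=
        measurableSet_le measurable_const
          (mass_meas r _ (nice_continuous _ (nice_piece _ _ _ _ ha)))
      by_cases hm : m ∈ F
      · simpa [hm] using h3
      · have : {x | m ∈ F ↔ th ≤ mass r (pm K R a m) x} = {x | th ≤ mass r (pm K R a m) x}ᶜ := by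
          ext x
          simp [hm]
        rw [this]
        exact h3.compl
    · exact MeasurableSet.empty
  have h4 : Measurable (fun F : Finset (ℤ × ℤ) => gi (sel F j) / (K : ℂ)) := measurable_from_top
  exact h4.comp h1

theorem label_bound (C₀ K : ℝ) (hC₀ : 0 < C₀) (hK : 1 ≤ K) (F : Finset (ℤ × ℤ))
    (hF : F ⊆ mbox (bx C₀ K)) (j : ℕ) : ‖gi (sel F j) / (K : ℂ)‖ ≤ 2 * (C₀ + 2) := by
  have hK0 : 0 < K := by linarith
  rw [norm_div, Complex.norm_real, Real.norm_of_nonneg hK0.le, div_le_iff₀ hK0]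
  rcases sel_mem_or F j with h | h
  · exact gi_norm_le C₀ K hC₀ hK _ (hF h)
  · rw [h]
    have : gi 0 = 0 := by simp [gi]
    rw [this, norm_zero]
    positivity

/-- the resonant mass -/
noncomputable def TR (ρ : ℂ) (K τ : ℝ) (M : Finset (ℤ × ℤ)) (W₁ W₂ W₃ : ℤ × ℤ → ℂ → ℝ≥0∞) :
    ℝ≥0∞ :=
  ∫⁻ θ in Ioc 0 (2 * π), ∫⁻ z, ∑ p ∈ M ×ˢ M ×ˢ M, ENNReal.ofReal (psi0 z) *
      (W₁ p.1 z * W₂ p.2.1 (z + cis θ) * W₃ p.2.2 (z + ρ * cis θ)) *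
        {θ | Rs ρ K τ p θ}.indicator (fun _ => (1 : ℝ≥0∞)) θ

theorem sum_bound (ρ : ℂ) (K τ : ℝ) (M : Finset (ℤ × ℤ)) (J : ℕ) (W₁ W₂ W₃ : ℤ × ℤ → ℂ → ℝ≥0∞)
    (hWm₁ : ∀ m, Measurable (W₁ m)) (hWm₂ : ∀ m, Measurable (W₂ m)) (hWm₃ : ∀ m, Measurable (W₃ m))
    (s₁ : ∀ x, ∑ m ∈ M, W₁ m x ≤ J) (s₂ : ∀ x, ∑ m ∈ M, W₂ m x ≤ J)
    (s₃ : ∀ x, ∑ m ∈ M, W₃ m x ≤ J) (B : Tr → ℝ → ℝ≥0∞) (c κ : ℝ≥0∞)
    (hB : ∀ p θ, B p θ ≤ c * ∫⁻ z, ENNReal.ofReal (psi0 z) *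
      (W₁ p.1 z * W₂ p.2.1 (z + cis θ) * W₃ p.2.2 (z + ρ * cis θ))) :
    ∑ p ∈ M ×ˢ M ×ˢ M, ∫⁻ θ in Ioc 0 (2 * π), B p θ *
      ({θ | Rs ρ K τ p θ}.indicator (fun _ => (1 : ℝ≥0∞)) θ + κ) ≤
      c * (TR ρ K τ M W₁ W₂ W₃ + κ * ENNReal.ofReal (2 * π ^ 2 * (J : ℝ) ^ 3)) := by
  have ccis := continuous_cis.measurable
  have hgm : ∀ p : Tr, Measurable (fun y : ℝ × ℂ => ENNReal.ofReal (psi0 y.2) *
      (W₁ p.1 y.2 * W₂ p.2.1 (y.2 + cis y.1) * W₃ p.2.2 (y.2 + ρ * cis y.1))) := by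
    intro p
    have c0 : Measurable (fun y : ℝ × ℂ => ENNReal.ofReal (psi0 y.2)) :=
      (psi0_smooth.continuous.measurable.comp measurable_snd).ennreal_ofReal
    have c1 : Measurable (fun y : ℝ × ℂ => W₁ p.1 y.2) := (hWm₁ _).comp measurable_snd
    have c2 : Measurable (fun y : ℝ × ℂ => W₂ p.2.1 (y.2 + cis y.1)) :=
      (hWm₂ _).comp (by fun_prop)
    have c3 : Measurable (fun y : ℝ × ℂ => W₃ p.2.2 (y.2 + ρ * cis y.1)) :=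
      (hWm₃ _).comp (by fun_prop)
    exact c0.mul ((c1.mul c2).mul c3)
  have hgz : ∀ (p : Tr) (θ : ℝ), Measurable (fun z : ℂ => ENNReal.ofReal (psi0 z) *
      (W₁ p.1 z * W₂ p.2.1 (z + cis θ) * W₃ p.2.2 (z + ρ * cis θ))) := by
    intro p θ
    have d0 : Measurable (fun z : ℂ => ENNReal.ofReal (psi0 z)) :=
      psi0_smooth.continuous.measurable.ennreal_ofReal
    have d1 : Measurable (fun z : ℂ => W₁ p.1 z) := hWm₁ _
    have d2 : Measurable (fun z : ℂ => W₂ p.2.1 (z + cis θ)) :=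
      (hWm₂ _).comp (measurable_id.add_const _)
    have d3 : Measurable (fun z : ℂ => W₃ p.2.2 (z + ρ * cis θ)) :=
      (hWm₃ _).comp (measurable_id.add_const _)
    exact d0.mul ((d1.mul d2).mul d3)
  obtain ⟨G, hG⟩ : ∃ G : Tr → ℝ → ℝ≥0∞, G = fun p θ => ∫⁻ z, ENNReal.ofReal (psi0 z) *
      (W₁ p.1 z * W₂ p.2.1 (z + cis θ) * W₃ p.2.2 (z + ρ * cis θ)) := ⟨_, rfl⟩
  have hgint : ∀ p : Tr, Measurable (G p) := fun p => by
    rw [hG]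
    exact (hgm p).lintegral_prod_right'
  have hind : ∀ p : Tr, Measurable ({θ | Rs ρ K τ p θ}.indicator (fun _ => (1 : ℝ≥0∞))) :=
    fun p => measurable_const.indicator (Rs_meas ρ K τ p)
  have hGi : ∀ p : Tr, Measurable (fun θ : ℝ => G p θ *
      {θ | Rs ρ K τ p θ}.indicator (fun _ => (1 : ℝ≥0∞)) θ) := fun p => (hgint p).mul (hind p)
  have hB' : ∀ p θ, B p θ ≤ c * G p θ := by
    intro p θ
    rw [hG]
    exact hB p θ
  have hTR : ∑ p ∈ M ×ˢ M ×ˢ M, (∫⁻ θ in Ioc 0 (2 * π), G p θ *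
      {θ | Rs ρ K τ p θ}.indicator (fun _ => (1 : ℝ≥0∞)) θ) = TR ρ K τ M W₁ W₂ W₃ := by
    rw [TR, ← lintegral_finsetSum _ (fun p _ => hGi p)]
    apply lintegral_congr
    intro θ
    rw [lintegral_finsetSum _ (fun p _ => (hgz p θ).mul_const _)]
    apply Finset.sum_congr rfl
    intro p _
    rw [lintegral_mul_const _ (hgz p θ), hG]
  have hTA : ∑ p ∈ M ×ˢ M ×ˢ M, (∫⁻ θ in Ioc 0 (2 * π), G p θ) ≤
      ENNReal.ofReal (2 * π ^ 2 * (J : ℝ) ^ 3) := by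
    refine le_trans (le_of_eq ?_) (T_all ρ M J W₁ W₂ W₃ s₁ s₂ s₃)
    rw [← lintegral_finsetSum _ (fun p _ => hgint p)]
    apply lintegral_congr
    intro θ
    rw [lintegral_finsetSum _ (fun p _ => hgz p θ), hG]
  calc _ ≤ ∑ p ∈ M ×ˢ M ×ˢ M, ∫⁻ θ in Ioc 0 (2 * π),
        (c * (G p θ * {θ | Rs ρ K τ p θ}.indicator (fun _ => (1 : ℝ≥0∞)) θ) +
          c * κ * G p θ) := by
        apply Finset.sum_le_sum
        intro p _
        apply lintegral_mono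
        intro θ
        simp only
        refine (mul_le_mul_left (hB' p θ) _).trans (le_of_eq ?_)
        ring
    _ = c * TR ρ K τ M W₁ W₂ W₃ + c * κ * ∑ p ∈ M ×ˢ M ×ˢ M, ∫⁻ θ in Ioc 0 (2 * π), G p θ := by
        rw [← hTR, Finset.mul_sum, Finset.mul_sum, ← Finset.sum_add_distrib]
        apply Finset.sum_congr rfl
        intro p _
        rw [lintegral_add_left ((hGi p).const_mul _),
          lintegral_const_mul _ (hGi p), lintegral_const_mul _ (hgint p)]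
    _ ≤ c * TR ρ K τ M W₁ W₂ W₃ + c * κ * ENNReal.ofReal (2 * π ^ 2 * (J : ℝ) ^ 3) := by gcongr
    _ = _ := by ring

/-- numerical contradiction -/
theorem num_main (ε C1 H τ J L : ℝ) (hε : 0 < ε) (hC1 : 0 < C1) (hτ : 0 < τ) (hJ : 0 ≤ J)
    (hH : H = 8 * π ^ 2 * C1 ^ 3 * (J + 1) ^ 3 / (ε * τ)) (hL : ε ≤ L) (T : ℝ≥0∞)
    (h : ENNReal.ofReal L ≤ ENNReal.ofReal (ε / 4) + ENNReal.ofReal (C1 ^ 3) *
      (T + ENNReal.ofReal (1 / (H * τ)) * ENNReal.ofReal (2 * π ^ 2 * J ^ 3))) :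
    ENNReal.ofReal (ε / (2 * C1 ^ 3)) ≤ T := by
  have hpi := Real.pi_pos
  have hHp : 0 < H := by rw [hH]; positivity
  by_contra hcon
  rw [not_le] at hcon
  have hfin : T ≠ ∞ := (hcon.trans_le le_top).ne
  obtain ⟨x, hx⟩ : ∃ x : ℝ, x = T.toReal := ⟨_, rfl⟩
  have hx0 : 0 ≤ x := by rw [hx]; exact ENNReal.toReal_nonneg
  have hTx : T = ENNReal.ofReal x := by rw [hx, ENNReal.ofReal_toReal hfin]
  have hxlt : x < ε / (2 * C1 ^ 3) := by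
    rw [hTx] at hcon
    exact (ENNReal.ofReal_lt_ofReal_iff (by positivity)).mp hcon
  have h7 : ENNReal.ofReal ε ≤ ENNReal.ofReal (ε / 4 + C1 ^ 3 * (x + 1 / (H * τ) *
      (2 * π ^ 2 * J ^ 3))) := by
    calc ENNReal.ofReal ε ≤ ENNReal.ofReal L := ENNReal.ofReal_le_ofReal hL
      _ ≤ ENNReal.ofReal (ε / 4) + ENNReal.ofReal (C1 ^ 3) *
          (ENNReal.ofReal x + ENNReal.ofReal (1 / (H * τ)) *
          ENNReal.ofReal (2 * π ^ 2 * J ^ 3)) := by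
          rw [← hTx]
          exact h
      _ = _ := by
          rw [← ENNReal.ofReal_mul (by positivity), ← ENNReal.ofReal_add hx0 (by positivity),
            ← ENNReal.ofReal_mul (by positivity), ← ENNReal.ofReal_add (by positivity)
              (by positivity)]
  rw [ENNReal.ofReal_le_ofReal_iff (by positivity)] at h7
  have h8 : C1 ^ 3 * (1 / (H * τ) * (2 * π ^ 2 * J ^ 3)) ≤ ε / 4 := by
    rw [hH]
    have e1 : C1 ^ 3 * (1 / (8 * π ^ 2 * C1 ^ 3 * (J + 1) ^ 3 / (ε * τ) * τ) *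
        (2 * π ^ 2 * J ^ 3)) = ε / 4 * (J ^ 3 / (J + 1) ^ 3) := by
      field_simp
      ring
    rw [e1]
    apply mul_le_of_le_one_right (by positivity)
    rw [div_le_one (by positivity)]
    gcongr
    linarith
  have h9 : C1 ^ 3 * x < ε / 2 := by
    have := mul_lt_mul_of_pos_left hxlt (show 0 < C1 ^ 3 by positivity)
    calc C1 ^ 3 * x < C1 ^ 3 * (ε / (2 * C1 ^ 3)) := this
      _ = ε / 2 := by field_simp
  linarith

/-- pigeonhole over the `J ^ 3` selections -/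
theorem pigeon (ε C1 : ℝ) (hε : 0 < ε) (hC1 : 0 < C1) (J : ℕ) (V : ℕ × ℕ × ℕ → ℝ≥0∞)
    (h : ENNReal.ofReal (ε / (2 * C1 ^ 3)) ≤
      ∑ j ∈ (Finset.range J) ×ˢ (Finset.range J) ×ˢ (Finset.range J), V j) :
    ∃ j, ENNReal.ofReal (ε / (4 * C1 ^ 3 * ((J : ℝ) + 1) ^ 3)) ≤ V j := by
  by_contra hcon
  push Not at hcon
  have h1 := h.trans (Finset.sum_le_sum fun j _ => (hcon j).le)
  rw [Finset.sum_const, Finset.card_product, Finset.card_product, Finset.card_range,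
    nsmul_eq_mul, ← ENNReal.ofReal_natCast, ← ENNReal.ofReal_mul (by positivity),
    ENNReal.ofReal_le_ofReal_iff (by positivity)] at h1
  push_cast at h1
  have h2 : (J : ℝ) * (J * J) * (ε / (4 * C1 ^ 3 * ((J : ℝ) + 1) ^ 3)) =
      ε / (4 * C1 ^ 3) * ((J : ℝ) ^ 3 / ((J : ℝ) + 1) ^ 3) := by
    field_simp
  rw [h2] at h1
  have h3 : (J : ℝ) ^ 3 / ((J : ℝ) + 1) ^ 3 ≤ 1 := by
    rw [div_le_one (by positivity)]
    gcongr
    linarith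
  have h4 : ε / (4 * C1 ^ 3) * ((J : ℝ) ^ 3 / ((J : ℝ) + 1) ^ 3) ≤ ε / (4 * C1 ^ 3) :=
    mul_le_of_le_one_right (by positivity) h3
  have h5 : ε / (4 * C1 ^ 3) < ε / (2 * C1 ^ 3) := by
    apply div_lt_div_of_pos_left hε (by positivity)
    have : 0 < C1 ^ 3 := by positivity
    linarith
  linarith

/-- the resonant mass is large -/
theorem TR_large (ρ : ℂ) (C₀ : ℝ) (hC₀ : 0 < C₀) : ∃ C1 : ℝ, 1 ≤ C1 ∧ ∀ (J : ℕ) (ε : ℝ), 0 < ε →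
    ∀ τ : ℝ, 0 < τ → ∃ K₀ : ℝ, 1 ≤ K₀ ∧ ∀ K : ℝ, K₀ ≤ K → ∀ r : ℝ, 0 < r →
    ∃ R₀ : ℝ, 1 ≤ R₀ ∧ ∀ R : ℝ, R₀ ≤ R → ∀ a₁ a₂ a₃ : ℂ → ℂ, Adm C₀ R a₁ → Adm C₀ R a₂ →
      Adm C₀ R a₃ → ∀ t₁ t₂ t₃ : ℝ,
      (∀ t, (hset C₀ K R r t₁ a₁ t).card ≤ J) → (∀ t, (hset C₀ K R r t₂ a₂ t).card ≤ J) →
      (∀ t, (hset C₀ K R r t₃ a₃ t).card ≤ J) →
      ε ≤ ‖LamLoc ρ psi0 (kR R) (gh C₀ K R r t₁ a₁) (gh C₀ K R r t₂ a₂) (gh C₀ K R r t₃ a₃)‖ →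
      ENNReal.ofReal (ε / (2 * C1 ^ 3)) ≤ TR ρ K τ (mbox (bx C₀ K))
        (fun m x => ENNReal.ofReal (hwt K R r t₁ a₁ m x))
        (fun m x => ENNReal.ofReal (hwt K R r t₂ a₂ m x))
        (fun m x => ENNReal.ofReal (hwt K R r t₃ a₃ m x)) := by
  obtain ⟨C1, hC1, hpm⟩ := pm_facts
  obtain ⟨C, hC, hclose⟩ := lam_close
  refine ⟨C1, hC1, ?_⟩
  intro J ε hε
  have hC1p : 0 < C1 := by linarith
  have hJ0 : (0 : ℝ) ≤ J := Nat.cast_nonneg _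
  have hρ : 0 ≤ ‖ρ‖ := norm_nonneg _
  intro τ hτ
  have hpi := Real.pi_pos
  obtain ⟨H, hH⟩ : ∃ H : ℝ, H = 8 * π ^ 2 * C1 ^ 3 * ((J : ℝ) + 1) ^ 3 / (ε * τ) := ⟨_, rfl⟩
  have hHp : 0 < H := by rw [hH]; positivity
  obtain ⟨A, hA⟩ : ∃ A : ℝ, A = C * (J : ℝ) ^ 3 * (1 + ‖ρ‖) + 1 := ⟨_, rfl⟩
  have hAp : 0 < A := by rw [hA]; positivity
  have hA1 : C * (J : ℝ) ^ 3 * (1 + ‖ρ‖) ≤ A := by rw [hA]; linarith
  refine ⟨max 1 (8 * A * (H + 1) / ε), le_max_left _ _, ?_⟩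
  intro K hK r hr
  have hK1 : 1 ≤ K := (le_max_left _ _).trans hK
  have hK2 : 8 * A * (H + 1) / ε ≤ K := (le_max_right _ _).trans hK
  have hK0 : 0 < K := by linarith
  obtain ⟨U, hU⟩ : ∃ U : ℝ, U = H + H / r + (C₀ + 2) * H ^ 2 + 1 / r := ⟨_, rfl⟩
  have hUp : 0 < U := by rw [hU]; positivity
  refine ⟨max 1 (max (2 * H) (8 * A * U / ε)), le_max_left _ _, ?_⟩
  intro R hR a₁ a₂ a₃ A₁ A₂ A₃ t₁ t₂ t₃ J₁ J₂ J₃ hLam
  have hR1 : 1 ≤ R := (le_max_left _ _).trans hR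
  have hR2 : 2 * H ≤ R := (le_max_left _ _).trans ((le_max_right _ _).trans hR)
  have hR3 : 8 * A * U / ε ≤ R := (le_max_right _ _).trans ((le_max_right _ _).trans hR)
  have hR0 : 0 < R := by linarith
  obtain ⟨η, hη⟩ : ∃ η : ℝ, η = H / R := ⟨_, rfl⟩
  have hηp : 0 < η := by rw [hη]; positivity
  have hη2 : η ≤ 1 / 2 := by
    rw [hη, div_le_iff₀ hR0]; linarith
  have herr : C * (J : ℝ) ^ 3 * (1 + ‖ρ‖) *
        (η + η * (1 / r + R / K) + (C₀ + 2) * R * η ^ 2 + (1 / r + R / K) / R) ≤ ε / 4 := by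
    have e1 : η + η * (1 / r + R / K) + (C₀ + 2) * R * η ^ 2 + (1 / r + R / K) / R =
        (H + 1) / K + U / R := by
      rw [hη, hU]
      field_simp
      ring
    rw [e1]
    have e2 : (H + 1) / K * (8 * A) ≤ ε := by
      rw [div_mul_eq_mul_div, div_le_iff₀ hK0]
      rw [div_le_iff₀ hε] at hK2
      linarith
    have e3 : U / R * (8 * A) ≤ ε := by
      rw [div_mul_eq_mul_div, div_le_iff₀ hR0]
      rw [div_le_iff₀ hε] at hR3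
      linarith
    calc _ ≤ A * ((H + 1) / K + U / R) := by gcongr
      _ ≤ ε / 4 := by linarith
  have hL : ∀ s : ℂ, ‖s‖ ≤ 2 * η → ∀ k : ℝ, |k| ≤ η → ‖LamLoc ρ psi0 (kR R)
      (gh C₀ K R r t₁ a₁) (gh C₀ K R r t₂ a₂) (gh C₀ K R r t₃ a₃) -
        LamP ρ (mbox (bx C₀ K)) K R (qp K R r t₁ a₁) (qp K R r t₂ a₂) (qp K R r t₃ a₃) s k‖ ≤
      ε / 4 := fun s hs k hk =>
    (hclose ρ C₀ K R r hC₀ hK1 hR0 hr a₁ a₂ a₃ A₁ A₂ A₃ t₁ t₂ t₃ J J₁ J₂ J₃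
    η hηp hη2 s hs k hk).trans herr
  have hp₁ := hpm K R hK0 hR0 a₁ A₁.nice A₁.bound
  have hp₂ := hpm K R hK0 hR0 a₂ A₂.nice A₂.bound
  have hp₃ := hpm K R hK0 hR0 a₃ A₃.nice A₃.bound
  have hwt1 : ∀ (th : ℝ) (a : ℂ → ℂ), Nice a → ∀ m x, hwt K R r th a m x ≤ 1 := by
    intro th a ha m x
    rw [hwt_eq2]
    calc ∫ t, psr r (x - t) ^ 2 * hv K R r th a m t ≤ ∫ t, psr r (x - t) ^ 2 := by
          apply integral_mono (hwt_int K R r th hr a ha m x) ((psr_sq_int hr).comp_sub_left x)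
          intro t
          exact mul_le_of_le_one_right (sq_nonneg _) (hv_le_one _ _ _ _ _ _ _)
      _ = 1 := by
          rw [integral_sub_left_eq_self (μ := volume) (fun y : ℂ => psr r y ^ 2) x,
            psr_sq_integral hr]
  have hqb : ∀ (th : ℝ) (a : ℂ → ℂ), Adm C₀ R a → ∀ m x, ‖qp K R r th a m x‖ ≤ C1 := by
    intro th a ha m x
    rw [qp, norm_mul, Complex.norm_real, Real.norm_of_nonneg (hwt_nonneg _ _ _ _ _ _ _)]
    calc hwt K R r th a m x * ‖pm K R a m x‖ ≤ 1 * C1 :=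
          mul_le_mul (hwt1 th a ha.nice m x) ((hpm K R hK0 hR0 a ha.nice ha.bound m).2.1 x)
            (norm_nonneg _) (by norm_num)
      _ = C1 := one_mul _
  have hb := enorm_bound ρ (mbox (bx C₀ K)) K R (qp K R r t₁ a₁) (qp K R r t₂ a₂)
    (qp K R r t₃ a₃)
    (fun m => qp_cont K R r t₁ hr a₁ A₁.nice m) (fun m => qp_cont K R r t₂ hr a₂ A₂.nice m)
    (fun m => qp_cont K R r t₃ hr a₃ A₃.nice m) C1 hC1p.le (hqb t₁ a₁ A₁) (hqb t₂ a₂ A₂)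
    (hqb t₃ a₃ A₃) η τ H hR0 hτ hHp hη _ (ε / 4) (by positivity) hL
  have hWs : ∀ (th : ℝ) (a : ℂ → ℂ), Nice a → (∀ t, (hset C₀ K R r th a t).card ≤ J) → ∀ x,
      ∑ m ∈ mbox (bx C₀ K), ENNReal.ofReal (hwt K R r th a m x) ≤ J := by
    intro th a ha hJ x
    rw [← ENNReal.ofReal_sum_of_nonneg (fun m _ => hwt_nonneg _ _ _ _ _ _ _),
      ← ENNReal.ofReal_natCast]
    exact ENNReal.ofReal_le_ofReal (hwt_sum_le C₀ K R r th hr a ha J hJ x)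
  have hsb := sum_bound ρ K τ (mbox (bx C₀ K)) J
    (fun m x => ENNReal.ofReal (hwt K R r t₁ a₁ m x))
    (fun m x => ENNReal.ofReal (hwt K R r t₂ a₂ m x))
    (fun m x => ENNReal.ofReal (hwt K R r t₃ a₃ m x))
    (fun m => (hwt_cont K R r t₁ hr a₁ A₁.nice m).measurable.ennreal_ofReal)
    (fun m => (hwt_cont K R r t₂ hr a₂ A₂.nice m).measurable.ennreal_ofReal)
    (fun m => (hwt_cont K R r t₃ hr a₃ A₃.nice m).measurable.ennreal_ofReal)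
    (hWs t₁ a₁ A₁.nice J₁) (hWs t₂ a₂ A₂.nice J₂) (hWs t₃ a₃ A₃.nice J₃)
    (fun p θ => ‖Bq ρ (qp K R r t₁ a₁) (qp K R r t₂ a₂) (qp K R r t₃ a₃) p θ‖ₑ)
    (ENNReal.ofReal (C1 ^ 3)) (ENNReal.ofReal (1 / (H * τ)))
    (fun p θ => Bq_enorm ρ K R r t₁ t₂ t₃ a₁ a₂ a₃ C1 hC1p.le (fun m x => (hp₁ m).2.1 x)
      (fun m x => (hp₂ m).2.1 x) (fun m x => (hp₃ m).2.1 x) p θ)
  have hfin := hb.trans (add_le_add_right hsb _)
  rw [← ofReal_norm] at hfin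
  exact num_main ε C1 H τ J _ hε hC1p hτ hJ0 hH hLam _ hfin

end Pool.Agent.H24.Tri.Aux58

namespace Pool.Agent.H24.Tri

open Aux58

/-- SL-7: extraction of labels (section 8) -/
theorem extract (ρ : ℂ) (C₀ : ℝ) (hC₀ : 0 < C₀) : ∀ (J : ℕ) (ε : ℝ), 0 < ε →
    ∃ c : ℝ, 0 < c ∧ ∀ τ : ℝ, 0 < τ → ∃ K₀ : ℝ, 1 ≤ K₀ ∧ ∀ K : ℝ, K₀ ≤ K → ∀ r : ℝ, 0 < r →
    ∃ R₀ : ℝ, 1 ≤ R₀ ∧ ∀ R : ℝ, R₀ ≤ R → ∀ a₁ a₂ a₃ : ℂ → ℂ, Adm C₀ R a₁ → Adm C₀ R a₂ →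
      Adm C₀ R a₃ → ∀ t₁ t₂ t₃ : ℝ, 0 < t₁ → 0 < t₂ → 0 < t₃ →
      (∀ t, (hset C₀ K R r t₁ a₁ t).card ≤ J) → (∀ t, (hset C₀ K R r t₂ a₂ t).card ≤ J) →
      (∀ t, (hset C₀ K R r t₃ a₃ t).card ≤ J) →
      ε ≤ ‖LamLoc ρ psi0 (kR R) (gh C₀ K R r t₁ a₁) (gh C₀ K R r t₂ a₂) (gh C₀ K R r t₃ a₃)‖ →
      ∃ N₁ N₂ N₃ : ℂ → ℂ, Measurable N₁ ∧ Measurable N₂ ∧ Measurable N₃ ∧
        (∀ z, ‖N₁ z‖ ≤ 2 * (C₀ + 2)) ∧ (∀ z, ‖N₂ z‖ ≤ 2 * (C₀ + 2)) ∧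
        (∀ z, ‖N₃ z‖ ≤ 2 * (C₀ + 2)) ∧
        ENNReal.ofReal c ≤ volume (resSet ρ 1 τ N₁ N₂ N₃) := by
  obtain ⟨C1, hC1, hTR⟩ := TR_large ρ C₀ hC₀
  intro J ε hε
  have hC1p : 0 < C1 := by linarith
  refine ⟨ε / (4 * C1 ^ 3 * ((J : ℝ) + 1) ^ 3), by positivity, ?_⟩
  intro τ hτ
  obtain ⟨K₀, hK₀, h1⟩ := hTR J ε hε τ hτ
  refine ⟨K₀, hK₀, ?_⟩
  intro K hK r hr
  obtain ⟨R₀, hR₀, h2⟩ := h1 K hK r hr
  refine ⟨R₀, hR₀, ?_⟩
  intro R hR a₁ a₂ a₃ A₁ A₂ A₃ t₁ t₂ t₃ _ _ _ J₁ J₂ J₃ hLam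
  have h3 := h2 R hR a₁ a₂ a₃ A₁ A₂ A₃ t₁ t₂ t₃ J₁ J₂ J₃ hLam
  have hK1 : 1 ≤ K := hK₀.trans hK
  rw [TR] at h3
  simp only [hwt_lint K R r t₁ hr a₁ A₁.nice, hwt_lint K R r t₂ hr a₂ A₂.nice,
      hwt_lint K R r t₃ hr a₃ A₃.nice] at h3
  have hhv : ∀ (th : ℝ) (a : ℂ → ℂ), ∀ m ∈ mbox (bx C₀ K), ∀ t,
      ENNReal.ofReal (hv K R r th a m t) = if m ∈ hset C₀ K R r th a t then 1 else 0 := by
    intro th a m hm t
    rw [hv_eq C₀ K R r th a m hm t]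
    split_ifs <;> simp
  obtain ⟨s₁, s₂, s₃, hs⟩ := extract_abs ρ K τ r hr (mbox (bx C₀ K)) J (hset C₀ K R r t₁ a₁)
    (hset C₀ K R r t₂ a₂) (hset C₀ K R r t₃ a₃) J₁ J₂ J₃
    (hset_sub C₀ K R r t₁ a₁) (hset_sub C₀ K R r t₂ a₂) (hset_sub C₀ K R r t₃ a₃)
    (fun j => label_meas C₀ K R r t₁ a₁ A₁.nice j) (fun j => label_meas C₀ K R r t₂ a₂ A₂.nice j)
    (fun j => label_meas C₀ K R r t₃ a₃ A₃.nice j)
    (fun m t => ENNReal.ofReal (hv K R r t₁ a₁ m t))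
    (fun m t => ENNReal.ofReal (hv K R r t₂ a₂ m t))
    (fun m t => ENNReal.ofReal (hv K R r t₃ a₃ m t))
    (fun m => (hv_meas K R r t₁ a₁ A₁.nice m).ennreal_ofReal)
    (fun m => (hv_meas K R r t₂ a₂ A₂.nice m).ennreal_ofReal)
    (fun m => (hv_meas K R r t₃ a₃ A₃.nice m).ennreal_ofReal)
    (hhv t₁ a₁) (hhv t₂ a₂) (hhv t₃ a₃) (ENNReal.ofReal (ε / (2 * C1 ^ 3)))
    ENNReal.ofReal_ne_top h3
  obtain ⟨j, hj⟩ := pigeon ε C1 hε hC1p J _ hs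
  refine ⟨_, _, _, (label_meas C₀ K R r t₁ a₁ A₁.nice j.1).comp (measurable_id.sub_const s₁),
    (label_meas C₀ K R r t₂ a₂ A₂.nice j.2.1).comp (measurable_id.sub_const s₂),
    (label_meas C₀ K R r t₃ a₃ A₃.nice j.2.2).comp (measurable_id.sub_const s₃), ?_, ?_, ?_, hj⟩
  · intro z
    exact label_bound C₀ K hC₀ hK1 _ (hset_sub _ _ _ _ _ _ _) _
  · intro z
    exact label_bound C₀ K hC₀ hK1 _ (hset_sub _ _ _ _ _ _ _) _
  · intro z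
    exact label_bound C₀ K hC₀ hK1 _ (hset_sub _ _ _ _ _ _ _) _

end Pool.Agent.H24.Tri
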