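import Pool.Agent.H24.Tri.Defs

set_option autoImplicit false

open MeasureTheory Set Complex Metric Filter Topology
open scoped Real ENNReal NNReal ComplexConjugate

namespace Pool.Agent.H24.Tri

namespace Aux58

theorem im_div_eq_zero_imp {b n : ℂ} (hn : n ≠ 0) (h : (b / n).im = 0) :
    ∃ x : ℝ, b = x * n := by
  refine ⟨(b / n).re, ?_⟩
  have h1 : ((b / n).re : ℂ) = b / n := by
    apply Complex.ext
    · simp
    · simp [h]
  rw [h1]
  field_simp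

theorem indep_coord {n₁ n₂ : ℂ} (h12 : (conj n₁ * n₂).im ≠ 0) {x y : ℝ}
    (h : (x : ℂ) * n₁ + y * n₂ = 0) : x = 0 ∧ y = 0 := by
  have h1 : (conj n₁ * ((x : ℂ) * n₁ + y * n₂)).im = 0 := by rw [h]; simp
  have h2 : (conj n₂ * ((x : ℂ) * n₁ + y * n₂)).im = 0 := by rw [h]; simp
  simp only [Complex.add_im, Complex.mul_im, Complex.conj_re, Complex.conj_im, Complex.add_re,
    Complex.mul_re, Complex.ofReal_re, Complex.ofReal_im] at h1 h2 h12
  constructor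
  · have : x * (n₁.re * n₂.im + -n₁.im * n₂.re) = 0 := by nlinarith
    rcases mul_eq_zero.mp this with h | h
    · exact h
    · exact absurd h h12
  · have : y * (n₁.re * n₂.im + -n₁.im * n₂.re) = 0 := by nlinarith
    rcases mul_eq_zero.mp this with h | h
    · exact h
    · exact absurd h h12

/-- the imaginary part of `b / n` as a real linear functional -/
noncomputable def imDiv (n : ℂ) : ℂ →ₗ[ℝ] ℝ where
  toFun b := (b / n).im
  map_add' x y := by simp [add_div]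
  map_smul' r x := by
    simp only [Complex.real_smul, RingHom.id_apply, smul_eq_mul]
    rw [mul_div_assoc, Complex.im_ofReal_mul]

theorem imDiv_apply (n b : ℂ) : imDiv n b = (b / n).im := rfl

end Aux58

open Aux58

/-- linear algebra of the parallelogram with two diagonals -/
theorem rigLin (n₁ n₂ n₃ n₄ : ℂ) (hn₁ : n₁ ≠ 0) (hn₂ : n₂ ≠ 0) (hn₃ : n₃ ≠ 0)
    (hn₄ : n₄ ≠ 0) (h12 : (conj n₁ * n₂).im ≠ 0) (s₁ s₂ : ℝ) (hs₁ : s₁ ≠ 0) (hs₂ : s₂ ≠ 0)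
    (h3 : ∃ r : ℝ, r ≠ 0 ∧ (s₁ : ℂ) * n₁ + s₂ * n₂ = r * n₃)
    (h4 : (conj ((s₁ : ℂ) * n₁ - s₂ * n₂) * n₄).im ≠ 0) :
    ∃ C : ℝ, 0 < C ∧ ∀ (b d g : ℂ) (ε : ℝ), |(b / n₁).im| ≤ ε → |((g - d) / n₁).im| ≤ ε →
      |(d / n₂).im| ≤ ε → |((g - b) / n₂).im| ≤ ε → |(g / n₃).im| ≤ ε →
      |((b - d) / n₄).im| ≤ ε → ‖b‖ ≤ C * ε ∧ ‖d‖ ≤ C * ε := by
  obtain ⟨r, hr, h3⟩ := h3
  -- projections
  let pb : (Fin 3 → ℂ) →ₗ[ℝ] ℂ := LinearMap.proj 0
  let pd : (Fin 3 → ℂ) →ₗ[ℝ] ℂ := LinearMap.proj 1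
  let pg : (Fin 3 → ℂ) →ₗ[ℝ] ℂ := LinearMap.proj 2
  let Φ : (Fin 3 → ℂ) →ₗ[ℝ] (Fin 6 → ℝ) := LinearMap.pi
    ![(imDiv n₁).comp pb, (imDiv n₁).comp (pg - pd), (imDiv n₂).comp pd,
      (imDiv n₂).comp (pg - pb), (imDiv n₃).comp pg, (imDiv n₄).comp (pb - pd)]
  have hker : LinearMap.ker Φ = ⊥ := by
    rw [LinearMap.ker_eq_bot']
    intro v hv
    have e0 : (v 0 / n₁).im = 0 := congrFun hv 0
    have e1 : ((v 2 - v 1) / n₁).im = 0 := congrFun hv 1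
    have e2 : (v 1 / n₂).im = 0 := congrFun hv 2
    have e3 : ((v 2 - v 0) / n₂).im = 0 := congrFun hv 3
    have e4 : (v 2 / n₃).im = 0 := congrFun hv 4
    have e5 : ((v 0 - v 1) / n₄).im = 0 := congrFun hv 5
    obtain ⟨x0, h0⟩ := im_div_eq_zero_imp hn₁ e0
    obtain ⟨x1, h1⟩ := im_div_eq_zero_imp hn₁ e1
    obtain ⟨x2, h2⟩ := im_div_eq_zero_imp hn₂ e2
    obtain ⟨x3, h3'⟩ := im_div_eq_zero_imp hn₂ e3
    obtain ⟨x4, h4'⟩ := im_div_eq_zero_imp hn₃ e4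
    obtain ⟨x5, h5⟩ := im_div_eq_zero_imp hn₄ e5
    -- x0 = x1
    have hA : ((x1 - x0 : ℝ) : ℂ) * n₁ + ((x2 - x3 : ℝ) : ℂ) * n₂ = 0 := by
      push_cast
      have : (x1 : ℂ) * n₁ + x2 * n₂ = x0 * n₁ + x3 * n₂ := by
        rw [← h1, ← h2, ← h3', ← h0]; ring
      linear_combination this
    obtain ⟨hA1, hA2⟩ := indep_coord h12 hA
    have hg : v 2 = x0 * n₁ + x2 * n₂ := by
      have hh : x1 = x0 := by linarith
      rw [hh] at h1
      rw [← h1, ← h2]; ring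
    have hB : ((r * x0 - x4 * s₁ : ℝ) : ℂ) * n₁ + ((r * x2 - x4 * s₂ : ℝ) : ℂ) * n₂ = 0 := by
      push_cast
      have e : (r : ℂ) * (x0 * n₁ + x2 * n₂) = x4 * (s₁ * n₁ + s₂ * n₂) := by
        rw [h3, ← hg, h4']; ring
      linear_combination e
    obtain ⟨hB1, hB2⟩ := indep_coord h12 hB
    have hx0 : x0 = x4 / r * s₁ := by field_simp; linarith
    have hx2 : x2 = x4 / r * s₂ := by field_simp; linarith
    have hbd : v 0 - v 1 = ((x4 / r : ℝ) : ℂ) * ((s₁ : ℂ) * n₁ - s₂ * n₂) := by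
      rw [h0, h2, hx0, hx2]; push_cast; ring
    have hx4 : x4 / r = 0 := by
      by_contra hne
      apply h4
      have e : ((x4 / r : ℝ) : ℂ) * ((s₁ : ℂ) * n₁ - s₂ * n₂) = x5 * n₄ := by rw [← hbd, h5]
      have e2 : (s₁ : ℂ) * n₁ - s₂ * n₂ = ((x5 / (x4 / r) : ℝ) : ℂ) * n₄ := by
        have hne' : ((x4 / r : ℝ) : ℂ) ≠ 0 := by exact_mod_cast hne
        rw [Complex.ofReal_div]
        field_simp
        rw [mul_comm]
        convert e using 1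
      rw [e2, map_mul, Complex.conj_ofReal, mul_assoc, Complex.im_ofReal_mul]
      rw [mul_comm (conj n₄), Complex.mul_conj]
      simp
    have hb0 : v 0 = 0 := by rw [h0, hx0, hx4]; simp
    have hd0 : v 1 = 0 := by rw [h2, hx2, hx4]; simp
    have hg0 : v 2 = 0 := by rw [hg, hx0, hx2, hx4]; simp
    funext i
    fin_cases i
    · exact hb0
    · exact hd0
    · exact hg0
  obtain ⟨L, hL, hanti⟩ := Φ.exists_antilipschitzWith hker
  refine ⟨L, by exact_mod_cast hL, ?_⟩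
  intro b d g ε a0 a1 a2 a3 a4 a5
  have key := hanti.le_mul_dist ![b, d, g] 0
  have hε : 0 ≤ ε := le_trans (abs_nonneg _) a0
  have hΦ : dist (Φ ![b, d, g]) (Φ 0) ≤ ε := by
    rw [map_zero, dist_zero_right, pi_norm_le_iff_of_nonneg hε]
    intro i
    fin_cases i
    · exact a0
    · exact a1
    · exact a2
    · exact a3
    · exact a4
    · exact a5
  have hfin : dist ![b, d, g] (0 : Fin 3 → ℂ) ≤ L * ε :=
    key.trans (mul_le_mul_of_nonneg_left hΦ L.2)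
  rw [dist_zero_right] at hfin
  exact ⟨(norm_le_pi_norm ![b, d, g] 0).trans hfin, (norm_le_pi_norm ![b, d, g] 1).trans hfin⟩

end Pool.Agent.H24.Tri
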